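import Pool.Agent.Lib.MP_46876e_al.Defs

/-!
# From bridges modulo an orbit relation to a forest family of large mass
-/

namespace Pool.Agent.Forest46876e

open MeasureTheory MulOpposite
open scoped ENNReal

section Graph

open SimpleGraph

theorem amp_map_isPath {V W : Type*} {Γ : SimpleGraph V} {Δ : SimpleGraph W} (f : Γ →g Δ)
    (hΔ : Δ.IsAcyclic) (hinj : ∀ x y z, Γ.Adj x y → Γ.Adj x z → f y = f z → y = z) :
    ∀ {u v : V} (p : Γ.Walk u v), p.IsPath → (p.map f).IsPath
  | _, _, .nil, _ => by simp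
  | u, v, .cons (v := w) h p, hp => by
    rw [Walk.cons_isPath_iff] at hp
    rw [Walk.map_cons, Walk.cons_isPath_iff]
    have hpp := amp_map_isPath f hΔ hinj p hp.1
    refine ⟨hpp, fun hmem => ?_⟩
    have h1 := hΔ.eq_snd_of_adj_start hpp (f.map_adj h).symm hmem
    cases p with
    | nil =>
      simp only [Walk.map_nil, Walk.snd, Walk.getVert_nil] at h1
      exact (f.map_adj h).ne h1
    | cons h' p' =>
      simp only [Walk.map_cons, Walk.snd_cons] at h1
      have h2 := hinj w _ _ h.symm h' h1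
      apply hp.2
      rw [h2, Walk.support_cons]
      exact List.mem_cons_of_mem _ p'.start_mem_support

/-- A graph with a locally injective homomorphism to an acyclic graph is acyclic. -/
theorem amp_acyclic {V W : Type*} {Γ : SimpleGraph V} {Δ : SimpleGraph W} (f : Γ →g Δ)
    (hΔ : Δ.IsAcyclic) (hinj : ∀ x y z, Γ.Adj x y → Γ.Adj x z → f y = f z → y = z) :
    Γ.IsAcyclic := by
  intro v c hc
  cases c with
  | nil => exact hc.ne_nil rfl
  | cons h p =>
    rw [Walk.cons_isCycle_iff] at hc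
    have hp := amp_map_isPath f hΔ hinj p hc.1
    have hadj := (f.map_adj h).symm
    have h1 : (⟨p.map f, hp⟩ : Δ.Path _ _) = Path.singleton hadj :=
      (hΔ.subsingleton_path _ _).elim _ _
    have h2 : (p.map f).length = 1 := by
      have := congrArg (fun q : Δ.Path _ _ => q.1.length) h1
      simpa using this
    rw [Walk.length_map] at h2
    cases p with
    | nil => simp at h2
    | cons h' p' =>
      rw [Walk.length_cons] at h2
      have h3 : p'.length = 0 := by omega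
      have h4 := Walk.eq_of_length_eq_zero h3
      subst h4
      apply hc.2
      rw [Walk.edges_cons, Sym2.eq_swap]
      exact List.mem_cons_self

end Graph

section Classes

variable {G X : Type*} [Group G] [MulAction Gᵐᵒᵖ X]

theorem amp_mul (a b : G) (x : X) : op (a * b) • x = op b • op a • x := by
  rw [op_mul, mul_smul]

/-- The `H`-orbit of a point. -/
def cls (H : Subgroup G) (x : X) : Quotient (clsSetoid X H) := Quotient.mk _ x

theorem cls_eq_iff {H : Subgroup G} {x y : X} : cls H x = cls H y ↔ ∃ c ∈ H, y = op c • x :=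
  Quotient.eq (r := clsSetoid X H)

theorem cls_smul {H : Subgroup G} {c : G} (hc : c ∈ H) (x : X) :
    cls H (op c • x) = cls H x := (cls_eq_iff.mpr ⟨c, hc, rfl⟩).symm

/-- The graph on the `H`-orbits with the edges `{[y], [y s]}`, `y ∈ B`. -/
def clsGraph (H : Subgroup G) (s : G) (B : Set X) : SimpleGraph (Quotient (clsSetoid X H)) :=
  SimpleGraph.fromRel fun q q' => ∃ y ∈ B, q = cls H y ∧ q' = cls H (op s • y)

theorem amp_inv {H : Subgroup G} {φ : X → Prop} (hφ : ∀ z, ∀ c ∈ H, (φ (op c • z) ↔ φ z))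
    {x y : X} (h : cls H x = cls H y) : φ x ↔ φ y := by
  obtain ⟨c, hc, rfl⟩ := cls_eq_iff.mp h
  exact (hφ x c hc).symm

theorem Bridges.cls_ne {H : Subgroup G} {s : G} {B : Set X} (hb : Bridges H s B) {y : X}
    (hy : y ∈ B) : cls H y ≠ cls H (op s • y) := by
  obtain ⟨φ, h1, -, h3⟩ := hb y hy
  intro h
  exact h3 (amp_inv h1 h).symm

theorem Bridges.unique {H : Subgroup G} {s : G} {B : Set X} (hb : Bridges H s B) {y z : X}
    (hy : y ∈ B) (hz : z ∈ B)
    (h : s(cls H y, cls H (op s • y)) = s(cls H z, cls H (op s • z))) : y = z := by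
  obtain ⟨φ, h1, h2, h3⟩ := hb y hy
  by_contra hne
  have h4 := h2 z hz (Ne.symm hne)
  rw [Sym2.eq_iff] at h
  rcases h with ⟨ha, hb'⟩ | ⟨ha, hb'⟩
  · have h5 := amp_inv h1 ha
    have h6 := amp_inv h1 hb'
    tauto
  · have h5 := amp_inv h1 ha
    have h6 := amp_inv h1 hb'
    tauto

theorem Bridges.clsGraph_acyclic {H : Subgroup G} {s : G} {B : Set X} (hb : Bridges H s B) :
    (clsGraph H s B).IsAcyclic := by
  rw [SimpleGraph.isAcyclic_iff_forall_isBridge]
  have key : ∀ y ∈ B, ¬ ((clsGraph H s B).deleteEdges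
      {s(cls H y, cls H (op s • y))}).Reachable (cls H y) (cls H (op s • y)) := by
    intro y hy
    obtain ⟨φ, h1, h2, h3⟩ := hb y hy
    let ψ : Quotient (clsSetoid X H) → Prop := Quotient.lift φ (by
      rintro a b ⟨c, hc, rfl⟩
      exact propext (h1 a c hc).symm)
    have hψ : ∀ x, ψ (cls H x) ↔ φ x := fun x => Iff.rfl
    rintro ⟨p⟩
    have hw : ∀ {q q' : Quotient (clsSetoid X H)} (_ : ((clsGraph H s B).deleteEdges
      {s(cls H y, cls H (op s • y))}).Walk q q'), (ψ q ↔ ψ q') := by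
      intro q q' p
      induction p with
      | nil => exact Iff.rfl
      | @cons a b c hab p ih =>
        refine Iff.trans ?_ ih
        rw [SimpleGraph.deleteEdges_adj] at hab
        obtain ⟨hab, hne⟩ := hab
        rw [clsGraph, SimpleGraph.fromRel_adj] at hab
        rcases hab.2 with ⟨z, hz, rfl, rfl⟩ | ⟨z, hz, rfl, rfl⟩
        · have hzy : z ≠ y := by
            rintro rfl
            exact hne rfl
          rw [hψ, hψ]
          exact (h2 z hz hzy).symm
        · have hzy : z ≠ y := by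
            rintro rfl
            exact hne Sym2.eq_swap
          rw [hψ, hψ]
          exact h2 z hz hzy
    exact h3 ((hw p).symm)
  intro e he
  induction e using Sym2.ind with
  | _ q q' =>
    rw [SimpleGraph.mem_edgeSet, clsGraph, SimpleGraph.fromRel_adj] at he
    rw [SimpleGraph.isBridge_iff]
    rcases he.2 with ⟨y, hy, rfl, rfl⟩ | ⟨y, hy, rfl, rfl⟩
    · exact key y hy
    · intro h
      rw [Sym2.eq_swap] at h
      exact key y hy h.symm

/-- The conjugate family: `x ∈ conjFam H s B k` iff `x c ∈ B` for some `c ∈ H` with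
`c s c⁻¹ = k`. -/
def conjFam (H : Subgroup G) (s : G) (B : Set X) (k : G) : Set X :=
  ⋃ c : {c : H // (c : G) * s * (c : G)⁻¹ = k}, {x : X | op ((c : H) : G) • x ∈ B}

theorem mem_conjFam {H : Subgroup G} {s : G} {B : Set X} {k : G} {x : X} :
    x ∈ conjFam H s B k ↔ ∃ c ∈ H, c * s * c⁻¹ = k ∧ op c • x ∈ B := by
  simp only [conjFam, Set.mem_iUnion, Set.mem_ofPred_eq]
  constructor
  · rintro ⟨⟨c, hc⟩, h⟩
    exact ⟨c, c.2, hc, h⟩
  · rintro ⟨c, hc, hk, h⟩
    exact ⟨⟨⟨c, hc⟩, hk⟩, h⟩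

/-- An edge of the conjugate family comes from `y ∈ B` and `c ∈ H`, as `{y c, y s c}`. -/
theorem conjFam_edge {H : Subgroup G} {s : G} {B : Set X} {k : G} {x : X}
    (h : x ∈ conjFam H s B k) :
    ∃ y ∈ B, ∃ c ∈ H, x = op c • y ∧ op k • x = op c • op s • y := by
  obtain ⟨c, hc, rfl, h'⟩ := mem_conjFam.mp h
  refine ⟨op c • x, h', c⁻¹, H.inv_mem hc, ?_, ?_⟩
  · rw [← amp_mul]; simp
  · rw [amp_mul, amp_mul]

theorem amp_edge_adj {H : Subgroup G} {s : G} {B : Set X} {x x' : X}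
    (h : (edgeGraph (conjFam H s B)).Adj x x') :
    ∃ y ∈ B, ∃ c ∈ H, (x = op c • y ∧ x' = op c • op s • y) ∨
      (x' = op c • y ∧ x = op c • op s • y) := by
  rw [edgeGraph, SimpleGraph.fromRel_adj] at h
  rcases h.2 with ⟨g, hg, rfl⟩ | ⟨g, hg, rfl⟩
  · obtain ⟨y, hy, c, hc, h1, h2⟩ := conjFam_edge hg
    exact ⟨y, hy, c, hc, Or.inl ⟨h1, h2⟩⟩
  · obtain ⟨y, hy, c, hc, h1, h2⟩ := conjFam_edge hg
    exact ⟨y, hy, c, hc, Or.inr ⟨h1, h2⟩⟩

theorem amp_free {B : Set X} (hfree : ∀ x ∈ B, ∀ g : G, g ≠ 1 → op g • x ≠ x) {y : X}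
    (hy : y ∈ B) {a b : G} (h : op a • y = op b • y) : a = b := by
  by_contra hne
  apply hfree y hy (a * b⁻¹) (fun h' => hne (mul_inv_eq_one.mp h'))
  rw [amp_mul, h, ← amp_mul]
  simp

theorem Bridges.conjFam_acyclic {H : Subgroup G} {s : G} {B : Set X} (hb : Bridges H s B)
    (hfree : ∀ x ∈ B, ∀ g : G, g ≠ 1 → op g • x ≠ x) :
    (edgeGraph (conjFam H s B)).IsAcyclic := by
  let f : edgeGraph (conjFam H s B) →g clsGraph H s B :=
    { toFun := cls H
      map_rel' := by
        intro x x' h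
        obtain ⟨y, hy, c, hc, ⟨rfl, rfl⟩ | ⟨rfl, rfl⟩⟩ := amp_edge_adj h
        · rw [cls_smul hc, cls_smul hc, clsGraph, SimpleGraph.fromRel_adj]
          exact ⟨hb.cls_ne hy, Or.inl ⟨y, hy, rfl, rfl⟩⟩
        · rw [cls_smul hc, cls_smul hc, clsGraph, SimpleGraph.fromRel_adj]
          exact ⟨(hb.cls_ne hy).symm, Or.inr ⟨y, hy, rfl, rfl⟩⟩ }
  refine amp_acyclic f hb.clsGraph_acyclic ?_
  intro x x' x'' h1 h2 h3
  change cls H x' = cls H x'' at h3
  obtain ⟨y, hy, c, hc, hyc⟩ := amp_edge_adj h1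
  obtain ⟨z, hz, d, hd, hzd⟩ := amp_edge_adj h2
  have e1 : s(cls H y, cls H (op s • y)) = s(cls H x, cls H x') := by
    rcases hyc with ⟨rfl, rfl⟩ | ⟨rfl, rfl⟩
    · rw [cls_smul hc, cls_smul hc]
    · rw [cls_smul hc, cls_smul hc, Sym2.eq_swap]
  have e2 : s(cls H z, cls H (op s • z)) = s(cls H x, cls H x'') := by
    rcases hzd with ⟨rfl, rfl⟩ | ⟨rfl, rfl⟩
    · rw [cls_smul hd, cls_smul hd]
    · rw [cls_smul hd, cls_smul hd, Sym2.eq_swap]
  have hyz : y = z := hb.unique hy hz (by rw [e1, e2, h3])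
  subst hyz
  have hne := hb.cls_ne hy
  rcases hyc with ⟨hx, hx'⟩ | ⟨hx', hx⟩ <;> rcases hzd with ⟨gx, gx'⟩ | ⟨gx', gx⟩
  · have hcd : c = d := amp_free hfree hy (by rw [← hx, ← gx])
    rw [hx', gx', hcd]
  · exfalso
    apply hne
    rw [← cls_smul hc y, ← hx, gx, cls_smul hd]
  · exfalso
    apply hne
    rw [← cls_smul hd y, ← gx, hx, cls_smul hc]
  · have hcd : s * c = s * d := amp_free hfree hy (by rw [amp_mul, amp_mul, ← hx, ← gx])
    rw [hx', gx', mul_left_cancel hcd]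

theorem Bridges.conjFam_noloop {H : Subgroup G} {s : G} {B : Set X} (hb : Bridges H s B)
    (k : G) : ∀ x ∈ conjFam H s B k, op k • x ≠ x := by
  intro x hx h
  obtain ⟨y, hy, c, hc, h1, h2⟩ := conjFam_edge hx
  apply hb.cls_ne hy
  rw [← cls_smul hc y, ← cls_smul hc (op s • y), ← h1, ← h2, h]

theorem Bridges.disjoint {H : Subgroup G} {s : G} {B : Set X} (hb : Bridges H s B)
    (hfree : ∀ x ∈ B, ∀ g : G, g ≠ 1 → op g • x ≠ x) {a b : G} (ha : a ∈ H) (hb' : b ∈ H)
    (hab : a ≠ b) (hconj : a * s * a⁻¹ = b * s * b⁻¹) :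
    Disjoint {x : X | op a • x ∈ B} {x : X | op b • x ∈ B} := by
  rw [Set.disjoint_left]
  intro x h1 h2
  rw [Set.mem_ofPred_eq] at h1 h2
  set y := op a • x with hy
  have hc : a⁻¹ * b ∈ H := H.mul_mem (H.inv_mem ha) hb'
  have h3 : op b • x = op (a⁻¹ * b) • y := by
    rw [hy, ← amp_mul]; simp
  have hcomm : (a⁻¹ * b) * s = s * (a⁻¹ * b) := by
    have : s * a⁻¹ * b = a⁻¹ * (a * s * a⁻¹) * b := by group
    rw [hconj] at this
    calc (a⁻¹ * b) * s = a⁻¹ * (b * s * b⁻¹) * b := by group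
      _ = s * a⁻¹ * b := this.symm
      _ = s * (a⁻¹ * b) := by group
  rw [h3] at h2
  have h4 : y = op (a⁻¹ * b) • y := by
    apply hb.unique h1 h2
    rw [cls_smul hc, ← amp_mul (a⁻¹ * b) s y, hcomm, amp_mul s (a⁻¹ * b) y, cls_smul hc]
  apply hfree y h1 (a⁻¹ * b) _ h4.symm
  intro h5
  exact hab (inv_mul_eq_one.mp h5)

end Classes

section Mass

variable {G X : Type*} [Group G] [Countable G] [MulAction Gᵐᵒᵖ X] [MeasurableSpace X]

/-- Bridges modulo an orbit relation give a forest family of large mass. -/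
theorem exists_forest_of_bridges (μ : Measure X) (H : Subgroup G)
    (hm : ∀ g : G, Measurable fun x : X => op g • x)
    (hmp : ∀ g ∈ H, MeasurePreserving (fun x : X => op g • x) μ μ) (s : G) (B : Set X)
    (hB : MeasurableSet B) (hfree : ∀ x ∈ B, ∀ g : G, g ≠ 1 → op g • x ≠ x)
    (hbr : Bridges H s B) :
    ∃ A : G → Set X, IsForestFamily A ∧ (ENat.card H : ℝ≥0∞) * μ B ^ 2 ≤ ∑' g, μ (A g) ^ 2 := by
  refine ⟨conjFam H s B, ⟨fun k => ?_, hbr.conjFam_noloop, hbr.conjFam_acyclic hfree⟩, ?_⟩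
  · exact MeasurableSet.iUnion fun c => hm _ hB
  · have h1 : ∀ k, ∑' _ : {c : H // (c : G) * s * (c : G)⁻¹ = k}, μ B ^ 2 ≤
        μ (conjFam H s B k) ^ 2 := by
      intro k
      have h2 : μ (conjFam H s B k) = ∑' _ : {c : H // (c : G) * s * (c : G)⁻¹ = k}, μ B := by
        rw [conjFam, measure_iUnion]
        · refine tsum_congr fun c => ?_
          exact (hmp _ (c : H).2).measure_preimage hB.nullMeasurableSet
        · intro a b hab
          refine hbr.disjoint hfree (a : H).2 (b : H).2 ?_ (a.2.trans b.2.symm)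
          intro h
          exact hab (Subtype.ext (Subtype.ext h))
        · exact fun c => hm _ hB
      rw [h2]
      calc ∑' _ : {c : H // (c : G) * s * (c : G)⁻¹ = k}, μ B ^ 2
          ≤ ∑' _ : {c : H // (c : G) * s * (c : G)⁻¹ = k}, (μ B *
              ∑' _ : {c : H // (c : G) * s * (c : G)⁻¹ = k}, μ B) := by
            refine ENNReal.tsum_le_tsum fun c => ?_
            rw [sq]
            gcongr
            exact ENNReal.le_tsum (f := fun _ : {c : H // (c : G) * s * (c : G)⁻¹ = k} => μ B) c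
        _ = _ := by rw [ENNReal.tsum_mul_right, sq]
    calc (ENat.card H : ℝ≥0∞) * μ B ^ 2 = ∑' _ : H, μ B ^ 2 := by
          rw [ENNReal.tsum_const]
      _ = ∑' k : G, ∑' _ : {c : H // (c : G) * s * (c : G)⁻¹ = k}, μ B ^ 2 := by
          rw [← ENNReal.tsum_sigma' (fun _ : (Σ k : G, {c : H // (c : G) * s * (c : G)⁻¹ = k}) =>
            μ B ^ 2)]
          exact ((Equiv.sigmaFiberEquiv fun c : H => (c : G) * s * (c : G)⁻¹).tsum_eq
            (fun _ : H => μ B ^ 2)).symm
      _ ≤ _ := ENNReal.tsum_le_tsum h1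

end Mass

end Pool.Agent.Forest46876e
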