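import Pool.Agent.Lib.MP_46876e_al.Dim

/-!
# The Hilbert space `L²(X × G)` of a measure preserving action (MP_46876e_al)
-/

open MeasureTheory MulOpposite
open scoped InnerProductSpace ENNReal Classical

set_option linter.all false

namespace Forest46876

/-! ### general operators on `L²` -/

section general

variable {Y : Type*} [MeasurableSpace Y] {ν : Measure Y}

/-- composition operator -/
noncomputable def co (τ : Y → Y) (hτ : MeasurePreserving τ ν ν) : Lp ℝ 2 ν →L[ℝ] Lp ℝ 2 ν :=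
  (Lp.compMeasurePreservingₗᵢ ℝ τ hτ).toContinuousLinearMap

lemma co_ae (τ : Y → Y) (hτ : MeasurePreserving τ ν ν) (f : Lp ℝ 2 ν) :
    co τ hτ f =ᵐ[ν] fun p => f (τ p) := Lp.coeFn_compMeasurePreserving f hτ

lemma co_norm (τ : Y → Y) (hτ : MeasurePreserving τ ν ν) (f : Lp ℝ 2 ν) :
    ‖co τ hτ f‖ = ‖f‖ := (Lp.compMeasurePreservingₗᵢ ℝ τ hτ).norm_map f

lemma co_inner (τ : Y → Y) (hτ : MeasurePreserving τ ν ν) (f g : Lp ℝ 2 ν) :
    ⟪co τ hτ f, co τ hτ g⟫_ℝ = ⟪f, g⟫_ℝ := (Lp.compMeasurePreservingₗᵢ ℝ τ hτ).inner_map_map f g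

lemma co_co (τ σ : Y → Y) (hτ : MeasurePreserving τ ν ν) (hσ : MeasurePreserving σ ν ν)
    (f : Lp ℝ 2 ν) : co τ hτ (co σ hσ f) = co (fun p => σ (τ p)) (hσ.comp hτ) f := by
  refine Lp.ext ?_
  filter_upwards [co_ae τ hτ (co σ hσ f), co_ae (fun p => σ (τ p)) (hσ.comp hτ) f,
    hτ.quasiMeasurePreserving.ae (co_ae σ hσ f)] with p h1 h2 h3
  rw [h1, h2, h3]

lemma co_id (hτ : MeasurePreserving (fun p : Y => p) ν ν) (f : Lp ℝ 2 ν) :
    co (fun p => p) hτ f = f := by
  refine Lp.ext ?_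
  filter_upwards [co_ae _ hτ f] with p h1
  rw [h1]

lemma co_congr {τ σ : Y → Y} (hτ : MeasurePreserving τ ν ν) (hσ : MeasurePreserving σ ν ν)
    (h : τ = σ) (f : Lp ℝ 2 ν) : co τ hτ f = co σ hσ f := by subst h; rfl

/-- adjoint of a composition operator -/
lemma co_adj {τ σ : Y → Y} (hτ : MeasurePreserving τ ν ν) (hσ : MeasurePreserving σ ν ν)
    (h : ∀ p, τ (σ p) = p) (f g : Lp ℝ 2 ν) : ⟪co τ hτ f, g⟫_ℝ = ⟪f, co σ hσ g⟫_ℝ := by
  rw [← co_inner σ hσ, co_co]
  congr 1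
  exact (co_congr _ (MeasurePreserving.id ν) (funext h) f).trans (co_id _ f)

/-- restriction operator -/
noncomputable def rs (E : Set Y) (hE : MeasurableSet E) : Lp ℝ 2 ν →L[ℝ] Lp ℝ 2 ν :=
  LinearMap.mkContinuous
    { toFun := fun f => ((Lp.memLp f).indicator hE).toLp _
      map_add' := fun f g => by
        refine Lp.ext ?_
        filter_upwards [((Lp.memLp (f + g)).indicator hE).coeFn_toLp,
          ((Lp.memLp f).indicator hE).coeFn_toLp, ((Lp.memLp g).indicator hE).coeFn_toLp,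
          Lp.coeFn_add f g, Lp.coeFn_add (((Lp.memLp f).indicator hE).toLp _)
            (((Lp.memLp g).indicator hE).toLp _)] with p h1 h2 h3 h4 h5
        rw [h5, h1, Pi.add_apply, h2, h3]
        by_cases hp : p ∈ E
        · rw [Set.indicator_of_mem hp, Set.indicator_of_mem hp, Set.indicator_of_mem hp, h4,
            Pi.add_apply]
        · simp [hp]
      map_smul' := fun c f => by
        refine Lp.ext ?_
        filter_upwards [((Lp.memLp (c • f)).indicator hE).coeFn_toLp,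
          ((Lp.memLp f).indicator hE).coeFn_toLp,
          Lp.coeFn_smul c f, Lp.coeFn_smul c (((Lp.memLp f).indicator hE).toLp _)]
          with p h1 h2 h3 h4
        simp only [RingHom.id_apply]
        rw [h1, h4, Pi.smul_apply, h2]
        by_cases hp : p ∈ E
        · rw [Set.indicator_of_mem hp, Set.indicator_of_mem hp, h3, Pi.smul_apply]
        · simp [hp] } 1 (by
    intro f
    simp only [LinearMap.coe_mk, AddHom.coe_mk, one_mul]
    rw [Lp.norm_toLp, Lp.norm_def]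
    exact ENNReal.toReal_mono (Lp.eLpNorm_ne_top f) (eLpNorm_indicator_le _))

lemma rs_ae (E : Set Y) (hE : MeasurableSet E) (f : Lp ℝ 2 ν) :
    rs E hE f =ᵐ[ν] E.indicator f := ((Lp.memLp f).indicator hE).coeFn_toLp

lemma rs_inner (E : Set Y) (hE : MeasurableSet E) (f g : Lp ℝ 2 ν) :
    ⟪rs E hE f, g⟫_ℝ = ⟪f, rs E hE g⟫_ℝ := by
  rw [L2.inner_def, L2.inner_def]
  refine integral_congr_ae ?_
  filter_upwards [rs_ae E hE f, rs_ae E hE g] with p h1 h2
  rw [h1, h2]
  by_cases hp : p ∈ E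
  · simp [hp]
  · simp [hp]

lemma rs_co {E : Set Y} {hE : MeasurableSet E} {E' : Set Y} {hE' : MeasurableSet E'} (τ : Y → Y)
    (hτ : MeasurePreserving τ ν ν) (h : ∀ p, p ∈ E' ↔ τ p ∈ E) (f : Lp ℝ 2 ν) :
    co τ hτ (rs E hE f) = rs E' hE' (co τ hτ f) := by
  refine Lp.ext ?_
  filter_upwards [co_ae τ hτ (rs E hE f), rs_ae E' hE' (co τ hτ f), co_ae τ hτ f,
    hτ.quasiMeasurePreserving.ae (rs_ae E hE f)] with p h1 h2 h3 h4
  rw [h1, h2, h4]
  by_cases hp : p ∈ E'
  · rw [Set.indicator_of_mem ((h p).1 hp), Set.indicator_of_mem hp, h3]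
  · rw [Set.indicator_of_notMem (fun h' => hp ((h p).2 h')), Set.indicator_of_notMem hp]

lemma rs_rs {E E' : Set Y} (hE : MeasurableSet E) (hE' : MeasurableSet E') (f : Lp ℝ 2 ν) :
    rs E hE (rs E' hE' f) = rs (E ∩ E') (hE.inter hE') f := by
  refine Lp.ext ?_
  filter_upwards [rs_ae E hE (rs E' hE' f), rs_ae E' hE' f,
    rs_ae (E ∩ E') (hE.inter hE') f] with p h1 h2 h3
  rw [h1, h3]
  by_cases hp : p ∈ E
  · rw [Set.indicator_of_mem hp, h2]
    by_cases hp' : p ∈ E'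
    · simp [hp, hp']
    · simp [hp']
  · simp [hp]

lemma rs_congr {E E' : Set Y} {hE : MeasurableSet E} {hE' : MeasurableSet E'} (h : E = E')
    (f : Lp ℝ 2 ν) : rs E hE f = rs E' hE' f := by subst h; rfl

end general

/-! ### the space -/

section space

variable {G X : Type*} [Group G] [Countable G] [MeasurableSpace G] [DiscreteMeasurableSpace G]
  [MeasurableSpace X] [MulAction Gᵐᵒᵖ X] [MeasurableConstSMul Gᵐᵒᵖ X]

/-- `μ × count` -/
noncomputable abbrev nu (G : Type*) [MeasurableSpace G] (μ : Measure X) : Measure (X × G) :=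
  μ.prod (Measure.count : Measure G)

/-- `L²(X × G)` -/
noncomputable abbrev H0 (G : Type*) [MeasurableSpace G] (μ : Measure X) := Lp ℝ 2 (nu G μ)

lemma mp_count (e : G ≃ G) : MeasurePreserving e (Measure.count : Measure G) Measure.count := by
  refine ⟨measurable_of_countable _, ?_⟩
  ext s hs
  rw [Measure.map_apply (measurable_of_countable _) hs, Measure.count_apply (hs.preimage
    (measurable_of_countable _)), Measure.count_apply hs]
  have := e.injective.encard_image (e ⁻¹' s)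
  rw [e.image_preimage] at this
  rw [this]

lemma meas_act : Measurable (fun p : X × G => op p.2 • p.1) :=
  measurable_from_prod_countable_left fun g => measurable_const_smul (op g)

variable (μ : Measure X) [SMulInvariantMeasure Gᵐᵒᵖ X μ] [IsProbabilityMeasure μ]

/-- left maps -/
def tU (g : G) (p : X × G) : X × G := (op g • p.1, g⁻¹ * p.2)
/-- right translations -/
def tR (g : G) (p : X × G) : X × G := (p.1, p.2 * g)
/-- flip -/
def tJ (p : X × G) : X × G := (op p.2 • p.1, p.2⁻¹)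

lemma mp_tU (g : G) : MeasurePreserving (tU g) (nu G μ) (nu G μ) :=
  (measurePreserving_smul (op g) μ).prod (mp_count (Equiv.mulLeft g⁻¹))

lemma mp_tR (g : G) : MeasurePreserving (tR g : X × G → X × G) (nu G μ) (nu G μ) :=
  (MeasurePreserving.id μ).prod (mp_count (Equiv.mulRight g))

lemma mp_tJ : MeasurePreserving (tJ : X × G → X × G) (nu G μ) (nu G μ) := by
  have h1 : MeasurePreserving (fun p : G × X => (p.1⁻¹, op p.1 • p.2))
      ((Measure.count : Measure G).prod μ) ((Measure.count : Measure G).prod μ) := by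
    refine MeasurePreserving.skew_product (f := fun g : G => g⁻¹) (g := fun g x => op g • x)
      (mp_count (Equiv.inv G)) ?_ ?_
    · exact measurable_from_prod_countable_right fun g => measurable_const_smul (op g)
    · exact Filter.Eventually.of_forall fun g => (measurePreserving_smul (op g) μ).map_eq
  have h2 : MeasurePreserving (Prod.swap : X × G → G × X) (nu G μ) (Measure.count.prod μ) :=
    Measure.measurePreserving_swap
  have h3 : MeasurePreserving (Prod.swap : G × X → X × G) (Measure.count.prod μ) (nu G μ) :=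
    Measure.measurePreserving_swap
  exact h3.comp (h1.comp h2)

/-- the operators -/
noncomputable def cU (g : G) : H0 G μ →L[ℝ] H0 G μ := co (tU g) (mp_tU μ g)
noncomputable def cR (g : G) : H0 G μ →L[ℝ] H0 G μ := co (tR g) (mp_tR μ g)
noncomputable def cJ : H0 G μ →L[ℝ] H0 G μ := co tJ (mp_tJ μ)

/-- multiplication by a function of the base point -/
noncomputable def mA (A : Set X) (hA : MeasurableSet A) : H0 G μ →L[ℝ] H0 G μ :=
  rs (Prod.fst ⁻¹' A) (measurable_fst hA)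

/-- multiplication by a function of the current vertex -/
noncomputable def nE (E : Set X) (hE : MeasurableSet E) : H0 G μ →L[ℝ] H0 G μ :=
  rs ((fun p : X × G => op p.2 • p.1) ⁻¹' E) (meas_act hE)

/-- trace vector -/
noncomputable def v0 : H0 G μ :=
  indicatorConstLp 2 (s := (Set.univ : Set X) ×ˢ ({1} : Set G))
    (MeasurableSet.univ.prod (measurableSet_singleton 1)) (by
      rw [Measure.prod_prod]; simp) (1 : ℝ)

lemma tJ_tJ (p : X × G) : tJ (tJ p) = p := by
  obtain ⟨x, g⟩ := p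
  simp only [tJ, inv_inv, Prod.mk.injEq, and_true]
  rw [smul_smul, ← op_mul, mul_inv_cancel, op_one, one_smul]

lemma tU_tU (g h : G) (p : X × G) : tU g (tU h p) = tU (h * g) p := by
  obtain ⟨x, k⟩ := p
  simp only [tU, Prod.mk.injEq]
  rw [smul_smul, ← op_mul]
  exact ⟨rfl, by group⟩

lemma tU_one (p : X × G) : tU 1 p = p := by simp [tU]

lemma cR_cU (g h : G) (f : H0 G μ) : cR μ g (cU μ h f) = cU μ h (cR μ g f) := by
  rw [cR, cU, co_co, co_co]
  refine co_congr _ _ (funext fun p => ?_) f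
  simp [tU, tR, mul_assoc]

lemma cR_mA (g : G) (A : Set X) (hA : MeasurableSet A) (f : H0 G μ) :
    cR μ g (mA μ A hA f) = mA μ A hA (cR μ g f) :=
  rs_co (tR g) (mp_tR μ g) (fun p => Iff.rfl) f

lemma nE_mA (E : Set X) (hE : MeasurableSet E) (A : Set X) (hA : MeasurableSet A) (f : H0 G μ) :
    nE μ E hE (mA μ A hA f) = mA μ A hA (nE μ E hE f) := by
  rw [nE, mA, rs_rs, rs_rs]
  exact rs_congr (Set.inter_comm _ _) f

lemma nE_cU (E : Set X) (hE : MeasurableSet E) (g : G) (f : H0 G μ) :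
    nE μ E hE (cU μ g f) = cU μ g (nE μ E hE f) := by
  refine (rs_co _ _ (fun p => ?_) f).symm
  obtain ⟨x, h⟩ := p
  simp only [Set.mem_preimage, tU]
  rw [smul_smul, ← op_mul, mul_inv_cancel_left]

lemma cU_adj (g : G) (f k : H0 G μ) : ⟪cU μ g f, k⟫_ℝ = ⟪f, cU μ g⁻¹ k⟫_ℝ :=
  co_adj _ _ (fun p => by rw [tU_tU, inv_mul_cancel, tU_one]) f k

lemma cR_adj (g : G) (f k : H0 G μ) : ⟪cR μ g f, k⟫_ℝ = ⟪f, cR μ g⁻¹ k⟫_ℝ :=
  co_adj _ _ (fun p => by simp [tR]) f k

lemma mA_adj (A : Set X) (hA : MeasurableSet A) (f k : H0 G μ) :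
    ⟪mA μ A hA f, k⟫_ℝ = ⟪f, mA μ A hA k⟫_ℝ := rs_inner _ _ f k

lemma nE_adj (A : Set X) (hA : MeasurableSet A) (f k : H0 G μ) :
    ⟪nE μ A hA f, k⟫_ℝ = ⟪f, nE μ A hA k⟫_ℝ := rs_inner _ _ f k

lemma cJ_adj (f k : H0 G μ) : ⟪cJ μ f, k⟫_ℝ = ⟪f, cJ μ k⟫_ℝ :=
  co_adj _ _ tJ_tJ f k

lemma v0_ae : (v0 μ : H0 G μ) =ᵐ[nu G μ] fun p => if p.2 = 1 then 1 else 0 := by
  refine indicatorConstLp_coeFn.trans (Filter.Eventually.of_forall fun p => ?_)
  by_cases h : p.2 = 1
  · rw [Set.indicator_of_mem (by simp [h])]; simp [h]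
  · rw [Set.indicator_of_notMem (by simp [h])]; simp [h]

/-- the test vectors `1_{A × {g}}` -/
lemma mA_cU_ae (A : Set X) (hA : MeasurableSet A) (g : G) :
    (mA μ A hA (cU μ g (v0 μ)) : H0 G μ) =ᵐ[nu G μ] (A ×ˢ ({g} : Set G)).indicator 1 := by
  filter_upwards [rs_ae (Prod.fst ⁻¹' A) (measurable_fst hA) (cU μ g (v0 μ)),
    co_ae (tU g) (mp_tU μ g) (v0 μ), (mp_tU μ g).quasiMeasurePreserving.ae (v0_ae μ)]
    with p h1 h2 h3
  have h4 : (mA μ A hA (cU μ g (v0 μ)) : H0 G μ) p = (Prod.fst ⁻¹' A).indicator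
      (cU μ g (v0 μ) : H0 G μ) p := h1
  rw [h4]
  have h5 : (cU μ g (v0 μ) : H0 G μ) p = if (tU g p).2 = 1 then 1 else 0 := h2.trans h3
  have h6 : (tU g p).2 = 1 ↔ p.2 = g := by
    simp only [tU]; rw [inv_mul_eq_one]; exact eq_comm
  by_cases hp : p.1 ∈ A
  · rw [Set.indicator_of_mem (by exact hp), h5]
    by_cases hg : p.2 = g
    · rw [if_pos (h6.2 hg), Set.indicator_of_mem (by exact ⟨hp, hg⟩)]; rfl
    · rw [if_neg (fun h => hg (h6.1 h)), Set.indicator_of_notMem (fun h => hg h.2)]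
  · rw [Set.indicator_of_notMem (by exact hp), Set.indicator_of_notMem (fun h => hp h.1)]

lemma eq_zero_of_test (f : H0 G μ)
    (h : ∀ (A : Set X) (hA : MeasurableSet A) (g : G), ⟪f, mA μ A hA (cU μ g (v0 μ))⟫_ℝ = 0) :
    f = 0 := by
  have hint : ∀ (A : Set X) (hA : MeasurableSet A) (g : G),
      ∫ p in A ×ˢ ({g} : Set G), f p ∂(nu G μ) = 0 := by
    intro A hA g
    have h1 := h A hA g
    rw [L2.inner_def] at h1
    rw [← integral_indicator (hA.prod (measurableSet_singleton g)), ← h1]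
    refine integral_congr_ae ?_
    filter_upwards [mA_cU_ae μ A hA g] with p hp
    rw [hp]
    by_cases hm : p ∈ A ×ˢ ({g} : Set G)
    · simp [hm]
    · simp [hm]
  have hslice : ∀ g : G, (fun p => f p) =ᵐ[(nu G μ).restrict (Set.univ ×ˢ ({g} : Set G))] 0 := by
    intro g
    have hfin : (nu G μ) (Set.univ ×ˢ ({g} : Set G)) ≠ ∞ := by
      rw [Measure.prod_prod]; simp
    haveI : IsFiniteMeasure ((nu G μ).restrict (Set.univ ×ˢ ({g} : Set G))) :=
      ⟨by rw [Measure.restrict_apply_univ]; exact hfin.lt_top⟩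
    have hi : Integrable (fun p => f p) ((nu G μ).restrict (Set.univ ×ˢ ({g} : Set G))) :=
      ((Lp.memLp f).restrict _).integrable (by norm_num)
    refine hi.ae_eq_zero_of_forall_setIntegral_eq_zero ?_
    intro s hs _
    rw [Measure.restrict_restrict hs]
    have h2 : s ∩ (Set.univ ×ˢ ({g} : Set G)) = ((fun x => (x, g)) ⁻¹' s) ×ˢ ({g} : Set G) := by
      ext ⟨x, k⟩
      simp only [Set.mem_inter_iff, Set.mem_prod, Set.mem_univ, true_and, Set.mem_singleton_iff,
        Set.mem_preimage]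
      constructor
      · rintro ⟨h3, rfl⟩; exact ⟨h3, rfl⟩
      · rintro ⟨h3, rfl⟩; exact ⟨h3, rfl⟩
    rw [h2]
    exact hint _ (hs.preimage measurable_prodMk_right) g
  refine Lp.ext ?_
  have h3 : ∀ᵐ p ∂(nu G μ), ∀ g : G, p.2 = g → f p = 0 := by
    rw [ae_all_iff]
    intro g
    have h4 := hslice g
    rw [Filter.EventuallyEq, ae_restrict_iff' (MeasurableSet.univ.prod
      (measurableSet_singleton g))] at h4
    filter_upwards [h4] with p hp hpg
    exact hp ⟨trivial, hpg⟩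
  filter_upwards [h3, Lp.coeFn_zero ℝ 2 (nu G μ)] with p hp h0
  rw [h0, hp p.2 rfl]; rfl

lemma cU_adjoint (g : G) : ContinuousLinearMap.adjoint (cU μ g) = cU μ g⁻¹ := by
  symm
  rw [ContinuousLinearMap.eq_adjoint_iff]
  intro x y
  rw [cU_adj, inv_inv]

lemma mA_adjoint (A : Set X) (hA : MeasurableSet A) :
    ContinuousLinearMap.adjoint (mA μ A hA : H0 G μ →L[ℝ] H0 G μ) = mA μ A hA := by
  symm
  rw [ContinuousLinearMap.eq_adjoint_iff]
  intro x y
  rw [mA_adj]

/-- the flip of a test vector -/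
lemma cJ_test (A : Set X) (hA : MeasurableSet A) (g : G) :
    cJ μ (mA μ A hA (cU μ g (v0 μ))) = cU μ g⁻¹ (mA μ A hA (v0 μ)) := by
  refine Lp.ext ?_
  have h0 := (mp_tJ (G := G) μ).quasiMeasurePreserving.ae (mA_cU_ae μ A hA g)
  filter_upwards [co_ae tJ (mp_tJ μ) (mA μ A hA (cU μ g (v0 μ))),
    co_ae (tU g⁻¹) (mp_tU μ g⁻¹) (mA μ A hA (v0 μ)), h0,
    (mp_tU μ g⁻¹).quasiMeasurePreserving.ae (rs_ae (Prod.fst ⁻¹' A) (measurable_fst hA) (v0 μ)),
    (mp_tU μ g⁻¹).quasiMeasurePreserving.ae (v0_ae (G := G) μ)] with p h1 h2 h3 h4 h5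
  have e1 : (cJ μ (mA μ A hA (cU μ g (v0 μ))) : H0 G μ) p =
    (A ×ˢ ({g} : Set G)).indicator 1 (tJ p) := h1.trans h3
  have e2 : (cU μ g⁻¹ (mA μ A hA (v0 μ)) : H0 G μ) p =
    (Prod.fst ⁻¹' A).indicator (v0 μ : H0 G μ) (tU g⁻¹ p) := h2.trans h4
  rw [e1, e2]
  obtain ⟨x, h⟩ := p
  by_cases hg : h⁻¹ = g
  · have hg' : h = g⁻¹ := by rw [← hg, inv_inv]
    subst hg'
    have e3 : (v0 μ : H0 G μ) (tU g⁻¹ (x, g⁻¹)) = 1 := by
      rw [h5, if_pos (by simp [tU])]
    by_cases hA' : op g⁻¹ • x ∈ A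
    · rw [Set.indicator_of_mem (by exact ⟨hA', by simp [tJ]⟩),
        Set.indicator_of_mem (by exact hA'), e3]; rfl
    · rw [Set.indicator_of_notMem (fun h => hA' h.1), Set.indicator_of_notMem (by exact hA')]
  · have e3 : (v0 μ : H0 G μ) (tU g⁻¹ (x, h)) = 0 := by
      rw [h5, if_neg]
      simp only [tU, inv_inv]
      intro h6
      exact hg (by rw [← mul_eq_one_iff_eq_inv.1 h6])
    rw [Set.indicator_of_notMem (fun h' => hg h'.2), Set.indicator_apply, e3, ite_self]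

/-- operators commuting with the left operators -/
def Com (A : H0 G μ →L[ℝ] H0 G μ) : Prop :=
  (∀ g f, A (cU μ g f) = cU μ g (A f)) ∧ ∀ B hB f, A (mA μ B hB f) = mA μ B hB (A f)

/-- the trace system -/
noncomputable def sys : TrSys (H0 G μ) where
  U := {u | (∃ g, u = cU μ g) ∨ ∃ (A : Set X) (hA : MeasurableSet A), u = mA μ A hA}
  adj_mem := by
    rintro u (⟨g, rfl⟩ | ⟨A, hA, rfl⟩)
    · exact Or.inl ⟨g⁻¹, cU_adjoint μ g⟩
    · exact Or.inr ⟨A, hA, mA_adjoint μ A hA⟩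
  v := v0 μ
  J := Lp.compMeasurePreservingₗᵢ ℝ tJ (mp_tJ μ)
  J_comm := by
    intro A hA
    rw [← sub_eq_zero]
    refine eq_zero_of_test μ _ fun B hB g => ?_
    rw [inner_sub_left, sub_eq_zero]
    have h1 : ⟪cJ μ (A (v0 μ)), mA μ B hB (cU μ g (v0 μ))⟫_ℝ
        = ⟪ContinuousLinearMap.adjoint A (v0 μ), mA μ B hB (cU μ g (v0 μ))⟫_ℝ := by
      rw [cJ_adj, cJ_test, ← ContinuousLinearMap.adjoint_inner_right A]
      have h2 : ∀ f, ContinuousLinearMap.adjoint A (cU μ g⁻¹ f)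
          = cU μ g⁻¹ (ContinuousLinearMap.adjoint A f) := by
        intro f
        refine ext_inner_right ℝ fun k => ?_
        rw [ContinuousLinearMap.adjoint_inner_left, cU_adj, cU_adj, inv_inv,
          ContinuousLinearMap.adjoint_inner_left, hA _ (Or.inl ⟨g, rfl⟩)]
      have h3 : ∀ f, ContinuousLinearMap.adjoint A (mA μ B hB f)
          = mA μ B hB (ContinuousLinearMap.adjoint A f) := by
        intro f
        refine ext_inner_right ℝ fun k => ?_
        rw [ContinuousLinearMap.adjoint_inner_left, mA_adj, mA_adj,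
          ContinuousLinearMap.adjoint_inner_left, hA _ (Or.inr ⟨B, hB, rfl⟩)]
      rw [h2, h3, real_inner_comm, cU_adj, inv_inv, mA_adj]
    exact h1
  total := by
    intro L hL hv hinv
    haveI : CompleteSpace L := hL.completeSpace_coe
    have h1 : Lᗮ = ⊥ := by
      rw [Submodule.eq_bot_iff]
      intro f hf
      refine eq_zero_of_test μ f fun A hA g => ?_
      rw [real_inner_comm]
      exact (Submodule.mem_orthogonal _ _).1 hf _
        (hinv _ (Or.inr ⟨A, hA, rfl⟩) _ (hinv _ (Or.inl ⟨g, rfl⟩) _ hv))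
    exact (Submodule.orthogonal_eq_bot_iff (K := L)).1 h1

lemma norm_v0 : ‖(v0 μ : H0 G μ)‖ = 1 := by
  rw [v0, norm_indicatorConstLp (by norm_num) (by norm_num)]
  simp [Measure.real, Measure.prod_prod]

variable {μ}

lemma Com.comm {A : H0 G μ →L[ℝ] H0 G μ} (hA : Com μ A) :
    ∀ u ∈ (sys μ : TrSys (H0 G μ)).U, ∀ f, A (u f) = u (A f) := by
  rintro u (⟨g, rfl⟩ | ⟨B, hB, rfl⟩) f
  · exact hA.1 g f
  · exact hA.2 B hB f

lemma com_cR (g : G) : Com μ (cR μ g) := ⟨fun h f => cR_cU μ g h f, fun B hB f => cR_mA μ g B hB f⟩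

lemma com_nE (E : Set X) (hE : MeasurableSet E) : Com μ (nE μ E hE : H0 G μ →L[ℝ] H0 G μ) :=
  ⟨fun h f => nE_cU μ E hE h f, fun B hB f => nE_mA μ E hE B hB f⟩

end space

end Forest46876
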