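import Mathlib

/-!
# The first `L²`-Betti number of a finitely generated group

For a group `G` with a finite family `S : ι → G` of generators, the edges of the Cayley graph are
the pairs `(g, i)` (from `g` to `g * S i`).  `harmonicGradients S` is the space of the
square-summable gradients `θ (g, i) = u (g * S i) - u g` of functions `u : G → ℝ` which are
divergence free, i.e. the gradients of the harmonic Dirichlet functions `u`, and
`bettiProj S` is its von Neumann dimension `∑ i, ⟪P δ_(1,i), δ_(1,i)⟫`.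
-/

open scoped Classical

namespace Pool.Agent.Forest46876e

variable {G ι : Type*} [Group G] [Fintype ι]

/-- Gradients of harmonic Dirichlet functions on the Cayley graph of `G` with respect to `S`. -/
def harmonicGradients (S : ι → G) : Submodule ℝ (lp (fun _ : G × ι => ℝ) 2) where
  carrier := {θ | (∃ u : G → ℝ, ∀ g i, θ (g, i) = u (g * S i) - u g) ∧
    ∀ g, ∑ i, (θ (g * (S i)⁻¹, i) - θ (g, i)) = 0}
  add_mem' := by
    rintro a b ⟨⟨u, hu⟩, h1⟩ ⟨⟨v, hv⟩, h2⟩
    refine ⟨⟨fun g => u g + v g, fun g i => ?_⟩, fun g => ?_⟩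
    · have h3 : (a + b : lp (fun _ : G × ι => ℝ) 2) (g, i) = a (g, i) + b (g, i) := rfl
      rw [h3, hu, hv]; ring
    · have h3 : ∀ q, (a + b : lp (fun _ : G × ι => ℝ) 2) q = a q + b q := fun _ => rfl
      have h4 : ∑ i, ((a + b : lp (fun _ : G × ι => ℝ) 2) (g * (S i)⁻¹, i)
          - (a + b : lp (fun _ : G × ι => ℝ) 2) (g, i))
          = ∑ i, (a (g * (S i)⁻¹, i) - a (g, i)) + ∑ i, (b (g * (S i)⁻¹, i) - b (g, i)) := by
        rw [← Finset.sum_add_distrib]
        exact Finset.sum_congr rfl fun i _ => by rw [h3, h3]; ring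
      rw [h4, h1, h2, add_zero]
  zero_mem' := by
    refine ⟨⟨fun _ => 0, fun g i => ?_⟩, fun g => ?_⟩
    · have h3 : (0 : lp (fun _ : G × ι => ℝ) 2) (g, i) = 0 := rfl
      rw [h3]; ring
    · have h3 : ∀ q, (0 : lp (fun _ : G × ι => ℝ) 2) q = 0 := fun _ => rfl
      simp [h3]
  smul_mem' := by
    rintro c a ⟨⟨u, hu⟩, h1⟩
    have h3 : ∀ q, (c • a : lp (fun _ : G × ι => ℝ) 2) q = c * a q := fun _ => rfl
    refine ⟨⟨fun g => c * u g, fun g i => ?_⟩, fun g => ?_⟩
    · rw [h3, hu]; ring
    · simp only [h3, ← mul_sub, ← Finset.mul_sum, h1 g, mul_zero]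

/-- The unit vector of the edge `(1, i)`. -/
noncomputable def edgeDelta (G : Type*) [Group G] {ι : Type*} (i : ι) :
    lp (fun _ : G × ι => ℝ) 2 := lp.single 2 ((1 : G), i) (1 : ℝ)

/-- The first `L²`-Betti number of the group `G` generated by `S`: the von Neumann dimension of
the (closed) space of the gradients of the harmonic Dirichlet functions. -/
noncomputable def bettiProj (S : ι → G) : ℝ :=
  ∑ i, ‖(harmonicGradients S).topologicalClosure.starProjection (edgeDelta G i)‖ ^ 2

open scoped InnerProductSpace in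
lemma inner_edgeDelta (i : ι) (θ : lp (fun _ : G × ι => ℝ) 2) :
    ⟪edgeDelta G i, θ⟫_ℝ = θ (1, i) := by
  rw [edgeDelta, lp.inner_single_left]; simp

end Pool.Agent.Forest46876e
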