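import Mathlib

/-!
# The first `L²`-Betti number of a finitely generated group

For a group `G` with a finite family `S : ι → G` of generators, the edges of the Cayley graph are
the pairs `(g, i)` (from `g` to `g * S i`).  The harmonic gradients are the gradients
`θ (g, i) = u (g * S i) - u g` of functions `u : G → ℝ` which are divergence free.  The square
summable ones form a closed space of von Neumann dimension `∑ i, ‖P δ_(1,i)‖ ^ 2`, where `P` is the
orthogonal projection, and `‖P δ_(1,i)‖ ^ 2` is the supremum of the numbers `θ (1, i) ^ 2`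
for `θ` in its unit ball.
-/

namespace Pool.Agent.Forest46876e

variable {G ι : Type*} [Group G] [Fintype ι]

/-- `θ` is the gradient of a harmonic function on the Cayley graph of `G` with respect to `S`. -/
def IsHarmonicGradient (S : ι → G) (θ : G × ι → ℝ) : Prop :=
  (∃ u : G → ℝ, ∀ g i, θ (g, i) = u (g * S i) - u g) ∧
    ∀ g, ∑ i, (θ (g * (S i)⁻¹, i) - θ (g, i)) = 0

/-- The first `L²`-Betti number of the group `G` generated by `S`: the von Neumann dimension
`∑ i, ‖P δ_(1,i)‖ ^ 2` of the space of the square summable harmonic gradients. -/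
noncomputable def firstL2Betti (S : ι → G) : ℝ :=
  ∑ i, sSup {t : ℝ | ∃ θ : G × ι → ℝ, IsHarmonicGradient S θ ∧ Summable (fun q => θ q ^ 2) ∧
    ∑' q, θ q ^ 2 ≤ 1 ∧ t = θ (1, i) ^ 2}

end Pool.Agent.Forest46876e
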