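import Pool.Agent.Lib.MP_46876e_al.BettiDef
import Pool.Agent.Lib.MP_46876e_al.Betti

/-!
# The two forms of the first `L²`-Betti number
-/

open scoped InnerProductSpace Classical

set_option linter.all false

namespace Pool.Agent.Forest46876e

lemma sSup_eq_proj {E : Type*} [NormedAddCommGroup E] [InnerProductSpace ℝ E] [CompleteSpace E]
    (K : Submodule ℝ E) (δ : E) :
    sSup {t : ℝ | ∃ θ ∈ K, ‖θ‖ ^ 2 ≤ 1 ∧ t = ⟪δ, θ⟫_ℝ ^ 2}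
      = ‖K.topologicalClosure.starProjection δ‖ ^ 2 := by
  set x := K.topologicalClosure.starProjection δ with hx
  set A := {t : ℝ | ∃ θ ∈ K, ‖θ‖ ^ 2 ≤ 1 ∧ t = ⟪δ, θ⟫_ℝ ^ 2} with hA
  have hxK : x ∈ K.topologicalClosure := Submodule.starProjection_apply_mem _ _
  have hin : ∀ θ ∈ K.topologicalClosure, ⟪δ, θ⟫_ℝ = ⟪x, θ⟫_ℝ := by
    intro θ hθ
    have h1 : ⟪δ - x, θ⟫_ℝ = 0 :=
      Submodule.starProjection_inner_eq_zero (K := K.topologicalClosure) δ θ hθ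
    rw [inner_sub_left] at h1
    linarith
  have hub : ∀ t ∈ A, t ≤ ‖x‖ ^ 2 := by
    rintro t ⟨θ, hθ, h1, rfl⟩
    rw [hin θ (K.le_topologicalClosure hθ)]
    have h2 := abs_real_inner_le_norm x θ
    have h3 : |⟪x, θ⟫_ℝ| ^ 2 ≤ (‖x‖ * ‖θ‖) ^ 2 := by
      exact pow_le_pow_left₀ (abs_nonneg _) h2 2
    rw [sq_abs, mul_pow] at h3
    nlinarith [sq_nonneg ‖x‖]
  have h0 : (0 : ℝ) ∈ A := ⟨0, K.zero_mem, by simp, by simp⟩
  have hbdd : BddAbove A := ⟨_, hub⟩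
  refine le_antisymm (csSup_le ⟨0, h0⟩ hub) ?_
  set M := sSup A with hM
  have hM0 : 0 ≤ M := le_csSup hbdd h0
  have h1 : ∀ y ∈ K, ⟪δ, y⟫_ℝ ^ 2 ≤ M * ‖y‖ ^ 2 := by
    intro y hy
    by_cases hy0 : y = 0
    · simp [hy0]
    · have hn : 0 < ‖y‖ := norm_pos_iff.2 hy0
      have h2 : ⟪δ, ‖y‖⁻¹ • y⟫_ℝ ^ 2 ≤ M := by
        refine le_csSup hbdd ⟨‖y‖⁻¹ • y, K.smul_mem _ hy, ?_, rfl⟩
        rw [norm_smul, norm_inv, norm_norm, inv_mul_cancel₀ hn.ne', one_pow]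
      rw [inner_smul_right, mul_pow, inv_pow] at h2
      have h3 : ⟪δ, y⟫_ℝ ^ 2 = ‖y‖ ^ 2 * ((‖y‖ ^ 2)⁻¹ * ⟪δ, y⟫_ℝ ^ 2) := by
        field_simp
      rw [h3, mul_comm M]
      exact mul_le_mul_of_nonneg_left h2 (by positivity)
  have h2 : ⟪δ, x⟫_ℝ ^ 2 ≤ M * ‖x‖ ^ 2 := by
    have hcl : IsClosed {y : E | ⟪δ, y⟫_ℝ ^ 2 ≤ M * ‖y‖ ^ 2} :=
      isClosed_le (by fun_prop) (by fun_prop)
    have h3 : (K.topologicalClosure : Set E) ⊆ {y : E | ⟪δ, y⟫_ℝ ^ 2 ≤ M * ‖y‖ ^ 2} := by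
      rw [Submodule.topologicalClosure_coe]
      exact closure_minimal (fun y hy => h1 y hy) hcl
    exact h3 hxK
  rw [hin x hxK, real_inner_self_eq_norm_sq] at h2
  by_cases hx0 : ‖x‖ ^ 2 = 0
  · rw [hx0]; exact hM0
  · have h4 : 0 < ‖x‖ ^ 2 := lt_of_le_of_ne (sq_nonneg _) (Ne.symm hx0)
    have h5 : ‖x‖ ^ 2 * ‖x‖ ^ 2 ≤ M * ‖x‖ ^ 2 := by rw [← sq]; exact h2
    exact le_of_mul_le_mul_right h5 h4

variable {G ι : Type*} [Group G] [Fintype ι]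

lemma firstL2Betti_eq (S : ι → G) : firstL2Betti S = bettiProj S := by
  refine Finset.sum_congr rfl fun i _ => ?_
  rw [← sSup_eq_proj]
  congr 1
  ext t
  constructor
  · rintro ⟨θ, hθ, hs, h1, rfl⟩
    have hmem : Memℓp θ 2 := by
      refine memℓp_gen ?_
      simpa [Real.norm_eq_abs, sq_abs] using hs
    refine ⟨⟨θ, hmem⟩, hθ, ?_, ?_⟩
    · have h2 := lp.norm_rpow_eq_tsum (p := 2) (by simp) (⟨θ, hmem⟩ : lp (fun _ : G × ι => ℝ) 2)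
      simp only [ENNReal.toReal_ofNat, Real.rpow_ofNat, Real.norm_eq_abs, sq_abs] at h2
      rw [h2]
      exact h1
    · rw [inner_edgeDelta]
  · rintro ⟨θ, hθ, h1, rfl⟩
    have h2 := lp.norm_rpow_eq_tsum (p := 2) (by simp) θ
    simp only [ENNReal.toReal_ofNat, Real.rpow_ofNat, Real.norm_eq_abs, sq_abs] at h2
    have h3 := (lp.memℓp θ).summable (by simp)
    simp only [ENNReal.toReal_ofNat, Real.rpow_ofNat, Real.norm_eq_abs, sq_abs] at h3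
    refine ⟨fun q => θ q, hθ, h3, ?_, ?_⟩
    · rw [← h2]; exact h1
    · rw [inner_edgeDelta]

end Pool.Agent.Forest46876e
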