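import Pool.Agent.Lib.MP_46876e_al.Base

/-!
# Modules of cocycles (MP_46876e_al)

`ZM H S`: the closed module of all `θ ∈ L²(X × G)^ι` which are of the form `θ i = c (S i)` for a
cocycle `c` on the subgroup `gen H S` generated by `H` and the `S i`, vanishing on `H`.
-/

open MeasureTheory MulOpposite
open scoped InnerProductSpace ENNReal Classical

set_option linter.all false

namespace Forest46876

variable {G X : Type*} [Group G] [Countable G] [MeasurableSpace G] [DiscreteMeasurableSpace G]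
  [MeasurableSpace X] [MulAction Gᵐᵒᵖ X] [MeasurableConstSMul Gᵐᵒᵖ X]
  {μ : Measure X} [SMulInvariantMeasure Gᵐᵒᵖ X μ] [IsProbabilityMeasure μ]

lemma cR_cR (g h : G) (f : H0 G μ) : cR μ g (cR μ h f) = cR μ (g * h) f := by
  rw [cR, cR, co_co]
  exact co_congr _ _ (funext fun p => by simp [tR, mul_assoc]) f

lemma cR_one (f : H0 G μ) : cR μ (1 : G) f = f :=
  (co_congr _ (MeasurePreserving.id _) (funext fun p => by simp [tR]) f).trans (co_id _ f)

lemma cR_norm (g : G) (f : H0 G μ) : ‖cR μ g f‖ = ‖f‖ := co_norm _ _ f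

/-- cocycles -/
def IsCoc (L : Subgroup G) (c : G → H0 G μ) : Prop :=
  ∀ g ∈ L, ∀ h ∈ L, c (g * h) = c g + cR μ g (c h)

lemma IsCoc.one {L : Subgroup G} {c : G → H0 G μ} (hc : IsCoc L c) : c 1 = 0 := by
  have h := hc 1 L.one_mem 1 L.one_mem
  rw [mul_one, cR_one] at h
  exact left_eq_add.1 h

lemma IsCoc.inv {L : Subgroup G} {c : G → H0 G μ} (hc : IsCoc L c) {g : G} (hg : g ∈ L) :
    c g⁻¹ = - cR μ g⁻¹ (c g) := by
  have h := hc g⁻¹ (L.inv_mem hg) g hg
  rw [inv_mul_cancel, hc.one] at h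
  exact eq_neg_of_add_eq_zero_left h.symm

lemma IsCoc.mono {L L' : Subgroup G} (h : L' ≤ L) {c : G → H0 G μ} (hc : IsCoc L c) :
    IsCoc L' c := fun g hg k hk => hc g (h hg) k (h hk)

/-- a cocycle vanishing on a set vanishes on the generated subgroup -/
lemma IsCoc.eq_zero {L : Subgroup G} {c : G → H0 G μ} (hc : IsCoc L c) {T : Set G} (hT : T ⊆ L)
    (h0 : ∀ g ∈ T, c g = 0) : ∀ g ∈ Subgroup.closure T, c g = 0 := by
  have hTL : Subgroup.closure T ≤ L := (Subgroup.closure_le L).2 hT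
  intro g hg
  induction hg using Subgroup.closure_induction with
  | mem x hx => exact h0 x hx
  | one => exact hc.one
  | mul x y hx hy h1 h2 => rw [hc x (hTL hx) y (hTL hy), h1, h2, map_zero, add_zero]
  | inv x hx h1 => rw [hc.inv (hTL hx), h1, map_zero, neg_zero]

variable {ι κ : Type*} [Fintype ι] [Fintype κ]

/-- generated subgroup -/
def gen (H : Subgroup G) (S : ι → G) : Subgroup G := Subgroup.closure ((H : Set G) ∪ Set.range S)

omit [Fintype ι] in
lemma le_gen (H : Subgroup G) (S : ι → G) : H ≤ gen H S :=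
  fun g hg => Subgroup.subset_closure (Or.inl hg)

omit [Fintype ι] in
lemma mem_gen (H : Subgroup G) (S : ι → G) (i : ι) : S i ∈ gen H S :=
  Subgroup.subset_closure (Or.inr ⟨i, rfl⟩)

omit [Fintype ι] in
lemma gen_le {H L : Subgroup G} {S : ι → G} (h1 : H ≤ L) (h2 : ∀ i, S i ∈ L) : gen H S ≤ L := by
  refine (Subgroup.closure_le L).2 ?_
  rintro g (hg | ⟨i, rfl⟩)
  · exact h1 hg
  · exact h2 i

variable (μ) in
/-- data of a cocycle -/
def CocOf (H : Subgroup G) (S : ι → G) (θ : HI ι (H0 G μ)) (c : G → H0 G μ) : Prop :=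
  IsCoc (gen H S) c ∧ (∀ k ∈ H, c k = 0) ∧ ∀ i, c (S i) = θ i

/-- equivariance of an operator to `H0` -/
def Int0 (μ : Measure X) [SMulInvariantMeasure Gᵐᵒᵖ X μ] [IsProbabilityMeasure μ]
    (E : HI ι (H0 G μ) →L[ℝ] H0 G μ) : Prop :=
  ∀ u ∈ (sys μ : TrSys (H0 G μ)).U, ∀ f, E (lift u f) = u (E f)

lemma exists_ev (H : Subgroup G) (S : ι → G) (g : G) (hg : g ∈ gen H S) :
    ∃ E : HI ι (H0 G μ) →L[ℝ] H0 G μ, Int0 μ E ∧ ∀ θ c, CocOf μ H S θ c → c g = E θ := by
  have hg' : g ∈ Subgroup.closure ((H : Set G) ∪ Set.range S) := hg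
  induction hg' using Subgroup.closure_induction with
  | mem x hx =>
    rcases hx with hx | ⟨i, rfl⟩
    · refine ⟨0, fun u _ f => by simp, fun θ c hc => ?_⟩
      rw [hc.2.1 x hx]; simp
    · exact ⟨cmp i, fun u _ f => rfl, fun θ c hc => hc.2.2 i⟩
  | one => exact ⟨0, fun u _ f => by simp, fun θ c hc => by rw [hc.1.one]; simp⟩
  | mul x y hx hy h1 h2 =>
    obtain ⟨E1, hE1, hc1⟩ := h1 hx
    obtain ⟨E2, hE2, hc2⟩ := h2 hy
    refine ⟨E1 + cR μ x ∘L E2, fun u hu f => ?_, fun θ c hc => ?_⟩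
    · simp only [ContinuousLinearMap.add_apply, ContinuousLinearMap.comp_apply]
      rw [hE1 u hu, hE2 u hu, (com_cR x).comm u hu, map_add]
    · rw [hc.1 x hx y hy, hc1 θ c hc, hc2 θ c hc]; rfl
  | inv x hx h1 =>
    obtain ⟨E1, hE1, hc1⟩ := h1 hx
    refine ⟨-(cR μ x⁻¹ ∘L E1), fun u hu f => ?_, fun θ c hc => ?_⟩
    · simp only [ContinuousLinearMap.neg_apply, ContinuousLinearMap.comp_apply]
      rw [hE1 u hu, (com_cR _).comm u hu, map_neg]
    · rw [hc.1.inv hx, hc1 θ c hc]; rfl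

variable (μ) in
/-- evaluation operators -/
noncomputable def ev (H : Subgroup G) (S : ι → G) (g : G) : HI ι (H0 G μ) →L[ℝ] H0 G μ :=
  if hg : g ∈ gen H S then (exists_ev (μ := μ) H S g hg).choose else 0

lemma ev_int (H : Subgroup G) (S : ι → G) (g : G) : Int0 μ (ev μ H S g) := by
  by_cases hg : g ∈ gen H S
  · rw [ev, dif_pos hg]; exact (exists_ev (μ := μ) H S g hg).choose_spec.1
  · rw [ev, dif_neg hg]; intro u _ f; simp

lemma ev_eq {H : Subgroup G} {S : ι → G} {g : G} (hg : g ∈ gen H S) {θ c}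
    (hc : CocOf μ H S θ c) : ev μ H S g θ = c g := by
  rw [ev, dif_pos hg]; exact ((exists_ev (μ := μ) H S g hg).choose_spec.2 θ c hc).symm

variable (μ) in
/-- the module of cocycles vanishing on `H` -/
noncomputable def ZM (H : Subgroup G) (S : ι → G) : VMod (sys μ : TrSys (H0 G μ)) ι where
  K :=
    { carrier := {θ | ∃ c, CocOf μ H S θ c}
      add_mem' := by
        rintro a b ⟨c, h1, h2, h3⟩ ⟨d, k1, k2, k3⟩
        refine ⟨fun g => c g + d g, fun g hg h hh => ?_, fun k hk => ?_, fun i => ?_⟩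
        · simp only [h1 g hg h hh, k1 g hg h hh, map_add]; abel
        · simp only [h2 k hk, k2 k hk, add_zero]
        · simp only [h3, k3]; rfl
      zero_mem' := ⟨fun _ => 0, fun g _ h _ => by simp, fun _ _ => rfl, fun _ => rfl⟩
      smul_mem' := by
        rintro r a ⟨c, h1, h2, h3⟩
        refine ⟨fun g => r • c g, fun g hg h hh => ?_, fun k hk => ?_, fun i => ?_⟩
        · simp only [h1 g hg h hh, map_smul, smul_add]
        · simp only [h2 k hk, smul_zero]
        · simp only [h3]; rfl }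
  closed := by
    have : ({θ | ∃ c, CocOf μ H S θ c} : Set (HI ι (H0 G μ)))
        = {θ | (∀ g ∈ gen H S, ∀ h ∈ gen H S,
            ev μ H S (g * h) θ = ev μ H S g θ + cR μ g (ev μ H S h θ)) ∧
          (∀ k ∈ H, ev μ H S k θ = 0) ∧ ∀ i, ev μ H S (S i) θ = θ i} := by
      ext θ
      constructor
      · rintro ⟨c, hc⟩
        refine ⟨fun g hg h hh => ?_, fun k hk => ?_, fun i => ?_⟩
        · rw [ev_eq (mul_mem hg hh) hc, ev_eq hg hc, ev_eq hh hc, hc.1 g hg h hh]
        · rw [ev_eq (le_gen H S hk) hc, hc.2.1 k hk]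
        · rw [ev_eq (mem_gen H S i) hc, hc.2.2 i]
      · rintro ⟨h1, h2, h3⟩
        exact ⟨fun g => ev μ H S g θ, h1, h2, h3⟩
    show IsClosed ({θ | ∃ c, CocOf μ H S θ c} : Set (HI ι (H0 G μ)))
    rw [this]
    simp only [Set.setOf_and, Set.setOf_forall]
    refine (isClosed_iInter fun g => isClosed_iInter fun hg => isClosed_iInter fun h =>
      isClosed_iInter fun hh => isClosed_eq (by fun_prop) (by fun_prop)).inter
      ((isClosed_iInter fun k => isClosed_iInter fun hk => isClosed_eq (by fun_prop)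
        (by fun_prop)).inter
      (isClosed_iInter fun i => isClosed_eq (by fun_prop) ?_))
    exact (cmp i : HI ι (H0 G μ) →L[ℝ] H0 G μ).continuous
  inv := by
    rintro u hu θ ⟨c, h1, h2, h3⟩
    refine ⟨fun g => u (c g), fun g hg h hh => ?_, fun k hk => ?_, fun i => ?_⟩
    · simp only [h1 g hg h hh, map_add]
      rw [(com_cR g).comm u hu]
    · simp only [h2 k hk, map_zero]
    · simp only [h3]; rfl

lemma mem_ZM {H : Subgroup G} {S : ι → G} {θ : HI ι (H0 G μ)} :
    θ ∈ (ZM μ H S).K ↔ ∃ c, CocOf μ H S θ c := Iff.rfl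

variable (μ) in
/-- evaluation at a finite family -/
noncomputable def evT (H : Subgroup G) (S : ι → G) (T : κ → G) :
    HI ι (H0 G μ) →L[ℝ] HI κ (H0 G μ) := ∑ j, (inc j) ∘L (ev μ H S (T j))

lemma evT_apply (H : Subgroup G) (S : ι → G) (T : κ → G) (θ : HI ι (H0 G μ)) (j : κ) :
    evT μ H S T θ j = ev μ H S (T j) θ := by
  have h1 : evT μ H S T θ = ∑ j, (inc j (ev μ H S (T j) θ) : HI κ (H0 G μ)) := by
    simp [evT, ContinuousLinearMap.sum_apply]
  have h2 : ∑ j, (inc j (ev μ H S (T j) θ) : HI κ (H0 G μ))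
      = WithLp.toLp 2 (fun j => ev μ H S (T j) θ) := by
    have := sum_inc (WithLp.toLp 2 (fun j => ev μ H S (T j) θ) : HI κ (H0 G μ))
    exact this
  rw [h1, h2]

lemma evT_int (H : Subgroup G) (S : ι → G) (T : κ → G) :
    (sys μ : TrSys (H0 G μ)).IsInt (evT μ H S T) := by
  intro u hu f
  ext1 j
  show evT μ H S T (lift u f) j = u (evT μ H S T f j)
  rw [evT_apply, evT_apply, ev_int H S (T j) u hu]

/-- **Main inequality** for cocycle modules. -/
theorem dim_ZM_le (H : Subgroup G) (S : ι → G) (T : κ → G) (hT : ∀ j, T j ∈ gen H S) :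
    (ZM μ H S).dim ≤ (ZM μ (gen H T) S).dim + (ZM μ H T).dim := by
  have hgT : gen H T ≤ gen H S := gen_le (le_gen H S) hT
  have h1 := VMod.dim_le_ker_add (ZM μ H S) (ZM μ H T) (evT μ H S T) (evT_int H S T) ?_
  · refine h1.trans (add_le_add_left (VMod.dim_mono ?_) _)
    rintro θ ⟨⟨c, hc⟩, h0⟩
    have h0' : evT μ H S T θ = 0 := h0
    have hge : gen (gen H T) S = gen H S :=
      le_antisymm (gen_le hgT (mem_gen H S)) (gen_le ((le_gen H T).trans (le_gen _ S))
        (mem_gen _ S))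
    refine ⟨c, by rw [hge]; exact hc.1, ?_, hc.2.2⟩
    refine hc.1.eq_zero ?_ ?_
    · rintro g (hg | ⟨j, rfl⟩)
      · exact le_gen H S hg
      · exact hT j
    · rintro g (hg | ⟨j, rfl⟩)
      · exact hc.2.1 g hg
      · rw [← ev_eq (hT j) hc, ← evT_apply, h0']; rfl
  · rintro θ ⟨c, hc⟩
    refine ⟨c, hc.1.mono hgT, hc.2.1, fun j => ?_⟩
    rw [evT_apply, ev_eq (hT j) hc]

lemma dim_le_card (M : VMod (sys μ : TrSys (H0 G μ)) ι) : M.dim ≤ Fintype.card ι := by
  have h1 : M.dim ≤ (VMod.top (sys μ : TrSys (H0 G μ)) ι).dim := VMod.dim_mono le_top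
  have h2 : ‖(sys μ : TrSys (H0 G μ)).v‖ = 1 := norm_v0 μ
  rw [VMod.dim_top, h2] at h1
  simpa using h1

/-- composition of a cocycle identity: the chain step -/
lemma gen_gen (H : Subgroup G) (S : ι → G) (T : κ → G) (hT : ∀ j, T j ∈ gen H S) :
    gen (gen H T) S = gen H S :=
  le_antisymm (gen_le (gen_le (le_gen H S) hT) (mem_gen H S))
    (gen_le ((le_gen H T).trans (le_gen _ S)) (mem_gen _ S))

/-- if `S` is contained in `H` the module is trivial -/
lemma ZM_eq_bot (H : Subgroup G) (S : ι → G) (hS : ∀ i, S i ∈ H) : (ZM μ H S).K = ⊥ := by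
  rw [Submodule.eq_bot_iff]
  rintro θ ⟨c, hc⟩
  ext1 i
  rw [← hc.2.2 i, hc.2.1 _ (hS i)]; rfl

lemma dim_ZM_eq_zero (H : Subgroup G) (S : ι → G) (hS : ∀ i, S i ∈ H) : (ZM μ H S).dim = 0 := by
  have h1 : ∀ f, (ZM μ H S).P f = 0 := by
    intro f
    have := (ZM μ H S).P_mem f
    rw [ZM_eq_bot H S hS] at this
    exact (Submodule.mem_bot ℝ).1 this
  simp [VMod.dim, h1]

/-- the chain `H, ⟨H, S 0⟩, ⟨H, S 0, S 1⟩, …` -/
def chain {d : ℕ} (H : Subgroup G) (S : Fin d → G) (j : ℕ) : Subgroup G :=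
  Subgroup.closure ((H : Set G) ∪ {g | ∃ i : Fin d, (i : ℕ) < j ∧ g = S i})

lemma chain_zero {d : ℕ} (H : Subgroup G) (S : Fin d → G) : chain H S 0 = H := by
  simp [chain]

lemma chain_last {d : ℕ} (H : Subgroup G) (S : Fin d → G) : chain H S d = gen H S := by
  rw [chain, gen]
  congr 2
  ext g
  constructor
  · rintro ⟨i, _, rfl⟩; exact ⟨i, rfl⟩
  · rintro ⟨i, rfl⟩; exact ⟨i, i.2, rfl⟩

lemma le_chain {d : ℕ} (H : Subgroup G) (S : Fin d → G) (j : ℕ) : H ≤ chain H S j :=
  fun g hg => Subgroup.subset_closure (Or.inl hg)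

lemma chain_succ {d : ℕ} (H : Subgroup G) (S : Fin d → G) (j : Fin d) :
    gen (chain H S j) (fun _ : Unit => S j) = chain H S (j + 1) := by
  refine le_antisymm (gen_le ?_ ?_) ?_
  · refine (Subgroup.closure_le _).2 ?_
    rintro g (hg | ⟨i, hi, rfl⟩)
    · exact le_chain H S _ hg
    · exact Subgroup.subset_closure (Or.inr ⟨i, by omega, rfl⟩)
  · intro _
    exact Subgroup.subset_closure (Or.inr ⟨j, by omega, rfl⟩)
  · refine (Subgroup.closure_le _).2 ?_
    rintro g (hg | ⟨i, hi, rfl⟩)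
    · exact (le_chain H S j).trans (le_gen _ _) hg
    · rcases Nat.lt_succ_iff_lt_or_eq.1 hi with hi | hi
      · exact le_gen _ _ (Subgroup.subset_closure (Or.inr ⟨i, hi, rfl⟩))
      · have : i = j := Fin.ext hi
        subst this
        exact mem_gen _ (fun _ : Unit => S i) ()

lemma chain_le_gen {d : ℕ} (H : Subgroup G) (S : Fin d → G) (j : ℕ) : chain H S j ≤ gen H S := by
  refine (Subgroup.closure_le _).2 ?_
  rintro g (hg | ⟨i, hi, rfl⟩)
  · exact le_gen H S hg
  · exact mem_gen H S i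

/-- dimension along the chain -/
lemma dim_chain_le {d : ℕ} (H : Subgroup G) (S : Fin d → G) (n : ℕ) (hn : n ≤ d) :
    (ZM μ H S).dim ≤ (ZM μ (chain H S n) S).dim +
      ∑ j : Fin d, if (j : ℕ) < n then (ZM μ (chain H S j) (fun _ : Unit => S j)).dim else 0 := by
  induction n with
  | zero => simp [chain_zero]
  | succ n ih =>
    refine (ih (by omega)).trans ?_
    set j : Fin d := ⟨n, by omega⟩ with hj
    have hgen : gen (chain H S n) S = gen H S :=
      le_antisymm (gen_le (chain_le_gen H S n) (mem_gen H S))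
        (gen_le ((le_chain H S n).trans (le_gen _ S)) (mem_gen _ S))
    have h1 := dim_ZM_le (μ := μ) (chain H S j) S (fun _ : Unit => S j)
      (fun _ => mem_gen _ S j)
    rw [chain_succ] at h1
    have h2 : ∑ i : Fin d, (if (i : ℕ) < n + 1 then
        (ZM μ (chain H S i) (fun _ : Unit => S i)).dim else 0)
        = (∑ i : Fin d, if (i : ℕ) < n then (ZM μ (chain H S i) (fun _ : Unit => S i)).dim else 0)
          + (ZM μ (chain H S j) (fun _ : Unit => S j)).dim := by
      have h3 : (ZM μ (chain H S j) (fun _ : Unit => S j)).dim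
          = ∑ i : Fin d, if i = j then (ZM μ (chain H S i) (fun _ : Unit => S i)).dim else 0 := by
        rw [Finset.sum_ite_eq' Finset.univ j]; simp
      rw [h3, ← Finset.sum_add_distrib]
      refine Finset.sum_congr rfl fun i _ => ?_
      by_cases hi : (i : ℕ) < n
      · have : i ≠ j := fun h => by rw [h, hj] at hi; simp at hi
        rw [if_pos (by omega), if_pos hi, if_neg this, add_zero]
      · by_cases hij : i = j
        · rw [if_pos (by rw [hij, hj]; simp), if_neg hi, if_pos hij, zero_add]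
        · have : ¬ (i : ℕ) < n + 1 := fun h => hij (Fin.ext (by
            rw [hj]; show (i : ℕ) = n; omega))
          rw [if_neg this, if_neg hi, if_neg hij, add_zero]
    rw [h2]
    have h5 : (ZM μ (chain H S n) S).dim ≤ (ZM μ (chain H S (n + 1)) S).dim
        + (ZM μ (chain H S j) (fun _ : Unit => S j)).dim := h1
    linarith

/-- pigeonhole along the chain -/
theorem exists_step {d : ℕ} (H : Subgroup G) (S : Fin d → G) {δ : ℝ} (hδ : 0 < δ)
    (h : δ ≤ (ZM μ H S).dim) :
    ∃ (H' : Subgroup G) (s : G), H ≤ H' ∧ δ / d ≤ (ZM μ H' (fun _ : Unit => s)).dim := by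
  have h1 := dim_chain_le (μ := μ) H S d le_rfl
  rw [chain_last, dim_ZM_eq_zero _ _ (mem_gen H S), zero_add] at h1
  have h2 : ∑ j : Fin d, (if (j : ℕ) < d then (ZM μ (chain H S j) (fun _ : Unit => S j)).dim
      else 0) = ∑ j : Fin d, (ZM μ (chain H S j) (fun _ : Unit => S j)).dim :=
    Finset.sum_congr rfl fun j _ => by rw [if_pos j.2]
  rw [h2] at h1
  have hd : 0 < d := by
    rcases Nat.eq_zero_or_pos d with h0 | h0
    · subst h0
      simp at h1
      linarith
    · exact h0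
  by_contra hcon
  push Not at hcon
  have h3 : ∑ j : Fin d, (ZM μ (chain H S j) (fun _ : Unit => S j)).dim
      < ∑ j : Fin d, δ / d := by
    haveI : Nonempty (Fin d) := ⟨⟨0, hd⟩⟩
    exact Finset.sum_lt_sum_of_nonempty Finset.univ_nonempty
      fun j _ => hcon _ _ (le_chain H S j)
  rw [Finset.sum_const, Finset.card_univ, Fintype.card_fin, nsmul_eq_mul,
    mul_div_cancel₀ _ (by positivity)] at h3
  linarith

end Forest46876
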