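import Pool.Agent.Lib.MP_46876e_al.CostMesh

/-!
# Cost of a measured equivalence relation, and forest families of large mass
-/

namespace Pool.Agent.Forest46876e

open MeasureTheory MulOpposite Filter Topology
open scoped ENNReal

variable {G X : Type*} [Group G] [MulAction Gᵐᵒᵖ X]

theorem reachable_of_mem {E : G → Set X} {g : G} {x : X} (hx : x ∈ E g) :
    (edgeGraph E).Reachable x (op g • x) := by
  by_cases h : x = op g • x
  · rw [← h]
  · refine SimpleGraph.Adj.reachable ?_
    rw [edgeGraph, SimpleGraph.fromRel_adj]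
    exact ⟨h, Or.inl ⟨g, hx, rfl⟩⟩

theorem edgeGraph_mono {E E' : G → Set X} (h : ∀ g, E g ⊆ E' g) : edgeGraph E ≤ edgeGraph E' := by
  intro x y hxy
  rw [edgeGraph, SimpleGraph.fromRel_adj] at hxy ⊢
  refine ⟨hxy.1, ?_⟩
  rcases hxy.2 with ⟨g, hg, hy⟩ | ⟨g, hg, hy⟩
  · exact Or.inl ⟨g, h g hg, hy⟩
  · exact Or.inr ⟨g, h g hg, hy⟩

theorem Bridges.mono {H : Subgroup G} {s : G} {B B' : Set X} (h : Bridges H s B) (hB : B' ⊆ B) :
    Bridges H s B' := by
  intro y hy
  obtain ⟨φ, h1, h2, h3⟩ := h y (hB hy)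
  exact ⟨φ, h1, fun z hz => h2 z (hB hz), h3⟩

/-- If all edges of `K` in the orbit of `x` are joined by `K'`, then `K`-connections from `x` are
`K'`-connections. -/
theorem conn_trans {ι κ : Type*} {H H' : Subgroup G} {s : ι → G} {K : Set (X × ι)} {s' : κ → G}
    {K' : Set (X × κ)} {x y : X}
    (hH : ∀ w : G, ∀ c ∈ H, conn H' s' K' (op w • x) (op c • op w • x))
    (hK : ∀ e ∈ K, ∀ w : G, e.1 = op w • x → conn H' s' K' e.1 (op (s e.2) • e.1))
    (h : conn H s K x y) : conn H' s' K' x y := by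
  let φ : X → Prop := fun z => (∃ w : G, z = op w • x) ∧ conn H' s' K' x z
  have h1 : ∀ z, ∀ c ∈ H, (φ (op c • z) ↔ φ z) := by
    intro z c hc
    constructor
    · rintro ⟨⟨w, hw⟩, hz⟩
      have hz' : z = op (w * c⁻¹) • x := by
        rw [amp_mul, ← hw, ← amp_mul]; simp
      refine ⟨⟨_, hz'⟩, ?_⟩
      have h2 := hH (w * c⁻¹) c hc
      rw [← hz'] at h2
      exact Relation.EqvGen.trans _ _ _ hz (Relation.EqvGen.symm _ _ h2)
    · rintro ⟨⟨w, rfl⟩, hz⟩
      exact ⟨⟨w * c, by rw [amp_mul]⟩, Relation.EqvGen.trans _ _ _ hz (hH w c hc)⟩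
  have h2 : ∀ e ∈ K, (φ (op (s e.2) • e.1) ↔ φ e.1) := by
    intro e he
    constructor
    · rintro ⟨⟨w, hw⟩, hz⟩
      have hz' : e.1 = op (w * (s e.2)⁻¹) • x := by
        rw [amp_mul, ← hw, ← amp_mul]; simp
      exact ⟨⟨_, hz'⟩, Relation.EqvGen.trans _ _ _ hz
        (Relation.EqvGen.symm _ _ (hK e he _ hz'))⟩
    · rintro ⟨⟨w, hw⟩, hz⟩
      exact ⟨⟨w * s e.2, by rw [amp_mul, hw]⟩,
        Relation.EqvGen.trans _ _ _ hz (hK e he w hw)⟩
  have h3 := h.inv h1 h2
  exact (h3.mp ⟨⟨1, by simp⟩, Relation.EqvGen.refl _⟩).2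

section Measure

variable [Countable G] [MeasurableSpace X]

/-- A graphing of the orbit relation of `H`, and sets `B j` which generate `R` with it. -/
theorem cost_le_of_conn {J : Type*} [Countable J] (μ : Measure X)
    (hmp : ∀ g : G, MeasurePreserving (fun x : X => op g • x) μ μ)
    (hfree : ∀ᵐ x ∂μ, x ∈ freePts G X) (H : Subgroup G) (R : Setoid X)
    (hHR : ∀ x, ∀ c ∈ H, R x (op c • x)) (s : J → G) (B : J → Set X)
    (hB : ∀ j, MeasurableSet (B j)) (hBR : ∀ j, ∀ x ∈ B j, R x (op (s j) • x))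
    (hconn : ∀ x ∈ freePts G X, ∀ y, R x y → conn H s {e | e.1 ∈ B e.2} x y) :
    cost G μ R ≤ cost G μ (clsSetoid X H) + ∑' j, μ (B j) := by
  conv_rhs => rw [cost]
  simp only [ENNReal.iInf_add]
  refine le_iInf₂ fun EH hEH => ?_
  let E : G → Set X := fun g => EH g ∪ ⋃ j : {j : J // s j = g}, B j
  have hEHE : edgeGraph EH ≤ edgeGraph E := edgeGraph_mono fun g => Set.subset_union_left
  have hE : IsGraphing μ R E := by
    refine ⟨fun g => (hEH.meas g).union (MeasurableSet.iUnion fun j => hB j), ?_, ?_⟩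
    · rintro g x (hx | hx)
      · obtain ⟨c, hc, hxc⟩ := hEH.sub g x hx
        rw [hxc]
        exact hHR x c hc
      · obtain ⟨⟨j, rfl⟩, hj⟩ := Set.mem_iUnion.mp hx
        exact hBR j x hj
    · have h1 : ∀ᵐ x ∂μ, ∀ w : G, ∀ y, clsSetoid X H (op w • x) y →
          (edgeGraph EH).Reachable (op w • x) y := by
        rw [ae_all_iff]
        intro w
        exact (hmp w).quasiMeasurePreserving.ae hEH.gen
      filter_upwards [h1, hfree] with x hx hxf y hy
      have hc := hconn x hxf y hy
      let φ : X → Prop := fun z => (∃ w : G, z = op w • x) ∧ (edgeGraph E).Reachable x z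
      have hH : ∀ w : G, ∀ c ∈ H, (edgeGraph E).Reachable (op w • x) (op c • op w • x) :=
        fun w c hc => (hx w _ ⟨c, hc, rfl⟩).mono hEHE
      have h2 : ∀ z, ∀ c ∈ H, (φ (op c • z) ↔ φ z) := by
        intro z c hc
        constructor
        · rintro ⟨⟨w, hw⟩, hz⟩
          have hz' : z = op (w * c⁻¹) • x := by
            rw [amp_mul, ← hw, ← amp_mul]; simp
          refine ⟨⟨_, hz'⟩, ?_⟩
          have h2 := hH (w * c⁻¹) c hc
          rw [← hz'] at h2
          exact hz.trans h2.symm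
        · rintro ⟨⟨w, rfl⟩, hz⟩
          exact ⟨⟨w * c, by rw [amp_mul]⟩, hz.trans (hH w c hc)⟩
      have h3 : ∀ e ∈ {e : X × J | e.1 ∈ B e.2}, (φ (op (s e.2) • e.1) ↔ φ e.1) := by
        intro e he
        have he' : e.1 ∈ E (s e.2) := Or.inr (Set.mem_iUnion.mpr ⟨⟨e.2, rfl⟩, he⟩)
        have hr := reachable_of_mem he'
        constructor
        · rintro ⟨⟨w, hw⟩, hz⟩
          have hz' : e.1 = op (w * (s e.2)⁻¹) • x := by
            rw [amp_mul, ← hw, ← amp_mul]; simp
          exact ⟨⟨_, hz'⟩, hz.trans hr.symm⟩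
        · rintro ⟨⟨w, hw⟩, hz⟩
          exact ⟨⟨w * s e.2, by rw [amp_mul, hw]⟩, hz.trans hr⟩
      exact ((hc.inv h2 h3).mp ⟨⟨1, by simp⟩, SimpleGraph.Reachable.refl _⟩).2
  refine (iInf₂_le E hE).trans ?_
  calc ∑' g, μ (E g) ≤ ∑' g, (μ (EH g) + ∑' j : {j : J // s j = g}, μ (B j)) := by
        refine ENNReal.tsum_le_tsum fun g => ?_
        refine (measure_union_le _ _).trans ?_
        gcongr
        exact measure_iUnion_le _
    _ = ∑' g, μ (EH g) + ∑' g, ∑' j : {j : J // s j = g}, μ (B j) := ENNReal.tsum_add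
    _ = ∑' g, μ (EH g) + ∑' j, μ (B j) := by
        congr 1
        rw [← ENNReal.tsum_sigma' (fun p : (Σ g : G, {j : J // s j = g}) => μ (B p.2))]
        exact (Equiv.sigmaFiberEquiv s).tsum_eq (fun j => μ (B j))

variable [StandardBorelSpace X]

/-- Injective labels in `[0, 8]`, which are below `4` exactly on the sets `E i`. -/
theorem exists_label {ι : Type*} [Countable ι] (E : ι → Set X) (hE : ∀ i, MeasurableSet (E i)) :
    ∃ ψ : X × ι → ℝ, Function.Injective ψ ∧ (∀ i, Measurable fun x => ψ (x, i)) ∧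
      (∀ e, 0 ≤ ψ e) ∧ ∀ x i, (ψ (x, i) < 4 ↔ x ∈ E i) := by
  classical
  let _ : MeasurableSpace ι := ⊤
  have : DiscreteMeasurableSpace ι := ⟨fun _ => trivial⟩
  obtain ⟨f, hf⟩ := exists_measurableEmbedding_real (X × ι)
  have hb : ∀ r : ℝ, 0 < Real.arctan r + 2 ∧ Real.arctan r + 2 < 4 := by
    intro r
    have h1 := Real.neg_pi_div_two_lt_arctan r
    have h2 := Real.arctan_lt_pi_div_two r
    have h3 := Real.pi_lt_four
    constructor <;> linarith
  refine ⟨fun e => Real.arctan (f e) + 2 + if e.1 ∈ E e.2 then 0 else 4, ?_, ?_, ?_, ?_⟩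
  · intro e e' h
    simp only at h
    have hbe := hb (f e)
    have hbe' := hb (f e')
    have : Real.arctan (f e) = Real.arctan (f e') := by
      by_cases h1 : e.1 ∈ E e.2 <;> by_cases h2 : e'.1 ∈ E e'.2
      · rw [if_pos h1, if_pos h2] at h; linarith
      · rw [if_pos h1, if_neg h2] at h; linarith
      · rw [if_neg h1, if_pos h2] at h; linarith
      · rw [if_neg h1, if_neg h2] at h; linarith
    exact hf.injective (Real.arctan_injective this)
  · intro i
    refine Measurable.add ?_ ?_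
    · exact (Real.continuous_arctan.measurable.comp (hf.measurable.comp measurable_prodMk_right)).add
        measurable_const
    · exact Measurable.ite (hE i) measurable_const measurable_const
  · intro e
    have hbe := hb (f e)
    by_cases h1 : e.1 ∈ E e.2
    · simp only [if_pos h1]; linarith
    · simp only [if_neg h1]; linarith
  · intro x i
    have hbe := hb (f (x, i))
    by_cases h1 : x ∈ E i
    · simp only [h1, iff_true, if_true]; linarith
    · simp only [h1, iff_false, if_false]; linarith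

/-- The key step: bridges `F i` modulo `H`, inside given sets `E i`, and generating sets `B i`
whose total measure is almost the total measure of the `F i`. -/
theorem exists_step {ι : Type*} [Fintype ι] (μ : Measure X) [IsProbabilityMeasure μ]
    (hm : ∀ g : G, Measurable fun x : X => op g • x) (H : Subgroup G) (s : ι → G)
    (E : ι → Set X) (hE : ∀ i, MeasurableSet (E i)) :
    ∃ F : ι → Set X, (∀ i, MeasurableSet (F i)) ∧ (∀ i, F i ⊆ freePts G X) ∧
      (∀ i, Bridges H (s i) (F i)) ∧ ∀ ε : ℝ≥0∞, ε ≠ 0 →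
      ∃ B : ι → Set X, (∀ i, MeasurableSet (B i)) ∧ (∀ i, B i ⊆ E i) ∧
        ∑ i, μ (B i) ≤ ∑ i, μ (F i) + ε ∧
        ∀ x ∈ freePts G X, ∀ i, x ∈ E i → conn H s {e | e.1 ∈ B e.2} x (op (s i) • x) := by
  obtain ⟨ψ, hinj, hψm, hψ0, hψE⟩ := exists_label E hE
  refine ⟨fun i => freeEdges (X := X) H s ψ i ∩ {x | ψ (x, i) < 4}, fun i => ?_, fun i => ?_,
    fun i => (bridges_freeEdges hinj i).mono Set.inter_subset_left, fun ε hε => ?_⟩
  · exact (measurableSet_freeEdges hm H s hψm i).inter (measurableSet_lt (hψm i) measurable_const)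
  · rintro x ⟨hx, -⟩
    exact hx.1
  · obtain ⟨B, h1, h2, h3, h4⟩ := exists_mesh μ hm H s hψm hψ0 4 hε
    refine ⟨B, h1, fun i x hx => (hψE x i).mp (h2 i x hx), h3, fun x hx i hxi => ?_⟩
    exact h4 x hx i ((hψE x i).mpr hxi)

/-- An infinite subgroup `H` and a subrelation of larger cost than the orbit relation of `H`. -/
theorem forest_of_cost_lt (μ : Measure X) [IsProbabilityMeasure μ]
    (hmp : ∀ g : G, MeasurePreserving (fun x : X => op g • x) μ μ)
    (hfree : ∀ᵐ x ∂μ, x ∈ freePts G X) (H : Subgroup G) [Infinite H] (R : Setoid X)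
    (hRm : ∀ g : G, MeasurableSet {x : X | R x (op g • x)})
    (hRG : ∀ x y, R x y → ∃ g : G, y = op g • x) (hHR : ∀ x, ∀ c ∈ H, R x (op c • x))
    (hlt : cost G μ (clsSetoid X H) < cost G μ R) :
    ∃ A : G → Set X, IsForestFamily A ∧ ∑' g, μ (A g) ^ 2 = ⊤ := by
  classical
  have hm : ∀ g : G, Measurable fun x : X => op g • x := fun g => (hmp g).measurable
  obtain ⟨e, he⟩ := exists_surjective_nat G
  choose F hFm hFf hFb hF using fun k : ℕ => exists_step (X := X) μ hm H (fun i : Fin k => e i)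
    (fun i : Fin k => {x : X | R x (op (e i) • x)}) (fun i => hRm _)
  have hex : ∃ k, ∃ i : Fin k, μ (F k i) ≠ 0 := by
    by_contra hcon
    push Not at hcon
    apply absurd hlt
    rw [not_lt]
    refine ENNReal.le_of_forall_pos_le_add fun ε hε _ => ?_
    obtain ⟨δ, hδ, hδε⟩ := ENNReal.exists_pos_sum_of_countable'
      (ENNReal.coe_ne_zero.mpr hε.ne') ℕ
    choose B hBm hBE hBsum hBconn using fun k : ℕ => hF k (δ k) (hδ k).ne'
    have h1 := cost_le_of_conn (J := Σ k : ℕ, Fin k) μ hmp hfree H R hHR (fun p => e p.2)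
      (fun p => B p.1 p.2) (fun p => hBm p.1 p.2) (fun p x hx => hBE p.1 p.2 hx) ?_
    · refine h1.trans ?_
      gcongr
      rw [ENNReal.tsum_sigma' (fun p : (Σ k : ℕ, Fin k) => μ (B p.1 p.2))]
      refine le_trans (ENNReal.tsum_le_tsum fun k => ?_) hδε.le
      rw [tsum_fintype]
      refine (hBsum k).trans ?_
      rw [Finset.sum_eq_zero fun i _ => hcon k i, zero_add]
    · intro x hx y hy
      obtain ⟨g, rfl⟩ := hRG x y hy
      obtain ⟨i, rfl⟩ := he g
      have h2 := hBconn (i + 1) x hx (Fin.last i) hy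
      refine conn_trans (fun w c hc => conn_smul hc) ?_ h2
      intro e' he' w _
      exact conn_edge (K := {p : X × (Σ k : ℕ, Fin k) | p.1 ∈ B p.2.1 p.2.2})
        (s := fun p : (Σ k : ℕ, Fin k) => e p.2) (e := (e'.1, ⟨i + 1, e'.2⟩)) he'
  obtain ⟨k, i, hki⟩ := hex
  obtain ⟨A, hA, hmass⟩ := exists_forest_of_bridges μ H hm (fun g _ => hmp g) (e i) (F k i)
    (hFm k i) (fun x hx g hg => hFf k i hx g hg) (hFb k i)
  refine ⟨A, hA, ?_⟩
  rw [eq_top_iff]
  refine le_trans ?_ hmass
  rw [ENat.card_eq_top_of_infinite]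
  simp only [ENat.toENNReal_top]
  rw [ENNReal.top_mul (pow_ne_zero 2 hki)]

omit [Countable G] [MeasurableSpace X] [StandardBorelSpace X] in
/-- Connections generated by a subgroup and finitely many elements. -/
theorem conn_closure {ι : Type*} {H : Subgroup G} {s : ι → G} {B : ι → Set X}
    (hB : ∀ x ∈ freePts G X, ∀ i, conn H s {e | e.1 ∈ B e.2} x (op (s i) • x)) {g : G}
    (hg : g ∈ Subgroup.closure ((H : Set G) ∪ Set.range s)) :
    ∀ x ∈ freePts G X, conn H s {e | e.1 ∈ B e.2} x (op g • x) := by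
  induction hg using Subgroup.closure_induction with
  | mem g hg =>
    intro x hx
    rcases hg with hg | ⟨i, rfl⟩
    · exact conn_smul hg
    · exact hB x hx i
  | one =>
    intro x _
    simp only [op_one, one_smul]
    exact Relation.EqvGen.refl _
  | mul a b _ _ iha ihb =>
    intro x hx
    rw [amp_mul]
    exact Relation.EqvGen.trans _ _ _ (iha x hx) (ihb _ (freePts_smul hx a))
  | inv a _ iha =>
    intro x hx
    have h1 := iha _ (freePts_smul hx a⁻¹)
    rw [← amp_mul, inv_mul_cancel, op_one, one_smul] at h1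
    exact Relation.EqvGen.symm _ _ h1

theorem cost_closure_le {ι : Type*} [Fintype ι] (μ : Measure X) [IsProbabilityMeasure μ]
    (hmp : ∀ g : G, MeasurePreserving (fun x : X => op g • x) μ μ)
    (hfree : ∀ᵐ x ∂μ, x ∈ freePts G X) (H : Subgroup G) (s : ι → G) (B : ι → Set X)
    (hBm : ∀ i, MeasurableSet (B i))
    (hB : ∀ x ∈ freePts G X, ∀ i, conn H s {e | e.1 ∈ B e.2} x (op (s i) • x)) :
    cost G μ (clsSetoid X (Subgroup.closure ((H : Set G) ∪ Set.range s))) ≤
      cost G μ (clsSetoid X H) + ∑ i, μ (B i) := by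
  refine (cost_le_of_conn μ hmp hfree H _ ?_ s B hBm ?_ ?_).trans
    (by rw [tsum_fintype])
  · intro x c hc
    exact ⟨c, Subgroup.subset_closure (Or.inl hc), rfl⟩
  · intro j x _
    exact ⟨s j, Subgroup.subset_closure (Or.inr ⟨j, rfl⟩), rfl⟩
  · rintro x hx y ⟨g, hg, rfl⟩
    exact conn_closure hB hg x hx

omit [Countable G] [StandardBorelSpace X] in
theorem cost_bot (μ : Measure X) : cost G μ (clsSetoid X (⊥ : Subgroup G)) = 0 := by
  rw [← nonpos_iff_eq_zero]
  refine (iInf₂_le (fun _ => ∅) ?_).trans ?_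
  · refine ⟨fun _ => MeasurableSet.empty, fun _ x hx => absurd hx (Set.notMem_empty x),
      Eventually.of_forall ?_⟩
    rintro x y ⟨c, hc, rfl⟩
    rw [Subgroup.mem_bot] at hc
    rw [hc, op_one, one_smul]
  · simp

/-- Adding one generator costs at most one. -/
theorem cost_insert_le (μ : Measure X) [IsProbabilityMeasure μ]
    (hmp : ∀ g : G, MeasurePreserving (fun x : X => op g • x) μ μ)
    (hfree : ∀ᵐ x ∂μ, x ∈ freePts G X) (H : Subgroup G) (g : G) :
    cost G μ (clsSetoid X (Subgroup.closure ((H : Set G) ∪ {g}))) ≤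
      cost G μ (clsSetoid X H) + 1 := by
  have h := cost_closure_le (ι := Unit) μ hmp hfree H (fun _ => g) (fun _ => Set.univ)
    (fun _ => MeasurableSet.univ) (fun x _ i => conn_edge (e := (x, i)) (Set.mem_univ _))
  simpa using h

/-- A subgroup generated by `d` elements has cost at most `d`. -/
theorem cost_ne_top (μ : Measure X) [IsProbabilityMeasure μ]
    (hmp : ∀ g : G, MeasurePreserving (fun x : X => op g • x) μ μ)
    (hfree : ∀ᵐ x ∂μ, x ∈ freePts G X) (S : Finset G) :
    cost G μ (clsSetoid X (Subgroup.closure (S : Set G))) ≠ ⊤ := by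
  have h := cost_closure_le (ι := S) μ hmp hfree ⊥ (fun i => (i : G)) (fun _ => Set.univ)
    (fun _ => MeasurableSet.univ) (fun x _ i => conn_edge (e := (x, i)) (Set.mem_univ _))
  have h2 : Subgroup.closure (((⊥ : Subgroup G) : Set G) ∪ Set.range fun i : S => (i : G)) =
      Subgroup.closure (S : Set G) := by
    rw [Subgroup.closure_union, Subgroup.closure_eq, bot_sup_eq]
    congr 1
    ext x
    simp
  rw [h2, cost_bot, zero_add] at h
  refine ne_top_of_le_ne_top ?_ h
  exact (ENNReal.sum_lt_top.mpr fun i _ => measure_lt_top μ _).ne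

/-- Subgroups `H` of arbitrarily large order such that `cost H + c ≤ cost ⟨H, S⟩`, for a fixed
finite set `S`. -/
theorem forest_of_cost_add_le (μ : Measure X) [IsProbabilityMeasure μ]
    (hmp : ∀ g : G, MeasurePreserving (fun x : X => op g • x) μ μ)
    (hfree : ∀ᵐ x ∂μ, x ∈ freePts G X) (S : Finset G) {c : ℝ≥0∞} (hc : c ≠ 0)
    (hH : ∀ n : ℕ, ∃ H : Subgroup G, (n : ℕ∞) ≤ ENat.card H ∧ cost G μ (clsSetoid X H) < ⊤ ∧
      cost G μ (clsSetoid X H) + c ≤
        cost G μ (clsSetoid X (Subgroup.closure ((H : Set G) ∪ (S : Set G)))))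
    (N : ℝ≥0∞) (hN : N ≠ ⊤) :
    ∃ A : G → Set X, IsForestFamily A ∧ N < ∑' g, μ (A g) ^ 2 := by
  classical
  have hm : ∀ g : G, Measurable fun x : X => op g • x := fun g => (hmp g).measurable
  set d : ℝ≥0∞ := ((Finset.univ : Finset S).card : ℝ≥0∞) with hd
  have hdtop : d ≠ ⊤ := ENNReal.natCast_ne_top _
  have hcd : (c / d) ^ 2 ≠ 0 := pow_ne_zero 2 (ENNReal.div_ne_zero.mpr ⟨hc, hdtop⟩)
  obtain ⟨n, hn⟩ := ENNReal.exists_nat_mul_gt hcd hN
  obtain ⟨H, hcard, hHfin, hcost⟩ := hH n
  obtain ⟨F, hFm, hFf, hFb, hF⟩ := exists_step (X := X) μ hm H (fun i : S => (i : G))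
    (fun _ => Set.univ) (fun _ => MeasurableSet.univ)
  have hrange : (Set.range fun i : S => (i : G)) = (S : Set G) := by
    ext x
    simp
  have h1 : cost G μ (clsSetoid X (Subgroup.closure ((H : Set G) ∪ (S : Set G)))) ≤
      cost G μ (clsSetoid X H) + ∑ i, μ (F i) := by
    refine ENNReal.le_of_forall_pos_le_add fun ε hε _ => ?_
    obtain ⟨B, hBm, -, hBsum, hBconn⟩ := hF ε (ENNReal.coe_ne_zero.mpr hε.ne')
    have h2 := cost_closure_le μ hmp hfree H (fun i : S => (i : G)) B hBm
      (fun x hx i => hBconn x hx i (Set.mem_univ _))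
    rw [hrange] at h2
    rw [add_assoc]
    exact h2.trans (add_le_add_right hBsum _)
  have h2 : c ≤ ∑ i, μ (F i) := (ENNReal.add_le_add_iff_left hHfin.ne).mp (hcost.trans h1)
  have hne : (Finset.univ : Finset S).Nonempty := by
    by_contra hcon
    rw [Finset.not_nonempty_iff_eq_empty] at hcon
    rw [hcon, Finset.sum_empty] at h2
    exact hc (nonpos_iff_eq_zero.mp h2)
  obtain ⟨i, -, hi⟩ := Finset.exists_max_image Finset.univ (fun i => μ (F i)) hne
  have h3 : c / d ≤ μ (F i) := by
    refine ENNReal.div_le_of_le_mul' ?_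
    refine h2.trans ?_
    have := Finset.sum_le_card_nsmul Finset.univ (fun i => μ (F i)) (μ (F i)) hi
    rwa [nsmul_eq_mul] at this
  obtain ⟨A, hA, hmass⟩ := exists_forest_of_bridges μ H hm (fun g _ => hmp g) (i : G) (F i)
    (hFm i) (fun x hx g hg => hFf i hx g hg) (hFb i)
  refine ⟨A, hA, hn.trans_le (le_trans ?_ hmass)⟩
  gcongr
  have : ((n : ℕ∞) : ℝ≥0∞) ≤ (ENat.card H : ℝ≥0∞) := ENat.toENNReal_le.mpr hcard
  simpa using this

/-- The orbit relation of a finite subgroup has cost less than one. -/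
theorem cost_lt_one (μ : Measure X) [IsProbabilityMeasure μ]
    (hmp : ∀ g : G, MeasurePreserving (fun x : X => op g • x) μ μ)
    (hfree : ∀ᵐ x ∂μ, x ∈ freePts G X) (K : Subgroup G) [Finite K] :
    cost G μ (clsSetoid X K) < 1 := by
  classical
  have hm : ∀ g : G, Measurable fun x : X => op g • x := fun g => (hmp g).measurable
  obtain ⟨f, hf⟩ := exists_measurableEmbedding_real X
  let D : Set X := {x | ∀ k ∈ K, f x ≤ f (op k • x)}
  have hDm : MeasurableSet D := by
    have : D = ⋂ k : K, {x | f x ≤ f (op (k : G) • x)} := by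
      ext x
      simp [D]
    rw [this]
    exact MeasurableSet.iInter fun k => measurableSet_le hf.measurable
      (hf.measurable.comp (hm k))
  -- every point has a representative in `D`
  have hrep : ∀ x : X, ∃ k ∈ K, op k • x ∈ D := by
    intro x
    obtain ⟨k, hk⟩ := Finite.exists_min fun k : K => f (op (k : G) • x)
    refine ⟨k, k.2, fun k' hk' => ?_⟩
    rw [← amp_mul]
    exact hk ⟨(k : G) * k', K.mul_mem k.2 hk'⟩
  have huniq : ∀ x : X, ∀ k ∈ K, ∀ k' ∈ K, op k • x ∈ D → op k' • x ∈ D →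
      op k • x = op k' • x := by
    intro x k hk k' hk' h1 h2
    apply hf.injective
    apply le_antisymm
    · have := h1 (k⁻¹ * k') (K.mul_mem (K.inv_mem hk) hk')
      rwa [← amp_mul, mul_inv_cancel_left] at this
    · have := h2 (k'⁻¹ * k) (K.mul_mem (K.inv_mem hk') hk)
      rwa [← amp_mul, mul_inv_cancel_left] at this
  have hDpos : μ D ≠ 0 := by
    intro h0
    have h1 : (Set.univ : Set X) ⊆ ⋃ k : K, (fun x : X => op (k : G) • x) ⁻¹' D := by
      intro x _
      obtain ⟨k, hk, hx⟩ := hrep x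
      exact Set.mem_iUnion.mpr ⟨⟨k, hk⟩, hx⟩
    have h2 : μ (⋃ k : K, (fun x : X => op (k : G) • x) ⁻¹' D) = 0 := by
      rw [measure_iUnion_null_iff]
      intro k
      rw [(hmp k).measure_preimage hDm.nullMeasurableSet, h0]
    have h3 := measure_mono (μ := μ) h1
    rw [h2, measure_univ] at h3
    exact absurd h3 (by simp)
  let E : G → Set X := fun g => {x | g ∈ K ∧ x ∈ freePts G X ∧ x ∉ D ∧ op g • x ∈ D}
  have hEm : ∀ g, MeasurableSet (E g) := by
    intro g
    by_cases hg : g ∈ K
    · have : E g = freePts G X ∩ (Dᶜ ∩ (fun x : X => op g • x) ⁻¹' D) := by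
        ext x
        simp only [E, hg, true_and, Set.mem_ofPred_eq, Set.mem_inter_iff, Set.mem_compl_iff,
          Set.mem_preimage]
      rw [this]
      exact (measurableSet_freePts hm).inter (hDm.compl.inter (hm g hDm))
    · have : E g = ∅ := by
        ext x
        simp only [E, hg, false_and, Set.mem_ofPred_eq, Set.mem_empty_iff_false]
      rw [this]
      exact MeasurableSet.empty
  have hE : IsGraphing μ (clsSetoid X K) E := by
    refine ⟨hEm, fun g x hx => ⟨g, hx.1, rfl⟩, ?_⟩
    filter_upwards [hfree] with x hx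
    have key : ∀ y ∈ freePts G X, ∀ k ∈ K, op k • y ∈ D →
        (edgeGraph E).Reachable y (op k • y) := by
      intro y hy k hk hky
      by_cases hyD : y ∈ D
      · have h1 := huniq y 1 K.one_mem k hk (by rw [op_one, one_smul]; exact hyD) hky
        rw [op_one, one_smul] at h1
        rw [← h1]
      · exact reachable_of_mem (E := E) ⟨hk, hy, hyD, hky⟩
    rintro y ⟨c, hc, rfl⟩
    obtain ⟨k, hk, hxk⟩ := hrep x
    have h1 := key x hx k hk hxk
    have h2 : op (c⁻¹ * k) • op c • x = op k • x := by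
      rw [← amp_mul, mul_inv_cancel_left]
    have h3 := key (op c • x) (freePts_smul hx c) (c⁻¹ * k) (K.mul_mem (K.inv_mem hc) hk)
      (by rw [h2]; exact hxk)
    rw [h2] at h3
    exact h1.trans h3.symm
  refine (iInf₂_le E hE).trans_lt ?_
  have hdisj : Pairwise (Function.onFun Disjoint E) := by
    intro a b hab
    rw [Function.onFun, Set.disjoint_left]
    intro x hxa hxb
    apply hab
    have h1 := huniq x a hxa.1 b hxb.1 hxa.2.2.2 hxb.2.2.2
    by_contra hne
    apply hxa.2.1 (a * b⁻¹) (fun h' => hne (mul_inv_eq_one.mp h'))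
    rw [amp_mul, h1, ← amp_mul]
    simp
  rw [← measure_iUnion hdisj hEm]
  have hsub : (⋃ g, E g) ⊆ Dᶜ := by
    intro x hx
    obtain ⟨g, hg⟩ := Set.mem_iUnion.mp hx
    exact hg.2.2.1
  refine (measure_mono hsub).trans_lt ?_
  rw [prob_compl_eq_one_sub hDm]
  exact ENNReal.sub_lt_self ENNReal.one_ne_top one_ne_zero hDpos

/-- The orbit relation of a cyclic subgroup has cost at most one. -/
theorem cost_zpowers_le (μ : Measure X) [IsProbabilityMeasure μ]
    (hmp : ∀ g : G, MeasurePreserving (fun x : X => op g • x) μ μ)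
    (hfree : ∀ᵐ x ∂μ, x ∈ freePts G X) (g : G) :
    cost G μ (clsSetoid X (Subgroup.zpowers g)) ≤ 1 := by
  have h := cost_insert_le μ hmp hfree ⊥ g
  rw [cost_bot, zero_add, Subgroup.closure_union, Subgroup.closure_eq, bot_sup_eq,
    ← Subgroup.zpowers_eq_closure] at h
  exact h

omit [Countable G] [MeasurableSpace X] [StandardBorelSpace X] in
/-- An infinite finitely generated group contains an infinite subgroup generated by a finite
subgroup and one element. -/
theorem exists_finite_insert [DecidableEq G] (S : Finset G) :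
    Finite (Subgroup.closure (S : Set G)) ∨ ∃ (K : Subgroup G) (g : G), Finite K ∧
      Infinite (Subgroup.closure ((K : Set G) ∪ {g})) ∧
      Subgroup.closure ((K : Set G) ∪ {g}) ≤ Subgroup.closure (S : Set G) := by
  induction S using Finset.induction_on with
  | empty =>
    left
    rw [Finset.coe_empty, Subgroup.closure_empty]
    infer_instance
  | insert g S _ ih =>
    rcases ih with ih | ⟨K, g', h1, h2, h3⟩
    · have heq : Subgroup.closure (((Subgroup.closure (S : Set G) : Subgroup G) : Set G) ∪ {g}) =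
          Subgroup.closure ((insert g S : Finset G) : Set G) := by
        rw [Subgroup.closure_union, Subgroup.closure_eq, Finset.coe_insert, Set.insert_eq,
          Subgroup.closure_union, sup_comm]
      by_cases hfin : Finite (Subgroup.closure ((insert g S : Finset G) : Set G))
      · exact Or.inl hfin
      · refine Or.inr ⟨Subgroup.closure (S : Set G), g, ih, ?_, heq.le⟩
        rw [heq]
        exact not_finite_iff_infinite.mp hfin
    · refine Or.inr ⟨K, g', h1, h2, h3.trans ?_⟩
      apply Subgroup.closure_mono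
      rw [Finset.coe_insert]
      exact Set.subset_insert _ _

/-- Orbit relations of subgroups as subrelations. -/
theorem forest_of_cost_lt_subgroup (μ : Measure X) [IsProbabilityMeasure μ]
    (hmp : ∀ g : G, MeasurePreserving (fun x : X => op g • x) μ μ)
    (hfree : ∀ᵐ x ∂μ, x ∈ freePts G X) (H L : Subgroup G) [Infinite H] (hHL : H ≤ L)
    (hlt : cost G μ (clsSetoid X H) < cost G μ (clsSetoid X L)) :
    ∃ A : G → Set X, IsForestFamily A ∧ ∑' g, μ (A g) ^ 2 = ⊤ := by
  have hm : ∀ g : G, Measurable fun x : X => op g • x := fun g => (hmp g).measurable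
  refine forest_of_cost_lt μ hmp hfree H (clsSetoid X L) ?_ ?_ ?_ hlt
  · intro g
    have : {x : X | clsSetoid X L x (op g • x)} = ⋃ c : L, {x | op g • x = op (c : G) • x} := by
      ext x
      simp only [Set.mem_ofPred_eq, Set.mem_iUnion]
      constructor
      · rintro ⟨c, hc, h⟩
        exact ⟨⟨c, hc⟩, h⟩
      · rintro ⟨⟨c, hc⟩, h⟩
        exact ⟨c, hc, h⟩
    rw [this]
    exact MeasurableSet.iUnion fun c => measurableSet_eq_fun (hm g) (hm c)
  · rintro x y ⟨c, _, rfl⟩
    exact ⟨c, rfl⟩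
  · exact fun x c hc => ⟨c, hHL hc, rfl⟩

/-- The orbit relation of an increasing union of finite subgroups has cost at most one. -/
theorem cost_iUnion_le_one (μ : Measure X) [IsProbabilityMeasure μ]
    (hmp : ∀ g : G, MeasurePreserving (fun x : X => op g • x) μ μ)
    (hfree : ∀ᵐ x ∂μ, x ∈ freePts G X) (K : ℕ → Subgroup G) (hK0 : K 0 = ⊥) (hK : Monotone K)
    [∀ n, Finite (K n)] (L : Subgroup G) (hL : ∀ g, g ∈ L ↔ ∃ n, g ∈ K n) :
    cost G μ (clsSetoid X L) ≤ 1 := by
  classical
  have hm : ∀ g : G, Measurable fun x : X => op g • x := fun g => (hmp g).measurable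
  obtain ⟨f, hf⟩ := exists_measurableEmbedding_real X
  let D : ℕ → Set X := fun n => {x | ∀ k ∈ K n, f x ≤ f (op k • x)}
  have hDm : ∀ n, MeasurableSet (D n) := by
    intro n
    have : D n = ⋂ k : K n, {x | f x ≤ f (op (k : G) • x)} := by
      ext x
      simp [D]
    rw [this]
    exact MeasurableSet.iInter fun k => measurableSet_le hf.measurable
      (hf.measurable.comp (hm k))
  have hDanti : ∀ {n m : ℕ}, n ≤ m → D m ⊆ D n := fun hnm x hx k hk => hx k (hK hnm hk)
  have hrep : ∀ (n : ℕ) (x : X), ∃ k ∈ K n, op k • x ∈ D n := by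
    intro n x
    obtain ⟨k, hk⟩ := Finite.exists_min fun k : K n => f (op (k : G) • x)
    refine ⟨k, k.2, fun k' hk' => ?_⟩
    rw [← amp_mul]
    exact hk ⟨(k : G) * k', (K n).mul_mem k.2 hk'⟩
  have huniq : ∀ (n : ℕ) (x : X), ∀ k ∈ K n, ∀ k' ∈ K n, op k • x ∈ D n → op k' • x ∈ D n →
      op k • x = op k' • x := by
    intro n x k hk k' hk' h1 h2
    apply hf.injective
    apply le_antisymm
    · have := h1 (k⁻¹ * k') ((K n).mul_mem ((K n).inv_mem hk) hk')
      rwa [← amp_mul, mul_inv_cancel_left] at this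
    · have := h2 (k'⁻¹ * k) ((K n).mul_mem ((K n).inv_mem hk') hk)
      rwa [← amp_mul, mul_inv_cancel_left] at this
  let E : G → Set X := fun g => ⋃ n : ℕ, {x | g ∈ K (n + 1) ∧ x ∈ freePts G X ∧ x ∈ D n ∧
    x ∉ D (n + 1) ∧ op g • x ∈ D (n + 1)}
  have hEmem : ∀ {g : G} {x : X}, x ∈ E g ↔ ∃ n : ℕ, g ∈ K (n + 1) ∧ x ∈ freePts G X ∧ x ∈ D n ∧
    x ∉ D (n + 1) ∧ op g • x ∈ D (n + 1) := by
    intro g x
    simp only [E, Set.mem_iUnion, Set.mem_ofPred_eq]
  have hEm : ∀ g, MeasurableSet (E g) := by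
    intro g
    refine MeasurableSet.iUnion fun n => ?_
    by_cases hg : g ∈ K (n + 1)
    · have : {x | g ∈ K (n + 1) ∧ x ∈ freePts G X ∧ x ∈ D n ∧ x ∉ D (n + 1) ∧
          op g • x ∈ D (n + 1)} = freePts G X ∩ (D n ∩ ((D (n + 1))ᶜ ∩
          (fun x : X => op g • x) ⁻¹' D (n + 1))) := by
        ext x
        simp only [hg, true_and, Set.mem_ofPred_eq, Set.mem_inter_iff, Set.mem_compl_iff,
          Set.mem_preimage]
      rw [this]
      exact (measurableSet_freePts hm).inter ((hDm n).inter ((hDm _).compl.inter (hm g (hDm _))))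
    · have : {x | g ∈ K (n + 1) ∧ x ∈ freePts G X ∧ x ∈ D n ∧ x ∉ D (n + 1) ∧
          op g • x ∈ D (n + 1)} = ∅ := by
        ext x
        simp only [hg, false_and, Set.mem_ofPred_eq, Set.mem_empty_iff_false]
      rw [this]
      exact MeasurableSet.empty
  have hE : IsGraphing μ (clsSetoid X L) E := by
    refine ⟨hEm, ?_, ?_⟩
    · intro g x hx
      obtain ⟨n, hn, -⟩ := hEmem.mp hx
      exact ⟨g, (hL g).mpr ⟨_, hn⟩, rfl⟩
    · filter_upwards [hfree] with x hx
      have key : ∀ n : ℕ, ∀ y ∈ freePts G X, ∀ k ∈ K n, op k • y ∈ D n →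
          (edgeGraph E).Reachable y (op k • y) := by
        intro n
        induction n with
        | zero =>
          intro y _ k hk _
          rw [hK0, Subgroup.mem_bot] at hk
          rw [hk, op_one, one_smul]
        | succ n ih =>
          intro y hy k hk hky
          obtain ⟨k', hk', hk'y⟩ := hrep n y
          have h1 := ih y hy k' hk' hk'y
          refine h1.trans ?_
          have h2 : op (k'⁻¹ * k) • op k' • y = op k • y := by
            rw [← amp_mul, mul_inv_cancel_left]
          have hk'' : k'⁻¹ * k ∈ K (n + 1) :=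
            (K (n + 1)).mul_mem ((K (n + 1)).inv_mem (hK n.le_succ hk')) hk
          by_cases hyD : op k' • y ∈ D (n + 1)
          · have h3 := huniq (n + 1) y k' (hK n.le_succ hk') k hk hyD hky
            rw [h3]
          · rw [← h2]
            refine reachable_of_mem (E := E) (hEmem.mpr ⟨n, hk'', freePts_smul hy k', hk'y, hyD, ?_⟩)
            rw [h2]
            exact hky
      rintro y ⟨c, hc, rfl⟩
      obtain ⟨n, hc⟩ := (hL c).mp hc
      obtain ⟨k, hk, hxk⟩ := hrep n x
      have h1 := key n x hx k hk hxk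
      have h2 : op (c⁻¹ * k) • op c • x = op k • x := by
        rw [← amp_mul, mul_inv_cancel_left]
      have h3 := key n (op c • x) (freePts_smul hx c) (c⁻¹ * k)
        ((K n).mul_mem ((K n).inv_mem hc) hk) (by rw [h2]; exact hxk)
      rw [h2] at h3
      exact h1.trans h3.symm
  refine (iInf₂_le E hE).trans ?_
  have hdisj : Pairwise (Function.onFun Disjoint E) := by
    intro a b hab
    rw [Function.onFun, Set.disjoint_left]
    intro x hxa hxb
    apply hab
    obtain ⟨n, ha1, ha2, ha3, ha4, ha5⟩ := hEmem.mp hxa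
    obtain ⟨m, hb1, hb2, hb3, hb4, hb5⟩ := hEmem.mp hxb
    have hnm : n = m := by
      rcases lt_trichotomy n m with h | h | h
      · exact absurd (hDanti h hb3) ha4
      · exact h
      · exact absurd (hDanti h ha3) hb4
    subst hnm
    have h1 := huniq (n + 1) x a ha1 b hb1 ha5 hb5
    by_contra hne
    apply ha2 (a * b⁻¹) (fun h' => hne (mul_inv_eq_one.mp h'))
    rw [amp_mul, h1, ← amp_mul]
    simp
  rw [← measure_iUnion hdisj hEm]
  exact prob_le_one

/-- A subgroup of cost at least two. -/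
theorem forest_of_two_le_cost (μ : Measure X) [IsProbabilityMeasure μ]
    (hmp : ∀ g : G, MeasurePreserving (fun x : X => op g • x) μ μ)
    (hfree : ∀ᵐ x ∂μ, x ∈ freePts G X) (L : Subgroup G)
    (h2 : 2 ≤ cost G μ (clsSetoid X L)) :
    ∃ A : G → Set X, IsForestFamily A ∧ ∑' g, μ (A g) ^ 2 = ⊤ := by
  classical
  by_cases hfin : ∀ S : Finset G, (S : Set G) ⊆ L → Finite (Subgroup.closure (S : Set G))
  · exfalso
    obtain ⟨e, he⟩ := exists_surjective_nat L
    let S : ℕ → Finset G := fun n => (Finset.range n).image fun i => (e i : G)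
    have hSL : ∀ n, (S n : Set G) ⊆ L := by
      intro n g hg
      rw [Finset.mem_coe, Finset.mem_image] at hg
      obtain ⟨i, -, rfl⟩ := hg
      exact (e i).2
    have hfin' : ∀ n, Finite (Subgroup.closure (S n : Set G)) := fun n => hfin _ (hSL n)
    have h1 := cost_iUnion_le_one μ hmp hfree (fun n => Subgroup.closure (S n : Set G))
      (by simp [S]) (fun n m hnm => Subgroup.closure_mono (Finset.coe_subset.mpr
        (Finset.image_subset_image (Finset.range_subset_range.mpr hnm)))) L ?_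
    · exact absurd (h2.trans h1) (by norm_num)
    · intro g
      constructor
      · intro hg
        obtain ⟨i, hi⟩ := he ⟨g, hg⟩
        refine ⟨i + 1, Subgroup.subset_closure ?_⟩
        rw [Finset.mem_coe, Finset.mem_image]
        exact ⟨i, Finset.mem_range.mpr i.lt_succ_self, by rw [hi]⟩
      · rintro ⟨n, hn⟩
        exact (Subgroup.closure_le L).mpr (hSL n) hn
  · push Not at hfin
    obtain ⟨S, hSL, hS⟩ := hfin
    rcases exists_finite_insert S with hfin | ⟨K, g, hK, hinf, hle⟩
    · exact absurd hfin (not_finite_iff_infinite.mpr hS)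
    · have h1 := cost_lt_one μ hmp hfree K
      have h3 := cost_insert_le μ hmp hfree K g
      have h4 : cost G μ (clsSetoid X (Subgroup.closure ((K : Set G) ∪ {g}))) < 2 := by
        refine h3.trans_lt ?_
        rw [← one_add_one_eq_two]
        exact ENNReal.add_lt_add_right ENNReal.one_ne_top h1
      exact forest_of_cost_lt_subgroup μ hmp hfree _ _
        (hle.trans ((Subgroup.closure_le L).mpr hSL)) (h4.trans_le h2)

end Measure

end Pool.Agent.Forest46876e
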