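import Pool.Agent.Lib.MP_46876e_al.Labels

/-!
# The free minimal spanning forest almost generates: label meshes
-/

namespace Pool.Agent.Forest46876e

open MeasureTheory MulOpposite Filter Topology
open scoped ENNReal

variable {G X ι : Type*} [Group G] [MulAction Gᵐᵒᵖ X]

theorem freePts_smul {x : X} (hx : x ∈ freePts G X) (w : G) : op w • x ∈ freePts G X := by
  intro g hg h
  apply hx (w * g * w⁻¹)
  · intro h1
    apply hg
    have h2 : g = w⁻¹ * (w * g * w⁻¹) * w := by group
    rw [h2, h1]; group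
  · rw [amp_mul, amp_mul, h, ← amp_mul]
    simp

/-- The edges which are not the largest edge of one of the first `n` cycles. -/
def meshF (H : Subgroup G) (s : ι → G) (ψ : X × ι → ℝ) (t : ℝ) (e : Finset (G × ι) → ℕ) (n : ℕ)
    (i : ι) : Set X :=
  {y | y ∈ freePts G X ∧ ψ (y, i) < t ∧ ∀ K : Finset (G × ι), e K < n → Joins H s K i →
    ¬ ∀ p ∈ K, ψ (op p.1 • y, p.2) < ψ (y, i)}

/-- The edges for which another edge of one of the first `n` cycles lies in the same interval of
the mesh `1 / m`. -/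
def meshB (G : Type*) [Group G] [MulAction Gᵐᵒᵖ X] (ψ : X × ι → ℝ) (t : ℝ)
    (P : Finset (G × ι)) (m : ℕ) (i : ι) : Set X :=
  {y | ψ (y, i) < t ∧ ∃ p ∈ P, ψ (op p.1 • y, p.2) < ψ (y, i) ∧
    ⌊(m : ℝ) * ψ (op p.1 • y, p.2)⌋₊ = ⌊(m : ℝ) * ψ (y, i)⌋₊}

theorem mesh_conn {H : Subgroup G} {s : ι → G} {ψ : X × ι → ℝ} {t : ℝ}
    {e : Finset (G × ι) → ℕ} {n : ℕ} {P : Finset (G × ι)} (hP : ∀ K, e K < n → K ⊆ P) {m : ℕ}
    {y : X} (hy : y ∈ freePts G X) (i : ι) (hyt : ψ (y, i) < t) :
    conn H s {e' | e'.1 ∈ meshF H s ψ t e n e'.2 ∪ meshB G ψ t P m e'.2} y (op (s i) • y) := by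
  classical
  obtain ⟨k, hk⟩ : ∃ k, ⌊(m : ℝ) * ψ (y, i)⌋₊ = k := ⟨_, rfl⟩
  induction k using Nat.strong_induction_on generalizing y i with
  | _ k ih =>
    set E : Set (X × ι) := {e' | e'.1 ∈ meshF H s ψ t e n e'.2 ∪ meshB G ψ t P m e'.2} with hE
    by_cases hmem : (y, i) ∈ E
    · exact conn_edge hmem
    · rw [hE, Set.mem_ofPred_eq, Set.mem_union, not_or] at hmem
      obtain ⟨h1, h2⟩ := hmem
      have h3 : ∃ K : Finset (G × ι), e K < n ∧ Joins H s K i ∧
          ∀ p ∈ K, ψ (op p.1 • y, p.2) < ψ (y, i) := by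
        by_contra hcon
        push Not at hcon
        apply h1
        refine ⟨hy, hyt, fun K hK hJ hall => ?_⟩
        obtain ⟨p, hp, hp'⟩ := hcon K hK hJ
        exact absurd (hall p hp) (not_lt.mpr hp')
      obtain ⟨K, hKn, hJ, hK⟩ := h3
      let u : G → ℝ := fun g => if conn H s E y (op g • y) then 1 else 0
      have hu1 : ∀ g, ∀ c ∈ H, u (g * c) = u g := by
        intro g c hc
        simp only [u, amp_mul, conn_inv_H y (op g • y) c hc]
      have hu2 : ∀ p ∈ K, u (p.1 * s p.2) = u p.1 := by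
        intro p hp
        have hlt := hK p hp
        have hfl : ⌊(m : ℝ) * ψ (op p.1 • y, p.2)⌋₊ < k := by
          rw [← hk]
          refine lt_of_le_of_ne ?_ ?_
          · exact Nat.floor_mono (mul_le_mul_of_nonneg_left hlt.le (Nat.cast_nonneg m))
          · intro heq
            exact h2 ⟨hyt, p, hP K hKn hp, hlt, heq⟩
        have hc := ih _ hfl (freePts_smul hy p.1) p.2 (hlt.trans hyt) rfl
        have hiff : conn H s E y (op (p.1 * s p.2) • y) ↔ conn H s E y (op p.1 • y) := by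
          rw [amp_mul]
          constructor
          · intro h
            exact Relation.EqvGen.trans _ _ _ h (Relation.EqvGen.symm _ _ hc)
          · intro h
            exact Relation.EqvGen.trans _ _ _ h hc
        simp only [u, hiff]
      have h4 := hJ u hu1 hu2
      have h5 : u 1 = 1 := by
        simp only [u, op_one, one_smul]
        exact if_pos (Relation.EqvGen.refl _)
      rw [h5] at h4
      by_contra hcon
      simp only [u, if_neg hcon] at h4
      exact one_ne_zero h4.symm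

section Measure

variable [Countable G] [Fintype ι] [MeasurableSpace X] [StandardBorelSpace X]

omit [Fintype ι] in
theorem measurableSet_meshF [Countable ι] (hm : ∀ g : G, Measurable fun x : X => op g • x)
    (H : Subgroup G) (s : ι → G) {ψ : X × ι → ℝ} (hψ : ∀ i, Measurable fun x => ψ (x, i))
    (t : ℝ) (e : Finset (G × ι) → ℕ) (n : ℕ) (i : ι) :
    MeasurableSet (meshF H s ψ t e n i) := by
  have : meshF H s ψ t e n i = freePts G X ∩ ({y | ψ (y, i) < t} ∩
      ⋂ K : {K : Finset (G × ι) // e K < n ∧ Joins H s K i},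
      (⋂ p ∈ (K : Finset (G × ι)), {y : X | ψ (op p.1 • y, p.2) < ψ (y, i)})ᶜ) := by
    ext x
    simp only [meshF, Set.mem_ofPred_eq, Set.mem_inter_iff, Set.mem_iInter, Subtype.forall,
      Set.mem_compl_iff, and_imp]
  rw [this]
  refine (measurableSet_freePts hm).inter ((measurableSet_lt (hψ i) measurable_const).inter
    (MeasurableSet.iInter fun K => ?_))
  refine (Finset.measurableSet_biInter _ fun p _ => ?_).compl
  exact measurableSet_lt ((hψ p.2).comp (hm p.1)) (hψ i)

omit [Fintype ι] [StandardBorelSpace X] [Countable G] in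
theorem measurableSet_meshB (hm : ∀ g : G, Measurable fun x : X => op g • x)
    {ψ : X × ι → ℝ} (hψ : ∀ i, Measurable fun x => ψ (x, i))
    (t : ℝ) (P : Finset (G × ι)) (m : ℕ) (i : ι) :
    MeasurableSet (meshB G ψ t P m i) := by
  have : meshB G ψ t P m i = {y | ψ (y, i) < t} ∩ ⋃ p ∈ P,
      ({y : X | ψ (op p.1 • y, p.2) < ψ (y, i)} ∩
        {y | ⌊(m : ℝ) * ψ (op p.1 • y, p.2)⌋₊ = ⌊(m : ℝ) * ψ (y, i)⌋₊}) := by
    ext x
    simp only [meshB, Set.mem_ofPred_eq, Set.mem_inter_iff, Set.mem_iUnion, exists_prop]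
  rw [this]
  refine (measurableSet_lt (hψ i) measurable_const).inter
    (Finset.measurableSet_biUnion _ fun p _ => ?_)
  refine (measurableSet_lt ((hψ p.2).comp (hm p.1)) (hψ i)).inter ?_
  refine measurableSet_eq_fun ?_ ?_
  · exact (Nat.measurable_floor.comp (measurable_const.mul ((hψ p.2).comp (hm p.1))))
  · exact (Nat.measurable_floor.comp (measurable_const.mul (hψ i)))

theorem floor_eventually_ne {a b : ℝ} (ha : 0 ≤ a) (hab : a < b) :
    ∀ᶠ m : ℕ in atTop, ⌊(m : ℝ) * a⌋₊ ≠ ⌊(m : ℝ) * b⌋₊ := by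
  obtain ⟨N, hN⟩ := exists_nat_gt (1 / (b - a))
  filter_upwards [eventually_ge_atTop N] with m hm
  have h1 : 0 < b - a := sub_pos.mpr hab
  have h2 : 1 / (b - a) < m := lt_of_lt_of_le hN (by exact_mod_cast hm)
  have h3 : 1 < (m : ℝ) * (b - a) := by
    rw [div_lt_iff₀ h1] at h2
    exact h2
  have h4 : (m : ℝ) * a + 1 ≤ m * b := by nlinarith
  have h5 : 0 ≤ (m : ℝ) * a := by positivity
  have h6 : ⌊(m : ℝ) * a + 1⌋₊ ≤ ⌊(m : ℝ) * b⌋₊ := Nat.floor_mono h4
  rw [Nat.floor_add_one h5] at h6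
  omega

/-- The free minimal spanning forest modulo `H`, enlarged by sets of small measure, generates. -/
theorem exists_mesh (μ : Measure X) [IsProbabilityMeasure μ]
    (hm : ∀ g : G, Measurable fun x : X => op g • x) (H : Subgroup G) (s : ι → G)
    {ψ : X × ι → ℝ} (hψm : ∀ i, Measurable fun x => ψ (x, i)) (hψ0 : ∀ e, 0 ≤ ψ e)
    (t : ℝ) {ε : ℝ≥0∞} (hε : ε ≠ 0) :
    ∃ B : ι → Set X, (∀ i, MeasurableSet (B i)) ∧ (∀ i, ∀ x ∈ B i, ψ (x, i) < t) ∧
      ∑ i, μ (B i) ≤ ∑ i, μ (freeEdges (X := X) H s ψ i ∩ {x | ψ (x, i) < t}) + ε ∧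
      ∀ x ∈ freePts G X, ∀ i, ψ (x, i) < t → conn H s {e | e.1 ∈ B e.2} x (op (s i) • x) := by
  classical
  obtain ⟨e, he⟩ := exists_injective_nat (Finset (G × ι))
  set S := ∑ i, μ (freeEdges (X := X) H s ψ i ∩ {x | ψ (x, i) < t}) with hS
  have hSfin : S ≠ ∞ := by
    rw [hS]
    exact (ENNReal.sum_lt_top.mpr fun i _ => measure_lt_top μ _).ne
  -- choose `n`
  have hlim1 : Tendsto (fun n : ℕ => ∑ i, μ (meshF (X := X) H s ψ t e n i)) atTop (𝓝 S) := by
    rw [hS]
    refine tendsto_finsetSum _ fun i _ => ?_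
    refine tendsto_measure_of_tendsto_indicator_of_isFiniteMeasure atTop μ
      (fun n => measurableSet_meshF hm H s hψm t e n i) fun x => ?_
    by_cases hx : x ∈ freeEdges (X := X) H s ψ i ∩ {x | ψ (x, i) < t}
    · refine Eventually.of_forall fun n => ?_
      simp only [hx, iff_true]
      exact ⟨hx.1.1, hx.2, fun K _ hJ => hx.1.2 K hJ⟩
    · simp only [hx, iff_false]
      by_cases hx1 : x ∈ freePts G X
      · by_cases hx2 : ψ (x, i) < t
        · have h3 : ∃ K : Finset (G × ι), Joins H s K i ∧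
              ∀ p ∈ K, ψ (op p.1 • x, p.2) < ψ (x, i) := by
            by_contra hcon
            push Not at hcon
            apply hx
            refine ⟨⟨hx1, fun K hJ hall => ?_⟩, hx2⟩
            obtain ⟨p, hp, hp'⟩ := hcon K hJ
            exact absurd (hall p hp) (not_lt.mpr hp')
          obtain ⟨K, hJ, hK⟩ := h3
          filter_upwards [eventually_gt_atTop (e K)] with n hn
          intro hmem
          exact hmem.2.2 K hn hJ hK
        · exact Eventually.of_forall fun n hmem => hx2 hmem.2.1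
      · exact Eventually.of_forall fun n hmem => hx1 hmem.1
  have hε2 : ε / 2 ≠ 0 := by
    simpa using hε
  obtain ⟨n, hn⟩ := (hlim1.eventually_le_const (ENNReal.lt_add_right hSfin hε2)).exists
  have hfin : {K : Finset (G × ι) | e K < n}.Finite :=
    Set.Finite.preimage he.injOn (Set.finite_lt_nat n)
  let P : Finset (G × ι) := hfin.toFinset.biUnion id
  have hP : ∀ K, e K < n → K ⊆ P := by
    intro K hK p hp
    rw [Finset.mem_biUnion]
    exact ⟨K, by simpa using hK, hp⟩
  -- choose `m`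
  have hlim2 : Tendsto (fun m : ℕ => ∑ i, μ (meshB G ψ t P m i)) atTop (𝓝 0) := by
    have h0 : (0 : ℝ≥0∞) = ∑ i : ι, μ (∅ : Set X) := by simp
    rw [h0]
    refine tendsto_finsetSum _ fun i _ => ?_
    refine tendsto_measure_of_tendsto_indicator_of_isFiniteMeasure atTop μ
      (fun m => measurableSet_meshB hm hψm t P m i) fun x => ?_
    have h1 : ∀ᶠ m : ℕ in atTop, ∀ p ∈ P, ψ (op p.1 • x, p.2) < ψ (x, i) →
        ⌊(m : ℝ) * ψ (op p.1 • x, p.2)⌋₊ ≠ ⌊(m : ℝ) * ψ (x, i)⌋₊ := by
      rw [Filter.eventually_all_finset]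
      intro p _
      by_cases hlt : ψ (op p.1 • x, p.2) < ψ (x, i)
      · filter_upwards [floor_eventually_ne (hψ0 _) hlt] with m hm' _
        exact hm'
      · exact Eventually.of_forall fun m h => absurd h hlt
    filter_upwards [h1] with m hm1
    simp only [Set.mem_empty_iff_false, iff_false]
    rintro ⟨-, p, hp, hlt, heq⟩
    exact hm1 p hp hlt heq
  obtain ⟨m, hm'⟩ := (hlim2.eventually_le_const (pos_iff_ne_zero.mpr hε2)).exists
  refine ⟨fun i => meshF H s ψ t e n i ∪ meshB G ψ t P m i, fun i => ?_, ?_, ?_, ?_⟩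
  · exact (measurableSet_meshF hm H s hψm t e n i).union (measurableSet_meshB hm hψm t P m i)
  · rintro i x (hx | hx)
    · exact hx.2.1
    · exact hx.1
  · calc ∑ i, μ (meshF H s ψ t e n i ∪ meshB G ψ t P m i)
        ≤ ∑ i, (μ (meshF H s ψ t e n i) + μ (meshB G ψ t P m i)) :=
          Finset.sum_le_sum fun i _ => measure_union_le _ _
      _ = ∑ i, μ (meshF (X := X) H s ψ t e n i) + ∑ i, μ (meshB G ψ t P m i) :=
          Finset.sum_add_distrib
      _ ≤ (S + ε / 2) + ε / 2 := add_le_add hn hm'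
      _ = S + ε := by rw [add_assoc, ENNReal.add_halves]
  · intro x hx i hxt
    exact mesh_conn hP hx i hxt

end Measure

end Pool.Agent.Forest46876e
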