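import Mathlib

/-!
# Forest families of a right action

The group `G` acts on `X` on the right; in Lean this is `[MulAction Gᵐᵒᵖ X]`, and the point `x g`
is `op g • x`.
-/

namespace Pool.Agent.Forest46876e

open MeasureTheory MulOpposite
open scoped ENNReal

variable {G X : Type*} [Group G] [MulAction Gᵐᵒᵖ X]

/-- The graph on `X` whose edges are the pairs `{x, x g}` with `g : G` and `x ∈ E g`. -/
def edgeGraph (E : G → Set X) : SimpleGraph X :=
  SimpleGraph.fromRel fun x y => ∃ g, x ∈ E g ∧ y = op g • x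

/-- `A` is a forest family: the sets `A g` are measurable, there are no degenerate pairs
`{x, x g}` with `x g = x`, and the graph with the edges `{x, x g}`, `x ∈ A g`, has no cycle. -/
structure IsForestFamily [MeasurableSpace X] (A : G → Set X) : Prop where
  meas : ∀ g, MeasurableSet (A g)
  noloop : ∀ g, ∀ x ∈ A g, op g • x ≠ x
  acyclic : (edgeGraph A).IsAcyclic

/-- Every edge `{y, y s}`, `y ∈ B`, is a bridge modulo the orbits of `H`: deleting it from the
edges `{z, z s}`, `z ∈ B`, separates the `H`-orbits of `y` and of `y s`. -/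
def Bridges (H : Subgroup G) (s : G) (B : Set X) : Prop :=
  ∀ y ∈ B, ∃ φ : X → Prop, (∀ z, ∀ c ∈ H, (φ (op c • z) ↔ φ z)) ∧
    (∀ z ∈ B, z ≠ y → (φ (op s • z) ↔ φ z)) ∧ ¬ (φ (op s • y) ↔ φ y)

/-- The orbit equivalence relation of the subgroup `H`: `x` and `y` are equivalent if `y = x c`
for some `c ∈ H`. -/
def clsSetoid (X : Type*) [MulAction Gᵐᵒᵖ X] (H : Subgroup G) : Setoid X where
  r x y := ∃ c ∈ H, y = op c • x
  iseqv := by
    refine ⟨fun x => ⟨1, H.one_mem, by simp⟩, ?_, ?_⟩
    · rintro x y ⟨c, hc, rfl⟩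
      exact ⟨c⁻¹, H.inv_mem hc, by rw [← mul_smul, ← op_mul]; simp⟩
    · rintro x y z ⟨c, hc, rfl⟩ ⟨d, hd, rfl⟩
      exact ⟨c * d, H.mul_mem hc hd, by rw [op_mul, mul_smul]⟩

/-- `E` is a graphing of the equivalence relation `R`, by edges `{x, x g}` with `x ∈ E g`: the sets
`E g` are measurable, the edges join equivalent points, and for almost every `x` all points
equivalent to `x` are joined to `x` by edges. -/
structure IsGraphing [MeasurableSpace X] (μ : Measure X) (R : Setoid X) (E : G → Set X) :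
    Prop where
  meas : ∀ g, MeasurableSet (E g)
  sub : ∀ g, ∀ x ∈ E g, R x (op g • x)
  gen : ∀ᵐ x ∂μ, ∀ y, R x y → (edgeGraph E).Reachable x y

/-- The cost of `R`: the infimum of the total measure `∑ g, μ (E g)` of the graphings of `R`. -/
noncomputable def cost (G : Type*) {X : Type*} [Group G] [MulAction Gᵐᵒᵖ X] [MeasurableSpace X]
    (μ : Measure X) (R : Setoid X) : ℝ≥0∞ :=
  ⨅ (E : G → Set X) (_ : IsGraphing μ R E), ∑' g, μ (E g)

end Pool.Agent.Forest46876e
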