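import Mathlib

/-!
# Abstract finite dimension theory for Hilbert modules (MP_46876e_al)

`TrSys H`: a real Hilbert space with a set `U` of bounded operators closed under adjoints, a vector
`v` whose `U`-span is dense, and an isometry `J` with `J (A v) = A† v` for all `A` in the
commutant of `U`.  For closed `U`-invariant subspaces of `H^ι` we define the dimension
`dim K = ∑ i, ‖P_K v_i‖ ^ 2`.
-/

open scoped InnerProductSpace Classical

set_option linter.all false

namespace Forest46876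

variable {H : Type*} [NormedAddCommGroup H] [InnerProductSpace ℝ H] [CompleteSpace H]

/-- Trace systems. -/
structure TrSys (H : Type*) [NormedAddCommGroup H] [InnerProductSpace ℝ H]
    [CompleteSpace H] where
  U : Set (H →L[ℝ] H)
  adj_mem : ∀ u ∈ U, ContinuousLinearMap.adjoint u ∈ U
  v : H
  J : H →ₗᵢ[ℝ] H
  J_comm : ∀ A : H →L[ℝ] H, (∀ u ∈ U, ∀ f, A (u f) = u (A f)) →
    J (A v) = ContinuousLinearMap.adjoint A v
  total : ∀ L : Submodule ℝ H, IsClosed (L : Set H) → v ∈ L → (∀ u ∈ U, ∀ f ∈ L, u f ∈ L) → L = ⊤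

/-- `H^ι` -/
abbrev HI (ι : Type*) (H : Type*) := PiLp 2 (fun _ : ι => H)

section basic

variable {ι κ : Type*} [Fintype ι] [Fintype κ]

/-- componentwise application -/
noncomputable def lift (u : H →L[ℝ] H) (f : HI ι H) : HI ι H := WithLp.toLp 2 (fun i => u (f i))

@[simp] lemma lift_apply (u : H →L[ℝ] H) (f : HI ι H) (i : ι) : lift u f i = u (f i) := rfl

/-- i-th component -/
noncomputable def cmp (i : ι) : HI ι H →L[ℝ] H := PiLp.proj 2 (fun _ : ι => H) i

@[simp] lemma cmp_apply (i : ι) (f : HI ι H) : cmp i f = f i := rfl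

/-- i-th inclusion -/
noncomputable def inc (i : ι) : H →L[ℝ] HI ι H :=
  LinearMap.mkContinuous
    { toFun := fun f => PiLp.single 2 i f
      map_add' := fun f g => PiLp.single_add 2 i
      map_smul' := fun c f => by
        ext j
        by_cases h : j = i
        · subst h; simp
        · simp [h] } 1 (by
    intro f
    simp only [LinearMap.coe_mk, AddHom.coe_mk, one_mul]
    exact le_of_eq (PiLp.norm_single 2 (fun _ : ι => H) i f))

lemma inc_apply (i : ι) (f : H) (j : ι) : (inc i f : HI ι H) j = if j = i then f else 0 := by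
  by_cases h : j = i
  · subst h; simp [inc]
  · simp [inc, h]

@[simp] lemma inc_same (i : ι) (f : H) : (inc i f : HI ι H) i = f := by simp [inc_apply]

lemma inner_inc_left (i : ι) (f : H) (g : HI ι H) : ⟪(inc i f : HI ι H), g⟫_ℝ = ⟪f, g i⟫_ℝ := by
  rw [PiLp.inner_apply, Finset.sum_eq_single i]
  · simp
  · intro j _ hj
    simp [inc_apply, hj]
  · simp

lemma inner_inc_right (i : ι) (f : H) (g : HI ι H) : ⟪g, (inc i f : HI ι H)⟫_ℝ = ⟪g i, f⟫_ℝ := by
  rw [real_inner_comm, inner_inc_left, real_inner_comm]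

lemma lift_inc (u : H →L[ℝ] H) (i : ι) (f : H) : lift u (inc i f : HI ι H) = inc i (u f) := by
  ext j
  by_cases h : j = i
  · subst h; simp [inc_apply]
  · simp [inc_apply, h]

lemma sum_inc (f : HI ι H) : ∑ i, (inc i (f i) : HI ι H) = f := by
  ext j
  rw [show (∑ i, (inc i (f i) : HI ι H)) j = ∑ i, (inc i (f i) : HI ι H) j from by
    exact map_sum (cmp j) _ _]
  simp [inc_apply]

lemma inner_lift_adj (u : H →L[ℝ] H) (f g : HI ι H) :
    ⟪lift (ContinuousLinearMap.adjoint u) f, g⟫_ℝ = ⟪f, lift u g⟫_ℝ := by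
  rw [PiLp.inner_apply, PiLp.inner_apply]
  exact Finset.sum_congr rfl fun i _ => by
    simp [ContinuousLinearMap.adjoint_inner_left]

end basic

namespace TrSys

variable (S : TrSys H) {ι κ : Type*} [Fintype ι] [Fintype κ]

/-- the trace vectors -/
noncomputable def w (i : ι) : HI ι H := inc i S.v

/-- intertwining operators -/
def IsInt (A : HI ι H →L[ℝ] HI κ H) : Prop := ∀ u ∈ S.U, ∀ f, A (lift u f) = lift u (A f)

variable {S}

lemma IsInt.adj {A : HI ι H →L[ℝ] HI κ H} (hA : S.IsInt A) :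
    S.IsInt (ContinuousLinearMap.adjoint A) := by
  intro u hu f
  refine ext_inner_right ℝ fun g => ?_
  have h1 : ContinuousLinearMap.adjoint (ContinuousLinearMap.adjoint u) = u :=
    ContinuousLinearMap.adjoint_adjoint u
  rw [ContinuousLinearMap.adjoint_inner_left]
  conv_lhs => rw [← h1]
  rw [inner_lift_adj, ← hA _ (S.adj_mem u hu), ← ContinuousLinearMap.adjoint_inner_left,
    ← inner_lift_adj, h1]

lemma IsInt.comp {μ : Type*} [Fintype μ] {A : HI κ H →L[ℝ] HI μ H} {B : HI ι H →L[ℝ] HI κ H}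
    (hA : S.IsInt A) (hB : S.IsInt B) : S.IsInt (A ∘L B) := by
  intro u hu f
  simp only [ContinuousLinearMap.comp_apply]
  rw [hB u hu, hA u hu]

lemma isInt_id : S.IsInt (ContinuousLinearMap.id ℝ (HI ι H)) := fun _ _ _ => rfl

lemma IsInt.add {A B : HI ι H →L[ℝ] HI κ H} (hA : S.IsInt A) (hB : S.IsInt B) :
    S.IsInt (A + B) := by
  intro u hu f
  simp only [ContinuousLinearMap.add_apply]
  rw [hA u hu, hB u hu]
  ext j; simp

lemma IsInt.sub {A B : HI ι H →L[ℝ] HI κ H} (hA : S.IsInt A) (hB : S.IsInt B) :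
    S.IsInt (A - B) := by
  intro u hu f
  simp only [ContinuousLinearMap.sub_apply]
  rw [hA u hu, hB u hu]
  ext j; simp

lemma IsInt.smul {A : HI ι H →L[ℝ] HI κ H} (c : ℝ) (hA : S.IsInt A) : S.IsInt (c • A) := by
  intro u hu f
  simp only [ContinuousLinearMap.smul_apply]
  rw [hA u hu]
  ext j; simp

/-- matrix entries commute with `U` -/
lemma IsInt.entry {A : HI ι H →L[ℝ] HI κ H} (hA : S.IsInt A) (j : κ) (i : ι) :
    ∀ u ∈ S.U, ∀ f, (cmp j ∘L A ∘L inc i) (u f) = u ((cmp j ∘L A ∘L inc i) f) := by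
  intro u hu f
  simp only [ContinuousLinearMap.comp_apply, cmp_apply]
  rw [← lift_inc, hA u hu]
  rfl

lemma IsInt.J_entry {A : HI ι H →L[ℝ] HI κ H} (hA : S.IsInt A) (j : κ) (i : ι) :
    S.J ((A (S.w i)) j) = (ContinuousLinearMap.adjoint A (S.w j)) i := by
  have h := S.J_comm (cmp j ∘L A ∘L inc i) (hA.entry j i)
  have h1 : ContinuousLinearMap.adjoint (cmp j ∘L A ∘L inc i : H →L[ℝ] H) S.v
      = (ContinuousLinearMap.adjoint A (S.w j)) i := by
    refine ext_inner_right ℝ fun g => ?_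
    rw [ContinuousLinearMap.adjoint_inner_left]
    simp only [ContinuousLinearMap.comp_apply, cmp_apply]
    rw [← inner_inc_left, ← ContinuousLinearMap.adjoint_inner_left, ← inner_inc_right]
    rfl
  rw [← h1, ← h]
  rfl

/-- the trace property -/
theorem trace_comm {A : HI ι H →L[ℝ] HI κ H} {B : HI κ H →L[ℝ] HI ι H}
    (hA : S.IsInt A) (hB : S.IsInt B) :
    ∑ i, ⟪B (A (S.w i)), S.w i⟫_ℝ = ∑ j, ⟪A (B (S.w j)), S.w j⟫_ℝ := by
  have h1 : ∀ i : ι, ⟪B (A (S.w i)), S.w i⟫_ℝ
      = ∑ j, ⟪(A (S.w i)) j, (ContinuousLinearMap.adjoint B (S.w i)) j⟫_ℝ := by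
    intro i
    rw [← ContinuousLinearMap.adjoint_inner_right, PiLp.inner_apply]
  have h2 : ∀ j : κ, ⟪A (B (S.w j)), S.w j⟫_ℝ
      = ∑ i, ⟪(B (S.w j)) i, (ContinuousLinearMap.adjoint A (S.w j)) i⟫_ℝ := by
    intro j
    rw [← ContinuousLinearMap.adjoint_inner_right, PiLp.inner_apply]
  simp_rw [h1, h2]
  rw [Finset.sum_comm]
  refine Finset.sum_congr rfl fun j _ => Finset.sum_congr rfl fun i _ => ?_
  rw [← hA.J_entry j i, ← hB.J_entry i j, ← S.J.inner_map_map (B (S.w j) i), hB.J_entry i j,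
    real_inner_comm]
  have h3 : S.J (S.J ((A (S.w i)) j)) = (A (S.w i)) j := by
    rw [hA.J_entry j i, hA.adj.J_entry i j, ContinuousLinearMap.adjoint_adjoint]
  rw [h3, ← hB.J_entry i j]

end TrSys

/-- closed `U`-invariant subspaces of `H^ι` -/
structure VMod (S : TrSys H) (ι : Type*) [Fintype ι] where
  K : Submodule ℝ (HI ι H)
  closed : IsClosed (K : Set (HI ι H))
  inv : ∀ u ∈ S.U, ∀ f ∈ K, lift u f ∈ K

namespace VMod

variable {S : TrSys H} {ι κ : Type*} [Fintype ι] [Fintype κ]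

instance (M : VMod S ι) : CompleteSpace M.K := M.closed.completeSpace_coe

/-- orthogonal projection -/
noncomputable def P (M : VMod S ι) : HI ι H →L[ℝ] HI ι H := M.K.starProjection

/-- the dimension -/
noncomputable def dim (M : VMod S ι) : ℝ := ∑ i, ‖M.P (S.w i)‖ ^ 2

lemma P_mem (M : VMod S ι) (f : HI ι H) : M.P f ∈ M.K := Submodule.starProjection_apply_mem _ _

lemma P_eq_self (M : VMod S ι) {f : HI ι H} (hf : f ∈ M.K) : M.P f = f :=
  Submodule.starProjection_eq_self_iff.2 hf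

lemma inner_P (M : VMod S ι) (f g : HI ι H) : ⟪M.P f, g⟫_ℝ = ⟪f, M.P g⟫_ℝ :=
  Submodule.inner_starProjection_left_eq_right _ _ _

lemma dim_eq (M : VMod S ι) : M.dim = ∑ i, ⟪M.P (S.w i), S.w i⟫_ℝ := by
  refine Finset.sum_congr rfl fun i _ => ?_
  conv_rhs => rw [← M.P_eq_self (M.P_mem (S.w i)), inner_P]
  rw [real_inner_self_eq_norm_sq]

lemma dim_nonneg (M : VMod S ι) : 0 ≤ M.dim := Finset.sum_nonneg fun i _ => by positivity

/-- orthogonal complement -/
noncomputable def orth (M : VMod S ι) : VMod S ι where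
  K := M.Kᗮ
  closed := Submodule.isClosed_orthogonal _
  inv := by
    intro u hu f hf
    rw [Submodule.mem_orthogonal'] at hf ⊢
    intro g hg
    have h1 : ContinuousLinearMap.adjoint (ContinuousLinearMap.adjoint u) = u :=
      ContinuousLinearMap.adjoint_adjoint u
    rw [← h1, inner_lift_adj]
    exact hf _ (M.inv _ (S.adj_mem u hu) g hg)

lemma P_isInt (M : VMod S ι) : S.IsInt M.P := by
  intro u hu f
  have h1 : f = M.P f + (f - M.P f) := by abel
  have h2 : f - M.P f ∈ M.Kᗮ := Submodule.sub_starProjection_mem_orthogonal f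
  have h3 : lift u f = lift u (M.P f) + lift u (f - M.P f) := by
    ext j; simp
  rw [h3]
  exact Submodule.eq_starProjection_of_mem_orthogonal' (M.inv u hu _ (M.P_mem f))
    (M.orth.inv u hu _ h2) rfl

lemma orth_P (M : VMod S ι) (f : HI ι H) : M.orth.P f = f - M.P f :=
  Submodule.starProjection_orthogonal_val _

/-- infimum -/
def inf (M N : VMod S ι) : VMod S ι where
  K := M.K ⊓ N.K
  closed := M.closed.inter N.closed
  inv := fun u hu f hf => ⟨M.inv u hu f hf.1, N.inv u hu f hf.2⟩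

lemma dim_mono {M N : VMod S ι} (h : M.K ≤ N.K) : M.dim ≤ N.dim := by
  refine Finset.sum_le_sum fun i _ => ?_
  have h1 : M.P (S.w i) = M.P (N.P (S.w i)) := by
    have h2 : S.w i - N.P (S.w i) ∈ M.Kᗮ :=
      Submodule.orthogonal_le h (Submodule.sub_starProjection_mem_orthogonal _)
    have h3 : M.P (S.w i - N.P (S.w i)) = 0 :=
      (Submodule.starProjection_apply_eq_zero_iff _).2 h2
    rw [map_sub, sub_eq_zero] at h3
    exact h3
  rw [h1]
  gcongr
  exact Submodule.norm_starProjection_apply_le _ _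

/-- faithfulness -/
lemma eq_bot_of_dim (M : VMod S ι) (h : M.dim = 0) : M.K = ⊥ := by
  have h1 : ∀ i, M.P (S.w i) = 0 := by
    intro i
    have := (Finset.sum_eq_zero_iff_of_nonneg (fun i _ => by positivity)).1 h i (Finset.mem_univ i)
    simpa using this
  have h2 : ∀ i, S.w i ∈ M.Kᗮ := fun i => (Submodule.starProjection_apply_eq_zero_iff _).1 (h1 i)
  have h3 : ∀ (i : ι) (f : H), (inc i f : HI ι H) ∈ M.Kᗮ := by
    intro i f
    have := S.total (M.Kᗮ.comap (inc i : H →L[ℝ] HI ι H).toLinearMap)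
      (by
        have := (Submodule.isClosed_orthogonal M.K).preimage (inc i : H →L[ℝ] HI ι H).continuous
        exact this) (h2 i) (by
        intro u hu f hf
        have h4 := M.orth.inv u hu _ hf
        simp only [Submodule.mem_comap]
        have h5 : lift u ((inc i : H →L[ℝ] HI ι H) f) = inc i (u f) := lift_inc u i f
        exact h5 ▸ h4)
    have h6 : f ∈ (⊤ : Submodule ℝ H) := trivial
    rw [← this] at h6
    exact h6
  have h4 : ∀ f : HI ι H, f ∈ M.Kᗮ := by
    intro f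
    rw [← sum_inc f]
    exact Submodule.sum_mem _ fun i _ => h3 i _
  rw [Submodule.eq_bot_iff]
  intro f hf
  have := (Submodule.mem_orthogonal M.K f).1 (h4 f) f hf
  exact inner_self_eq_zero.1 this

lemma dim_pos (M : VMod S ι) (h : M.K ≠ ⊥) : 0 < M.dim :=
  lt_of_le_of_ne M.dim_nonneg fun h' => h (M.eq_bot_of_dim h'.symm)

/-- kernel of an intertwiner inside a module -/
noncomputable def ker (M : VMod S ι) (T : HI ι H →L[ℝ] HI κ H) (hT : S.IsInt T) : VMod S ι where
  K := M.K ⊓ T.toLinearMap.ker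
  closed := M.closed.inter (ContinuousLinearMap.isClosed_ker T)
  inv := fun u hu f hf => ⟨M.inv u hu f hf.1, by
    have h1 : T f = 0 := hf.2
    show T (lift u f) = 0
    rw [hT u hu, h1]
    ext j; simp⟩

lemma mem_ker {M : VMod S ι} {T : HI ι H →L[ℝ] HI κ H} {hT : S.IsInt T} {f : HI ι H} :
    f ∈ (M.ker T hT).K ↔ f ∈ M.K ∧ T f = 0 := Iff.rfl

/-- resolvent of a positive operator -/
lemma exists_resolvent (C : HI ι H →L[ℝ] HI ι H) (hC : ∀ f, 0 ≤ ⟪C f, f⟫_ℝ) {e : ℝ} (he : 0 < e) :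
    ∃ R : HI ι H →L[ℝ] HI ι H, (∀ f, C (R f) + e • R f = f) ∧ (∀ f, R (C f + e • f) = f) := by
  set D : HI ι H →L[ℝ] HI ι H := C + e • ContinuousLinearMap.id ℝ (HI ι H) with hD
  have hDf : ∀ f, D f = C f + e • f := fun f => by simp [hD]
  have hco : IsCoercive ((innerSL ℝ : HI ι H →L[ℝ] HI ι H →L[ℝ] ℝ) ∘L D) := by
    refine ⟨e, he, fun f => ?_⟩
    have h1 : ((innerSL ℝ : HI ι H →L[ℝ] HI ι H →L[ℝ] ℝ) ∘L D) f f = ⟪D f, f⟫_ℝ := rfl
    rw [h1, hDf, inner_add_left, inner_smul_left, real_inner_self_eq_norm_sq]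
    have := hC f
    simp only [conj_trivial]
    nlinarith
  set E := hco.continuousLinearEquivOfBilin with hE
  have hED : ∀ f, E f = D f := by
    intro f
    refine ext_inner_right ℝ fun g => ?_
    rw [hE, IsCoercive.continuousLinearEquivOfBilin_apply]
    rfl
  refine ⟨E.symm.toContinuousLinearMap, fun f => ?_, fun f => ?_⟩
  · rw [← hDf, ← hED]; simp
  · rw [← hDf, ← hED]; simp

/-- D1: an injective intertwiner does not decrease the dimension -/
theorem dim_le_of_injOn (M : VMod S ι) (N : VMod S κ) (T : HI ι H →L[ℝ] HI κ H) (hT : S.IsInt T)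
    (hmap : ∀ f ∈ M.K, T f ∈ N.K) (hinj : ∀ f ∈ M.K, T f = 0 → f = 0) : M.dim ≤ N.dim := by
  set A : HI ι H →L[ℝ] HI κ H := T ∘L M.P with hAdef
  have hA : S.IsInt A := hT.comp M.P_isInt
  set A' := ContinuousLinearMap.adjoint A with hA'
  set C : HI ι H →L[ℝ] HI ι H := A' ∘L A with hCdef
  have hCint : S.IsInt C := hA.adj.comp hA
  have hCin : ∀ f g, ⟪C f, g⟫_ℝ = ⟪A f, A g⟫_ℝ := by
    intro f g
    simp only [hCdef, ContinuousLinearMap.comp_apply, hA', ContinuousLinearMap.adjoint_inner_left]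
  have hCpos : ∀ f, 0 ≤ ⟪C f, f⟫_ℝ := fun f => by
    rw [hCin]; exact real_inner_self_nonneg
  have hCsymm : ∀ f g, ⟪C f, g⟫_ℝ = ⟪f, C g⟫_ℝ := by
    intro f g
    have h1 : ⟪f, C g⟫_ℝ = ⟪C g, f⟫_ℝ := real_inner_comm _ _
    rw [h1, hCin, hCin, real_inner_comm]
  -- kernel of A
  have hkerA : ∀ f, A f = 0 → f ∈ M.Kᗮ := by
    intro f hf
    exact (Submodule.starProjection_apply_eq_zero_iff _).1 (hinj _ (M.P_mem f) hf)
  have hAperp : ∀ f ∈ M.Kᗮ, A f = 0 := by
    intro f hf
    have : M.P f = 0 := (Submodule.starProjection_apply_eq_zero_iff _).2 hf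
    simp [hAdef, this]
  -- closure of range C = M.K
  have hrange : (C.toLinearMap.range).topologicalClosure = M.K := by
    have h1 : (C.toLinearMap.range)ᗮ = M.Kᗮ := by
      ext f
      constructor
      · intro hf
        rw [Submodule.mem_orthogonal'] at hf
        have h2 := hf (C f) ⟨f, rfl⟩
        have h3 : ⟪C f, f⟫_ℝ = 0 ∨ True := Or.inr trivial
        have h4 : C f = 0 := by
          have h5 := hf (C (C f)) ⟨C f, rfl⟩
          have h6 : ⟪f, C (C f)⟫_ℝ = ⟪C f, C f⟫_ℝ := (hCsymm f (C f)).symm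
          rw [h6] at h5
          exact inner_self_eq_zero.1 h5
        have h5 : A f = 0 := by
          have := hCin f f
          rw [h4, inner_zero_left] at this
          exact inner_self_eq_zero.1 this.symm
        exact hkerA f h5
      · intro hf
        rw [Submodule.mem_orthogonal']
        rintro _ ⟨g, rfl⟩
        have h5 : C f = 0 := by
          simp [hCdef, hAperp f hf]
        show ⟪f, C g⟫_ℝ = 0
        rw [← hCsymm, h5, inner_zero_left]
    have h2 : (C.toLinearMap.range)ᗮᗮ = M.Kᗮᗮ := by rw [h1]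
    rw [Submodule.orthogonal_orthogonal_eq_closure, Submodule.orthogonal_orthogonal] at h2
    exact h2
  -- the main inequality for every e
  have key : ∀ e : ℝ, 0 < e → ∀ R : HI ι H →L[ℝ] HI ι H, (∀ f, C (R f) + e • R f = f) →
      (∀ f, R (C f + e • f) = f) → ∑ i, ⟪C (R (S.w i)), S.w i⟫_ℝ ≤ N.dim := by
    intro e he R hR1 hR2
    have hRint : S.IsInt R := by
      intro u hu f
      have h1 : C (lift u (R f)) + e • lift u (R f) = lift u f := by
        rw [hCint u hu]
        conv_rhs => rw [← hR1 f]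
        ext j; simp
      rw [← h1, hR2]
    have h1 : ∑ i, ⟪C (R (S.w i)), S.w i⟫_ℝ = ∑ i, ⟪A' (A (R (S.w i))), S.w i⟫_ℝ := rfl
    have h2 := TrSys.trace_comm (S := S) (A := A ∘L R) (B := A') (hA.comp hRint) hA.adj
    have h3 : ∑ i, ⟪A' (A (R (S.w i))), S.w i⟫_ℝ = ∑ j, ⟪A (R (A' (S.w j))), S.w j⟫_ℝ := h2
    rw [h1, h3, dim_eq]
    refine Finset.sum_le_sum fun j _ => ?_
    -- A R A' ≤ P_N
    have hA'perp : ∀ g ∈ N.Kᗮ, A' g = 0 := by
      intro g hg
      refine ext_inner_right ℝ fun f => ?_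
      rw [hA', ContinuousLinearMap.adjoint_inner_left, inner_zero_left]
      have : A f ∈ N.K := hmap _ (M.P_mem f)
      rw [real_inner_comm]
      exact (Submodule.mem_orthogonal _ _).1 hg _ this
    set g := S.w j
    have hg1 : A' g = A' (N.P g) := by
      have h4 : A' (g - N.P g) = 0 := hA'perp _ (Submodule.sub_starProjection_mem_orthogonal g)
      rw [map_sub, sub_eq_zero] at h4
      exact h4
    have hAN : ∀ f, A f ∈ N.K := fun f => hmap _ (M.P_mem f)
    have h5 : ⟪A (R (A' g)), g⟫_ℝ = ⟪A (R (A' (N.P g))), N.P g⟫_ℝ := by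
      rw [← hg1, ← N.inner_P, N.P_eq_self (hAN _)]
    rw [h5]
    have h6 : ⟪N.P g, g⟫_ℝ = ‖N.P g‖ ^ 2 := by
      conv_lhs => rw [← N.P_eq_self (N.P_mem g), inner_P]
      rw [real_inner_self_eq_norm_sq]
    rw [h6]
    set y := N.P g
    set z := R (A' y)
    have h7 : C z + e • z = A' y := hR1 _
    have h8 : ⟪A z, y⟫_ℝ = ‖A z‖ ^ 2 + e * ‖z‖ ^ 2 := by
      have : ⟪A z, y⟫_ℝ = ⟪z, A' y⟫_ℝ := by
        rw [hA', ContinuousLinearMap.adjoint_inner_right]
      rw [this, ← h7, inner_add_right, inner_smul_right, real_inner_self_eq_norm_sq, ← hCsymm,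
        hCin, real_inner_self_eq_norm_sq]
    have h9 : ⟪A z, y⟫_ℝ ≤ ‖A z‖ * ‖y‖ := real_inner_le_norm _ _
    have h10 : 0 ≤ e * ‖z‖ ^ 2 := by positivity
    have h11 : ‖A z‖ ≤ ‖y‖ := by
      by_contra hcon
      push Not at hcon
      have h12 : 0 < ‖A z‖ := lt_of_le_of_lt (norm_nonneg _) hcon
      nlinarith
    nlinarith [norm_nonneg y, norm_nonneg (A z)]
  -- convergence
  have conv : ∀ f : HI ι H, ∀ δ : ℝ, 0 < δ → ∃ e0 : ℝ, 0 < e0 ∧ ∀ e : ℝ, 0 < e → e < e0 →
      ∀ R : HI ι H →L[ℝ] HI ι H, (∀ f, C (R f) + e • R f = f) → (∀ f, R (C f + e • f) = f) →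
      ‖C (R f) - M.P f‖ < δ := by
    intro f δ hδ
    -- contraction property of e R and of C R
    have hcon : ∀ e : ℝ, 0 < e → ∀ R : HI ι H →L[ℝ] HI ι H, (∀ f, C (R f) + e • R f = f) →
        ∀ g, ‖e • R g‖ ≤ ‖g‖ := by
      intro e he R hR1 g
      have h1 : ⟪g, e • R g⟫_ℝ = e * ⟪C (R g), R g⟫_ℝ + ‖e • R g‖ ^ 2 := by
        have h0 : ⟪C (R g) + e • R g, e • R g⟫_ℝ = e * ⟪C (R g), R g⟫_ℝ + ‖e • R g‖ ^ 2 := by
          rw [inner_add_left, inner_smul_right, real_inner_self_eq_norm_sq]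
        rw [hR1 g] at h0
        exact h0
      have h2 : ⟪g, e • R g⟫_ℝ ≤ ‖g‖ * ‖e • R g‖ := real_inner_le_norm _ _
      have h3 : 0 ≤ e * ⟪C (R g), R g⟫_ℝ := mul_nonneg he.le (hCpos _)
      by_contra hcon
      push Not at hcon
      have h12 : 0 < ‖e • R g‖ := lt_of_le_of_lt (norm_nonneg _) hcon
      nlinarith
    have hmem : M.P f ∈ (C.toLinearMap.range).topologicalClosure := by
      rw [hrange]; exact M.P_mem f
    obtain ⟨y, ⟨g, hg⟩, hy⟩ := Metric.mem_closure_iff.1 hmem (δ / 4) (by positivity)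
    have hg' : C g = y := hg
    refine ⟨δ / (4 * (‖g‖ + 1)), by positivity, ?_⟩
    intro e he hee R hR1 hR2
    have h1 : C (R f) - M.P f = - (e • R (M.P f)) := by
      have h2 : C (f - M.P f) = 0 := by
        have : A (f - M.P f) = 0 := hAperp _ (Submodule.sub_starProjection_mem_orthogonal f)
        simp only [hCdef, ContinuousLinearMap.comp_apply, this, map_zero]
      have h3 : R (f - M.P f) = e⁻¹ • (f - M.P f) := by
        have h4 := hR2 (e⁻¹ • (f - M.P f))
        rw [map_smul, h2, smul_zero, zero_add, smul_smul, mul_inv_cancel₀ he.ne', one_smul] at h4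
        exact h4
      have h5 : R f = R (M.P f) + e⁻¹ • (f - M.P f) := by
        rw [← h3, ← map_add]; congr 1; abel
      have h6 : C (R f) = C (R (M.P f)) := by
        rw [h5, map_add, map_smul, h2, smul_zero, add_zero]
      have h7 := hR1 (M.P f)
      rw [h6]
      nth_rw 2 [← h7]
      abel
    rw [h1, norm_neg]
    have h2 : R (C g) = g - e • R g := by
      have := hR2 g
      rw [map_add, map_smul] at this
      rw [eq_sub_iff_add_eq]; exact this
    have h3 : e • R (M.P f) = e • R (M.P f - C g) + (e • g - e • (e • R g)) := by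
      rw [map_sub, smul_sub, h2, smul_sub]; abel
    rw [h3]
    have h4 : ‖e • R (M.P f - C g)‖ ≤ δ / 4 := by
      refine (hcon e he R hR1 _).trans ?_
      rw [hg', ← dist_eq_norm]; exact hy.le
    have h5 : ‖e • g - e • (e • R g)‖ ≤ δ / 2 := by
      have h6 : ‖e • g‖ ≤ e * ‖g‖ := by rw [norm_smul, Real.norm_of_nonneg he.le]
      have h7 : ‖e • (e • R g)‖ ≤ e * ‖g‖ := by
        rw [norm_smul, Real.norm_of_nonneg he.le]
        exact mul_le_mul_of_nonneg_left (hcon e he R hR1 g) he.le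
      have h8 : e * ‖g‖ ≤ δ / 4 := by
        have : e * (4 * (‖g‖ + 1)) < δ := (lt_div_iff₀ (by positivity)).1 hee
        nlinarith [norm_nonneg g]
      calc ‖e • g - e • (e • R g)‖ ≤ ‖e • g‖ + ‖e • (e • R g)‖ := norm_sub_le _ _
        _ ≤ δ / 2 := by linarith
    calc _ ≤ ‖e • R (M.P f - C g)‖ + ‖e • g - e • (e • R g)‖ := norm_add_le _ _
      _ < δ := by linarith
  refine le_of_forall_pos_le_add fun δ hδ => ?_
  set W : ℝ := ∑ i : ι, ‖(S.w i : HI ι H)‖ with hW
  have hWn : 0 ≤ W := Finset.sum_nonneg fun _ _ => norm_nonneg _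
  set δ' := δ / (W + 1) with hδ'
  have hδ'p : 0 < δ' := by positivity
  choose e0 he0 hconv using fun i : ι => conv (S.w i) δ' hδ'p
  obtain ⟨e, he, hee⟩ : ∃ e : ℝ, 0 < e ∧ ∀ i, e < e0 i := by
    rcases isEmpty_or_nonempty ι with h | h
    · exact ⟨1, one_pos, fun i => (IsEmpty.false i).elim⟩
    · obtain ⟨i0, hi0⟩ := Finite.exists_min e0
      exact ⟨e0 i0 / 2, by have := he0 i0; linarith, fun i => by
        have := he0 i0; have := hi0 i; linarith⟩
  obtain ⟨R, hR1, hR2⟩ := exists_resolvent C hCpos he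
  have h1 := key e he R hR1 hR2
  have h2 : M.dim ≤ (∑ i : ι, ⟪C (R (S.w i)), S.w i⟫_ℝ) + δ' * W := by
    rw [dim_eq, hW, Finset.mul_sum, ← Finset.sum_add_distrib]
    refine Finset.sum_le_sum fun i _ => ?_
    have h3 := hconv i e he (hee i) R hR1 hR2
    have h4 : ⟪M.P (S.w i), S.w i⟫_ℝ - ⟪C (R (S.w i)), S.w i⟫_ℝ
        = ⟪-(C (R (S.w i)) - M.P (S.w i)), S.w i⟫_ℝ := by
      rw [neg_sub, inner_sub_left]
    have h5 : ⟪-(C (R (S.w i)) - M.P (S.w i)), S.w i⟫_ℝ ≤ δ' * ‖S.w i‖ := by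
      refine (real_inner_le_norm _ _).trans ?_
      rw [norm_neg]
      exact mul_le_mul_of_nonneg_right h3.le (norm_nonneg _)
    linarith
  have h3 : δ' * W ≤ δ := by
    rw [hδ', div_mul_eq_mul_div, div_le_iff₀ (by positivity)]
    nlinarith
  linarith

lemma P_eq_of (M : VMod S ι) {f y : HI ι H} (h1 : y ∈ M.K) (h2 : ∀ g ∈ M.K, ⟪f - y, g⟫_ℝ = 0) :
    M.P f = y := Submodule.eq_starProjection_of_mem_of_inner_eq_zero h1 h2

lemma inner_sub_P (M : VMod S ι) (f : HI ι H) {g : HI ι H} (hg : g ∈ M.K) :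
    ⟪f - M.P f, g⟫_ℝ = 0 := Submodule.starProjection_inner_eq_zero _ _ hg

/-- D2: additivity -/
lemma dim_add_orth (M L : VMod S ι) (hL : L.K ≤ M.K) :
    M.dim = L.dim + (M.inf L.orth).dim := by
  have h1 : ∀ f, (M.inf L.orth).P f = M.P f - L.P f := by
    intro f
    refine P_eq_of _ ⟨M.K.sub_mem (M.P_mem f) (hL (L.P_mem f)), ?_⟩ ?_
    · show M.P f - L.P f ∈ L.Kᗮ
      rw [Submodule.mem_orthogonal']
      intro g hg
      have h2 : M.P f - L.P f = (f - L.P f) - (f - M.P f) := by abel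
      rw [h2, inner_sub_left, inner_sub_P L f hg, inner_sub_P M f (hL hg), sub_zero]
    · rintro g ⟨hg1, hg2⟩
      have h2 : f - (M.P f - L.P f) = (f - M.P f) + L.P f := by abel
      rw [h2, inner_add_left, inner_sub_P M f hg1, zero_add]
      exact (Submodule.mem_orthogonal _ _).1 hg2 _ (L.P_mem f)
  rw [dim_eq, dim_eq, dim_eq, ← Finset.sum_add_distrib]
  refine Finset.sum_congr rfl fun i _ => ?_
  rw [h1, inner_sub_left]; ring

/-- D6 -/
theorem dim_le_ker_add (M : VMod S ι) (N : VMod S κ) (T : HI ι H →L[ℝ] HI κ H) (hT : S.IsInt T)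
    (hmap : ∀ f ∈ M.K, T f ∈ N.K) : M.dim ≤ (M.ker T hT).dim + N.dim := by
  rw [dim_add_orth M (M.ker T hT) (fun f hf => hf.1)]
  have := dim_le_of_injOn (M.inf (M.ker T hT).orth) N T hT (fun f hf => hmap f hf.1) ?_
  · linarith
  · rintro f ⟨hf1, hf2⟩ hf3
    have h1 : f ∈ (M.ker T hT).K := ⟨hf1, hf3⟩
    have := (Submodule.mem_orthogonal _ _).1 hf2 f h1
    exact inner_self_eq_zero.1 this

/-- the kernel-image inequality in the other direction: dim ker + dim N ≤ dim M if `T` maps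
`M` densely -/
theorem dim_ker_add_le (M : VMod S ι) (N : VMod S κ) (T : HI ι H →L[ℝ] HI κ H) (hT : S.IsInt T)
    (hdense : ∀ g ∈ N.K, (∀ f ∈ M.K, ⟪T f, g⟫_ℝ = 0) → g = 0) :
    (M.ker T hT).dim + N.dim ≤ M.dim := by
  rw [dim_add_orth M (M.ker T hT) (fun f hf => hf.1)]
  have h0 : S.IsInt ((M.inf (M.ker T hT).orth).P ∘L ContinuousLinearMap.adjoint T) :=
    (P_isInt _).comp hT.adj
  have := dim_le_of_injOn N (M.inf (M.ker T hT).orth)
    ((M.inf (M.ker T hT).orth).P ∘L ContinuousLinearMap.adjoint T) h0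
    (fun f hf => P_mem _ _) ?_
  · linarith
  · intro g hg h1
    refine hdense g hg fun f hf => ?_
    -- decompose f = f1 + f2, f1 in kernel
    have h2 : f = (M.ker T hT).P f + (M.inf (M.ker T hT).orth).P f := by
      have h3 : (M.inf (M.ker T hT).orth).P f = f - (M.ker T hT).P f := by
        refine P_eq_of _ ⟨M.K.sub_mem hf ((P_mem (M.ker T hT) f).1), ?_⟩ ?_
        · show f - (M.ker T hT).P f ∈ (M.ker T hT).Kᗮ
          exact Submodule.sub_starProjection_mem_orthogonal f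
        · rintro g ⟨hg1, hg2⟩
          have h4 : f - (f - (M.ker T hT).P f) = (M.ker T hT).P f := by abel
          rw [h4]
          exact (Submodule.mem_orthogonal _ _).1 hg2 _ (P_mem _ f)
      rw [h3]; abel
    have h3 : T ((M.ker T hT).P f) = 0 := (P_mem (M.ker T hT) f).2
    rw [h2, map_add, h3, zero_add]
    have h4 : ⟪(M.inf (M.ker T hT).orth).P f, (M.inf (M.ker T hT).orth).P
        (ContinuousLinearMap.adjoint T g)⟫_ℝ = 0 := by
      have : (M.inf (M.ker T hT).orth).P (ContinuousLinearMap.adjoint T g) = 0 := h1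
      rw [this, inner_zero_right]
    rw [← inner_P, P_eq_self _ (P_mem _ _), ContinuousLinearMap.adjoint_inner_right] at h4
    exact h4

/-- the whole space -/
def top (S : TrSys H) (ι : Type*) [Fintype ι] : VMod S ι where
  K := ⊤
  closed := isClosed_univ
  inv := fun _ _ _ _ => trivial

lemma dim_top : (top S ι).dim = Fintype.card ι * ‖S.v‖ ^ 2 := by
  have h1 : ∀ f : HI ι H, (top S ι).P f = f := fun f => P_eq_self _ trivial
  simp only [dim, h1]
  have h2 : ∀ i : ι, ‖S.w i‖ = ‖S.v‖ := fun i => PiLp.norm_single 2 (fun _ : ι => H) i S.v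
  simp [h2]

end VMod

end Forest46876
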