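import Pool.Agent.Lib.MP_46876e_al.Transfer

/-!
# Finite subgroups (MP_46876e_al)
-/

open MeasureTheory MulOpposite
open scoped InnerProductSpace ENNReal Classical

set_option linter.all false

namespace Forest46876

open Pool.Agent.Forest46876e

variable {G X : Type*} [Group G] [Countable G] [MeasurableSpace G] [DiscreteMeasurableSpace G]
  [MeasurableSpace X] [MulAction Gᵐᵒᵖ X] [MeasurableConstSMul Gᵐᵒᵖ X]
  {μ : Measure X} [SMulInvariantMeasure Gᵐᵒᵖ X μ] [IsProbabilityMeasure μ]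

section fin

variable (μ) (K : Subgroup G) [Fintype K]

/-- sum over a finite subgroup -/
noncomputable def sumK : H0 G μ →L[ℝ] H0 G μ := ∑ k : K, cR μ (k : G)

lemma sumK_apply (f : H0 G μ) : sumK μ K f = ∑ k : K, cR μ (k : G) f := by
  simp [sumK, ContinuousLinearMap.sum_apply]

lemma com_sumK : Com μ (sumK μ K) := by
  refine ⟨fun g f => ?_, fun B hB f => ?_⟩
  · rw [sumK_apply, sumK_apply, map_sum]
    exact Finset.sum_congr rfl fun k _ => cR_cU μ _ _ _
  · rw [sumK_apply, sumK_apply, map_sum]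
    exact Finset.sum_congr rfl fun k _ => cR_mA μ _ _ _ _

lemma cR_sumK (k : K) (f : H0 G μ) : cR μ (k : G) (sumK μ K f) = sumK μ K f := by
  rw [sumK_apply, map_sum]
  simp only [cR_cR]
  exact Fintype.sum_equiv (Equiv.mulLeft k) _ _ fun j => by simp

lemma sumK_sumK (f : H0 G μ) : sumK μ K (sumK μ K f) = (Fintype.card K : ℝ) • sumK μ K f := by
  rw [sumK_apply μ K (sumK μ K f)]
  simp only [cR_sumK]
  rw [Finset.sum_const, Finset.card_univ, Nat.cast_smul_eq_nsmul]

lemma sumK_adj (f g : H0 G μ) : ⟪sumK μ K f, g⟫_ℝ = ⟪f, sumK μ K g⟫_ℝ := by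
  rw [sumK_apply, sumK_apply, sum_inner, inner_sum]
  refine Fintype.sum_equiv (Equiv.inv K) _ _ fun k => ?_
  rw [cR_adj]
  simp

/-- vectors with vanishing averages -/
noncomputable def NK : VMod (sys μ : TrSys (H0 G μ)) Unit :=
  (VMod.top _ Unit).ker (liftOp Unit (sumK μ K)) (liftOp_int (com_sumK μ K))

lemma mem_NK {θ : HI Unit (H0 G μ)} : θ ∈ (NK μ K).K ↔ sumK μ K (θ ()) = 0 := by
  constructor
  · rintro ⟨_, h⟩
    have h' : liftOp Unit (sumK μ K) θ = 0 := h
    rw [← liftOp_apply, h']; rfl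
  · intro h
    refine ⟨trivial, ?_⟩
    show liftOp Unit (sumK μ K) θ = 0
    ext1 j
    rw [liftOp_apply]; exact h

lemma dim_NK : (NK μ K).dim = 1 - (Fintype.card K : ℝ)⁻¹ := by
  have hn0' : ((Fintype.card K : ℕ) : ℝ) ≠ 0 := Nat.cast_ne_zero.2 Fintype.card_ne_zero
  set n : ℝ := ((Fintype.card K : ℕ) : ℝ) with hn
  have hn0 : n ≠ 0 := hn0'
  have h1 : (NK μ K).P ((sys μ : TrSys (H0 G μ)).w ())
      = inc () (v0 μ - n⁻¹ • sumK μ K (v0 μ)) := by
    refine VMod.P_eq_of _ ?_ ?_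
    · rw [mem_NK, inc_same, map_sub, map_smul, sumK_sumK, smul_smul, ← hn,
        inv_mul_cancel₀ hn0, one_smul, sub_self]
    · intro g hg
      rw [mem_NK] at hg
      have h2 : (sys μ : TrSys (H0 G μ)).w () - inc () (v0 μ - n⁻¹ • sumK μ K (v0 μ))
          = (inc () (n⁻¹ • sumK μ K (v0 μ)) : HI Unit (H0 G μ)) := by
        rw [map_sub, TrSys.w]
        exact sub_sub_cancel _ _
      rw [h2, inner_inc_left, inner_smul_left, sumK_adj, hg, inner_zero_right, mul_zero]
  rw [VMod.dim_eq, Finset.sum_eq_single ()]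
  · rw [h1, inner_inc_left]
    have h3 : ((sys μ : TrSys (H0 G μ)).w () : HI Unit (H0 G μ)) () = v0 μ := inc_same _ _
    rw [h3, inner_sub_left, real_inner_self_eq_norm_sq, norm_v0, inner_smul_left, sumK_apply,
      sum_inner]
    have h4 : ∀ k : K, ⟪cR μ (k : G) (v0 μ), v0 μ⟫_ℝ = if k = 1 then 1 else 0 := by
      intro k
      rw [← eb_one, cR_eb]
      by_cases hk : k = 1
      · subst hk
        rw [if_pos rfl]
        simp only [Subgroup.coe_one, inv_one, mul_one]
        rw [real_inner_self_eq_norm_sq, norm_eb, one_pow]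
      · rw [if_neg hk]
        refine inner_eb_ne fun h => hk ?_
        rw [one_mul, inv_eq_one] at h
        exact Subtype.ext h
    simp only [h4]
    simp
  · intro b _ hb; exact (hb rfl).elim
  · simp

lemma coc_sum_eq {L : Subgroup G} (hK : K ≤ L) {c : G → H0 G μ} (hc : IsCoc L c) (k : K) :
    (Fintype.card K : ℝ) • c k + cR μ (k : G) (∑ j : K, c j) = ∑ j : K, c j := by
  have h1 : ∑ j : K, c ((k * j : K) : G) = ∑ j : K, c j :=
    Fintype.sum_equiv (Equiv.mulLeft k) _ _ fun j => rfl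
  have h2 : ∀ j : K, c ((k * j : K) : G) = c k + cR μ (k : G) (c j) := fun j =>
    hc _ (hK k.2) _ (hK j.2)
  have h3 : ∑ j : K, c ((k * j : K) : G)
      = (Fintype.card K : ℝ) • c k + cR μ (k : G) (∑ j : K, c j) := by
    simp only [h2]
    rw [Finset.sum_add_distrib, Finset.sum_const, Finset.card_univ, ← Nat.cast_smul_eq_nsmul ℝ,
      map_sum]
  exact h3.symm.trans h1

/-- the module of cocycles of a finite group -/
theorem dim_ZM_finite_le :
    (ZM μ ⊥ (fun k : K => (k : G))).dim ≤ 1 - (Fintype.card K : ℝ)⁻¹ := by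
  have hgen : ∀ k : K, (k : G) ∈ gen (⊥ : Subgroup G) (fun k : K => (k : G)) := mem_gen _ _
  have hKle : K ≤ gen (⊥ : Subgroup G) (fun k : K => (k : G)) := fun k hk => hgen ⟨k, hk⟩
  set T : HI K (H0 G μ) →L[ℝ] HI Unit (H0 G μ) := ∑ k : K, (inc ()) ∘L (cmp k) with hT
  have hTa : ∀ θ, T θ () = ∑ k : K, θ k := by
    intro θ
    have h1 : T θ = ∑ k : K, (inc () (θ k) : HI Unit (H0 G μ)) := by
      simp [hT, ContinuousLinearMap.sum_apply]
    rw [h1, ← map_sum, inc_same]
  have hTi : (sys μ : TrSys (H0 G μ)).IsInt T := by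
    intro u hu f
    ext1 j
    show T (lift u f) () = u (T f ())
    rw [hTa, hTa, map_sum]; rfl
  have hn0 : (Fintype.card K : ℝ) ≠ 0 := by exact_mod_cast Fintype.card_ne_zero
  rw [← dim_NK μ K]
  refine VMod.dim_le_of_injOn _ _ T hTi ?_ ?_
  · rintro θ ⟨c, hc⟩
    rw [mem_NK, hTa]
    have h1 : ∑ k : K, θ k = ∑ k : K, c k := Finset.sum_congr rfl fun k _ => (hc.2.2 k).symm
    rw [h1, sumK_apply]
    have h2 : ∀ k : K, cR μ (k : G) (∑ j : K, c j)
        = ∑ j : K, c j - (Fintype.card K : ℝ) • c k := by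
      intro k
      rw [eq_sub_iff_add_eq, add_comm]
      exact coc_sum_eq μ K hKle hc.1 k
    simp only [h2]
    rw [Finset.sum_sub_distrib, Finset.sum_const, Finset.card_univ, ← Finset.smul_sum,
      Nat.cast_smul_eq_nsmul, sub_self]
  · rintro θ ⟨c, hc⟩ h0
    have h1 : ∑ k : K, c k = 0 := by
      have h2 := hTa θ
      rw [h0] at h2
      have h3 : ∑ k : K, θ k = ∑ k : K, c k := Finset.sum_congr rfl fun k _ => (hc.2.2 k).symm
      rw [← h3, ← h2]; rfl
    ext1 k
    have h2 := coc_sum_eq μ K hKle hc.1 k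
    rw [h1, map_zero, add_zero] at h2
    rw [← hc.2.2 k]
    exact (smul_eq_zero.1 h2).resolve_left hn0

/-- harmonic gradients of finite groups vanish -/
theorem dim_HDX_finite {ι : Type*} [Fintype ι] (S : ι → G) (hK : gen (⊥ : Subgroup G) S = K) :
    (HDX μ S).dim = 0 := by
  have hn0 : (Fintype.card K : ℝ) ≠ 0 := by exact_mod_cast Fintype.card_ne_zero
  have hb : ∀ θ ∈ (HDX μ S).K, θ = 0 := by
    rintro θ ⟨⟨c, hc⟩, hdiv⟩
    have hdiv' : divOp μ S θ = 0 := hdiv
    have hKle : K ≤ gen (⊥ : Subgroup G) S := hK.ge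
    set f : HI Unit (H0 G μ) := inc () (-(Fintype.card K : ℝ)⁻¹ • ∑ j : K, c j) with hf
    have h1 : θ = dOp μ S f := by
      ext1 i
      rw [dOp_apply, hf, inc_same]
      have hSi : S i ∈ K := by rw [← hK]; exact mem_gen _ _ i
      have h2 := coc_sum_eq μ K hKle hc.1 ⟨S i, hSi⟩
      have h3 : c (S i) = (Fintype.card K : ℝ)⁻¹ • (∑ j : K, c j
          - cR μ (S i) (∑ j : K, c j)) := by
        have h4 : ∑ j : K, c j - cR μ (S i) (∑ j : K, c j) = (Fintype.card K : ℝ) • c (S i) :=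
          (eq_sub_of_add_eq h2).symm
        rw [h4, smul_smul, inv_mul_cancel₀ hn0, one_smul]
      rw [← hc.2.2 i, h3, map_smul, smul_sub, neg_smul, neg_smul]
      exact (by
        rw [sub_neg_eq_add, neg_add_eq_sub])
    have h2 : dOp μ S f = 0 := by
      rw [h1] at hdiv'
      have h3 : ⟪divOp μ S (dOp μ S f), f⟫_ℝ = 0 := by rw [hdiv', inner_zero_left]
      rw [divOp, ContinuousLinearMap.adjoint_inner_left] at h3
      exact inner_self_eq_zero.1 h3
    rw [h1, h2]
  have h1 : ∀ f, (HDX μ S).P f = 0 := fun f => hb _ ((HDX μ S).P_mem f)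
  simp [VMod.dim, h1]

end fin

end Forest46876
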