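import Pool.Agent.Lib.MP_46876e_al.Amplify

/-!
# Free minimal spanning forest modulo an orbit relation

Labels `ψ (x, i)` are given to the edges `{x, x s_i}`.  We keep the edges which are not the edge of
largest label of a cycle (modulo the orbits of `H`).
-/

namespace Pool.Agent.Forest46876e

open MeasureTheory MulOpposite
open scoped ENNReal

section Conn

variable {G X ι : Type*} [Group G] [MulAction Gᵐᵒᵖ X]

/-- One step: a move inside an `H`-orbit, or an edge `e = {x, x s_i}` of `K`. -/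
def cstep (H : Subgroup G) (s : ι → G) (K : Set (X × ι)) (a b : X) : Prop :=
  (∃ c ∈ H, b = op c • a) ∨ ∃ e ∈ K, a = e.1 ∧ b = op (s e.2) • e.1

/-- `a` and `b` are joined by moves inside `H`-orbits and edges of `K`. -/
def conn (H : Subgroup G) (s : ι → G) (K : Set (X × ι)) (a b : X) : Prop :=
  Relation.EqvGen (cstep H s K) a b

theorem conn.mono {H : Subgroup G} {s : ι → G} {K K' : Set (X × ι)} (h : K ⊆ K') {a b : X}
    (hab : conn H s K a b) : conn H s K' a b := by
  refine Relation.EqvGen.mono ?_ _ _ hab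
  rintro a b (h1 | ⟨e, he, h2⟩)
  · exact Or.inl h1
  · exact Or.inr ⟨e, h he, h2⟩

theorem conn.inv {H : Subgroup G} {s : ι → G} {K : Set (X × ι)} {φ : X → Prop}
    (h1 : ∀ z, ∀ c ∈ H, (φ (op c • z) ↔ φ z)) (h2 : ∀ e ∈ K, (φ (op (s e.2) • e.1) ↔ φ e.1))
    {a b : X} (hab : conn H s K a b) : φ a ↔ φ b := by
  induction hab with
  | rel a b h =>
    rcases h with ⟨c, hc, rfl⟩ | ⟨e, he, rfl, rfl⟩
    · exact (h1 a c hc).symm
    · exact (h2 e he).symm
  | refl a => exact Iff.rfl
  | symm a b _ ih => exact ih.symm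
  | trans a b c _ _ ih1 ih2 => exact ih1.trans ih2

theorem conn.exists_finset {H : Subgroup G} {s : ι → G} {K : Set (X × ι)} {a b : X}
    (hab : conn H s K a b) : ∃ K' : Finset (X × ι), (K' : Set (X × ι)) ⊆ K ∧
      conn H s (K' : Set (X × ι)) a b := by
  classical
  induction hab with
  | rel a b h =>
    rcases h with ⟨c, hc, rfl⟩ | ⟨e, he, rfl, rfl⟩
    · exact ⟨∅, by simp, Relation.EqvGen.rel _ _ (Or.inl ⟨c, hc, rfl⟩)⟩
    · exact ⟨{e}, by simpa using he,
        Relation.EqvGen.rel _ _ (Or.inr ⟨e, by simp, rfl, rfl⟩)⟩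
  | refl a => exact ⟨∅, by simp, Relation.EqvGen.refl _⟩
  | symm a b _ ih =>
    obtain ⟨K', h1, h2⟩ := ih
    exact ⟨K', h1, Relation.EqvGen.symm _ _ h2⟩
  | trans a b c _ _ ih1 ih2 =>
    obtain ⟨K1, h1, h2⟩ := ih1
    obtain ⟨K2, h3, h4⟩ := ih2
    refine ⟨K1 ∪ K2, ?_, ?_⟩
    · rw [Finset.coe_union]
      exact Set.union_subset h1 h3
    · rw [Finset.coe_union]
      exact Relation.EqvGen.trans _ _ _ (h2.mono Set.subset_union_left)
        (h4.mono Set.subset_union_right)

theorem conn_smul {H : Subgroup G} {s : ι → G} {K : Set (X × ι)} {a : X} {c : G} (hc : c ∈ H) :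
    conn H s K a (op c • a) := Relation.EqvGen.rel _ _ (Or.inl ⟨c, hc, rfl⟩)

theorem conn_edge {H : Subgroup G} {s : ι → G} {K : Set (X × ι)} {e : X × ι} (he : e ∈ K) :
    conn H s K e.1 (op (s e.2) • e.1) := Relation.EqvGen.rel _ _ (Or.inr ⟨e, he, rfl, rfl⟩)

theorem conn_inv_H {H : Subgroup G} {s : ι → G} {K : Set (X × ι)} (a : X) :
    ∀ z, ∀ c ∈ H, (conn H s K a (op c • z) ↔ conn H s K a z) := by
  intro z c hc
  constructor
  · intro h
    exact Relation.EqvGen.trans _ _ _ h (Relation.EqvGen.symm _ _ (conn_smul hc))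
  · intro h
    exact Relation.EqvGen.trans _ _ _ h (conn_smul hc)

theorem conn_inv_edge {H : Subgroup G} {s : ι → G} {K : Set (X × ι)} (a : X) :
    ∀ e ∈ K, (conn H s K a (op (s e.2) • e.1) ↔ conn H s K a e.1) := by
  intro e he
  constructor
  · intro h
    exact Relation.EqvGen.trans _ _ _ h (Relation.EqvGen.symm _ _ (conn_edge he))
  · intro h
    exact Relation.EqvGen.trans _ _ _ h (conn_edge he)

/-- The edge `e` is not the edge of largest label of a cycle. -/
def LowFree (H : Subgroup G) (s : ι → G) (ψ : X × ι → ℝ) (e : X × ι) : Prop :=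
  ∃ φ : X → Prop, (∀ z, ∀ c ∈ H, (φ (op c • z) ↔ φ z)) ∧
    (∀ e', ψ e' < ψ e → (φ (op (s e'.2) • e'.1) ↔ φ e'.1)) ∧ ¬ (φ (op (s e.2) • e.1) ↔ φ e.1)

/-- A set of edges, none of which is the edge of largest label of a cycle, has no cycle. -/
theorem not_conn_of_lowFree {H : Subgroup G} {s : ι → G} {ψ : X × ι → ℝ}
    (hψ : Function.Injective ψ) {E : Set (X × ι)} (hE : ∀ e ∈ E, LowFree H s ψ e) {e₀ : X × ι}
    (he₀ : e₀ ∈ E) : ¬ conn H s (E \ {e₀}) e₀.1 (op (s e₀.2) • e₀.1) := by
  classical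
  intro hc
  obtain ⟨K₀, hK₀, hcK₀⟩ := hc.exists_finset
  let P : ℕ → Prop := fun n => ∃ K : Finset (X × ι), K.card = n ∧
    (K : Set (X × ι)) ⊆ E \ {e₀} ∧ conn H s (K : Set (X × ι)) e₀.1 (op (s e₀.2) • e₀.1)
  have hP : ∃ n, P n := ⟨_, K₀, rfl, hK₀, hcK₀⟩
  obtain ⟨K, hcard, hKE, hK⟩ := Nat.find_spec hP
  have hmin : ∀ K' : Finset (X × ι), K' ⊂ K →
      ¬ conn H s (K' : Set (X × ι)) e₀.1 (op (s e₀.2) • e₀.1) := by
    intro K' hK' hconn
    have h1 : K'.card < Nat.find hP := by
      rw [← hcard]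
      exact Finset.card_lt_card hK'
    apply Nat.find_min hP h1
    refine ⟨K', rfl, ?_, hconn⟩
    exact (Finset.coe_subset.mpr hK'.subset).trans hKE
  have he₀K : e₀ ∉ K := fun h => (hKE (Finset.mem_coe.mpr h)).2 rfl
  obtain ⟨e, he, hmax⟩ := Finset.exists_max_image (insert e₀ K) ψ ⟨e₀, Finset.mem_insert_self _ _⟩
  have hlt : ∀ e' ∈ insert e₀ K, e' ≠ e → ψ e' < ψ e := by
    intro e' he' hne
    exact lt_of_le_of_ne (hmax e' he') (fun h => hne (hψ h))
  have heE : e ∈ E := by
    rcases Finset.mem_insert.mp he with rfl | h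
    · exact he₀
    · exact (hKE (Finset.mem_coe.mpr h)).1
  obtain ⟨φ, h1, h2, h3⟩ := hE e heE
  rcases Finset.mem_insert.mp he with rfl | heK
  · apply h3
    refine (hK.inv h1 ?_).symm
    intro e' he'
    refine h2 e' (hlt e' (Finset.mem_insert_of_mem he') ?_)
    rintro rfl
    exact he₀K he'
  · have hne : e₀ ≠ e := by
      rintro rfl
      exact he₀K heK
    set K' := K.erase e with hK'
    have hnot := hmin K' (Finset.erase_ssubset heK)
    have hinv : ∀ {a b : X}, conn H s (K' : Set (X × ι)) a b → (φ a ↔ φ b) := by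
      intro a b hab
      refine hab.inv h1 ?_
      intro e' he'
      rw [Finset.mem_coe, hK', Finset.mem_erase] at he'
      exact h2 e' (hlt e' (Finset.mem_insert_of_mem he'.2) he'.1)
    have h4 : φ (op (s e₀.2) • e₀.1) ↔ φ e₀.1 :=
      h2 e₀ (hlt e₀ (Finset.mem_insert_self _ _) hne)
    -- a function which is invariant along `K'` and `e` is invariant along `K`
    have hstep : ∀ a : X, (conn H s (K' : Set (X × ι)) a (op (s e.2) • e.1) ↔
        conn H s (K' : Set (X × ι)) a e.1) → ∀ {b c : X}, conn H s (K : Set (X × ι)) b c →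
        (conn H s (K' : Set (X × ι)) a b ↔ conn H s (K' : Set (X × ι)) a c) := by
      intro a ha b c hbc
      refine hbc.inv (conn_inv_H a) ?_
      intro e' he'
      by_cases hee : e' = e
      · subst hee
        exact ha
      · refine conn_inv_edge a e' ?_
        rw [Finset.mem_coe, hK', Finset.mem_erase]
        exact ⟨hee, he'⟩
    have hp : ¬ (conn H s (K' : Set (X × ι)) e₀.1 (op (s e.2) • e.1) ↔
        conn H s (K' : Set (X × ι)) e₀.1 e.1) := by
      intro h
      exact hnot ((hstep _ h hK).mp (Relation.EqvGen.refl _))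
    have hq : ¬ (conn H s (K' : Set (X × ι)) (op (s e₀.2) • e₀.1) (op (s e.2) • e.1) ↔
        conn H s (K' : Set (X × ι)) (op (s e₀.2) • e₀.1) e.1) := by
      intro h
      exact hnot (Relation.EqvGen.symm _ _ ((hstep _ h hK).mpr (Relation.EqvGen.refl _)))
    have aux : ∀ {p q : Prop}, ¬ (p ↔ q) → ¬ q → p := by
      intro p q h1 h2
      by_contra h3
      exact h1 ⟨fun h => absurd h h3, fun h => absurd h h2⟩
    by_cases hp1 : conn H s (K' : Set (X × ι)) e₀.1 e.1
    · by_cases hq1 : conn H s (K' : Set (X × ι)) (op (s e₀.2) • e₀.1) e.1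
      · exact hnot (Relation.EqvGen.trans _ _ _ hp1 (Relation.EqvGen.symm _ _ hq1))
      · have hq2 : conn H s (K' : Set (X × ι)) (op (s e₀.2) • e₀.1) (op (s e.2) • e.1) :=
          aux hq hq1
        exact h3 ((hinv hq2).symm.trans (h4.trans (hinv hp1)))
    · have hp2 : conn H s (K' : Set (X × ι)) e₀.1 (op (s e.2) • e.1) := aux hp hp1
      by_cases hq1 : conn H s (K' : Set (X × ι)) (op (s e₀.2) • e₀.1) e.1
      · exact h3 ((hinv hp2).symm.trans (h4.symm.trans (hinv hq1)))
      · have hq2 : conn H s (K' : Set (X × ι)) (op (s e₀.2) • e₀.1) (op (s e.2) • e.1) :=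
          aux hq hq1
        exact hnot (Relation.EqvGen.trans _ _ _ hp2 (Relation.EqvGen.symm _ _ hq2))

theorem bridges_of_lowFree {H : Subgroup G} {s : ι → G} {ψ : X × ι → ℝ}
    (hψ : Function.Injective ψ) {F : ι → Set X} (hF : ∀ i, ∀ y ∈ F i, LowFree H s ψ (y, i))
    (i : ι) : Bridges H (s i) (F i) := by
  intro y hy
  set E : Set (X × ι) := {e | e.1 ∈ F e.2} with hEdef
  have hE : ∀ e ∈ E, LowFree H s ψ e := fun e he => hF e.2 e.1 he
  have hnot := not_conn_of_lowFree hψ hE (e₀ := (y, i)) hy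
  refine ⟨fun z => conn H s (E \ {(y, i)}) y z, conn_inv_H y, ?_, ?_⟩
  · intro z hz hzy
    refine conn_inv_edge y (z, i) ⟨hz, ?_⟩
    intro h
    exact hzy (congrArg Prod.fst h)
  · intro h
    exact hnot (h.mpr (Relation.EqvGen.refl _))

end Conn

section Joins

variable {G X ι : Type*} [Group G] [MulAction Gᵐᵒᵖ X]

/-- In the Cayley graph modulo `H`, the edges `{w, w s_j}`, `(w, j) ∈ K`, join `1` and `s_i`;
expressed by functions. -/
def Joins (H : Subgroup G) (s : ι → G) (K : Finset (G × ι)) (i : ι) : Prop :=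
  ∀ u : G → ℝ, (∀ g, ∀ c ∈ H, u (g * c) = u g) → (∀ p ∈ K, u (p.1 * s p.2) = u p.1) →
    u (s i) = u 1

/-- The points with trivial stabiliser. -/
def freePts (G X : Type*) [Group G] [MulAction Gᵐᵒᵖ X] : Set X :=
  {x | ∀ g : G, g ≠ 1 → op g • x ≠ x}

/-- The edges of colour `i` of the free minimal spanning forest modulo `H`: no finite set `K` of
edges of smaller label joins the end points. -/
def freeEdges (H : Subgroup G) (s : ι → G) (ψ : X × ι → ℝ) (i : ι) : Set X :=
  {y | y ∈ freePts G X ∧ ∀ K : Finset (G × ι), Joins H s K i →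
    ¬ ∀ p ∈ K, ψ (op p.1 • y, p.2) < ψ (y, i)}

theorem lowFree_of_mem_freeEdges {H : Subgroup G} {s : ι → G} {ψ : X × ι → ℝ} {i : ι} {y : X}
    (hy : y ∈ freeEdges H s ψ i) : LowFree H s ψ (y, i) := by
  classical
  obtain ⟨hfree, hy⟩ := hy
  have hinj : ∀ a b : G, op a • y = op b • y → a = b := by
    intro a b h
    by_contra hne
    apply hfree (a * b⁻¹) (fun h' => hne (mul_inv_eq_one.mp h'))
    rw [amp_mul, h, ← amp_mul]
    simp
  set L : Set (X × ι) := {e | ψ e < ψ (y, i)} with hL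
  refine ⟨fun z => conn H s L y z, conn_inv_H y, fun e' he' => conn_inv_edge y e' he', ?_⟩
  intro h
  have hconn : conn H s L y (op (s i) • y) := h.mpr (Relation.EqvGen.refl _)
  obtain ⟨K', hK', hc⟩ := hconn.exists_finset
  let g : G × ι → X × ι := fun p => (op p.1 • y, p.2)
  have hg : Function.Injective g := by
    rintro ⟨a, j⟩ ⟨b, k⟩ hab
    have h1 : op a • y = op b • y := congrArg Prod.fst hab
    have h2 : j = k := congrArg Prod.snd hab
    rw [hinj a b h1, h2]
  let K : Finset (G × ι) := K'.preimage g hg.injOn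
  refine hy K ?_ ?_
  · intro u hu hK
    let φ : X → Prop := fun z => ∃ w : G, z = op w • y ∧ u w = u 1
    have hφ1 : ∀ z, ∀ c ∈ H, (φ (op c • z) ↔ φ z) := by
      intro z c hc
      constructor
      · rintro ⟨w, hw, hw'⟩
        refine ⟨w * c⁻¹, ?_, ?_⟩
        · rw [amp_mul, ← hw, ← amp_mul]; simp
        · rw [hu w c⁻¹ (H.inv_mem hc), hw']
      · rintro ⟨w, hw, hw'⟩
        refine ⟨w * c, ?_, ?_⟩
        · rw [amp_mul, hw]
        · rw [hu w c hc, hw']
    have hφ2 : ∀ e ∈ (K' : Set (X × ι)), (φ (op (s e.2) • e.1) ↔ φ e.1) := by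
      intro e he
      have hmem : ∀ w : G, e.1 = op w • y → u (w * s e.2) = u w := by
        intro w hw
        refine hK (w, e.2) ?_
        rw [Finset.mem_preimage]
        change (op w • y, e.2) ∈ K'
        rw [← hw]
        exact he
      constructor
      · rintro ⟨w, hw, hw'⟩
        have h1 : e.1 = op (w * (s e.2)⁻¹) • y := by
          rw [amp_mul, ← hw, ← amp_mul]; simp
        refine ⟨w * (s e.2)⁻¹, h1, ?_⟩
        have h2 := hmem _ h1
        rw [inv_mul_cancel_right] at h2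
        rw [← h2, hw']
      · rintro ⟨w, hw, hw'⟩
        refine ⟨w * s e.2, ?_, ?_⟩
        · rw [amp_mul, hw]
        · rw [hmem w hw, hw']
    have h3 : φ y ↔ φ (op (s i) • y) := hc.inv hφ1 hφ2
    obtain ⟨w, hw, hw'⟩ := h3.mp ⟨1, by simp, rfl⟩
    rw [hinj _ _ hw, hw']
  · intro p hp
    rw [Finset.mem_preimage] at hp
    exact hK' (Finset.mem_coe.mpr hp)

theorem bridges_freeEdges {H : Subgroup G} {s : ι → G} {ψ : X × ι → ℝ}
    (hψ : Function.Injective ψ) (i : ι) : Bridges H (s i) (freeEdges (X := X) H s ψ i) :=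
  bridges_of_lowFree hψ (fun _ _ hy => lowFree_of_mem_freeEdges hy) i

end Joins

section Meas

variable {G X ι : Type*} [Group G] [Countable G] [Countable ι] [MeasurableSpace X]
  [StandardBorelSpace X] [MulAction Gᵐᵒᵖ X]

theorem measurableSet_freePts (hm : ∀ g : G, Measurable fun x : X => op g • x) :
    MeasurableSet (freePts G X) := by
  have : freePts G X = ⋂ g : {g : G // g ≠ 1}, {x : X | op (g : G) • x = x}ᶜ := by
    ext x
    simp [freePts]
  rw [this]
  refine MeasurableSet.iInter fun g => (measurableSet_eq_fun (hm g) measurable_id).compl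

theorem measurableSet_freeEdges (hm : ∀ g : G, Measurable fun x : X => op g • x)
    (H : Subgroup G) (s : ι → G) {ψ : X × ι → ℝ} (hψ : ∀ i, Measurable fun x => ψ (x, i))
    (i : ι) : MeasurableSet (freeEdges (X := X) H s ψ i) := by
  have : freeEdges (X := X) H s ψ i = freePts G X ∩ ⋂ K : {K : Finset (G × ι) // Joins H s K i},
      (⋂ p ∈ (K : Finset (G × ι)), {y : X | ψ (op p.1 • y, p.2) < ψ (y, i)})ᶜ := by
    ext x
    simp only [freeEdges, Set.mem_ofPred_eq, Set.mem_inter_iff, Set.mem_iInter, Subtype.forall,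
      Set.mem_compl_iff]
  rw [this]
  refine (measurableSet_freePts hm).inter (MeasurableSet.iInter fun K => ?_)
  refine (Finset.measurableSet_biInter _ fun p _ => ?_).compl
  exact measurableSet_lt ((hψ p.2).comp (hm p.1)) (hψ i)

end Meas

end Pool.Agent.Forest46876e
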