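import Pool.Agent.Lib.MP_46876e_al.Fin
import Pool.Agent.Lib.MP_46876e_al.Labels

/-!
# From the dimension of cocycles to forest families (MP_46876e_al)
-/

open MeasureTheory MulOpposite
open scoped InnerProductSpace ENNReal Classical

set_option linter.all false

namespace Forest46876

open Pool.Agent.Forest46876e

section words

variable {G X : Type*} [Group G] [MulAction Gᵐᵒᵖ X] (H : Subgroup G) (s : G)

lemma sh_append (g : G) (l l' : List (G × ℝ)) : sh g (l ++ l') = sh g l ++ sh g l' := by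
  simp [sh]

lemma sh_sh (g h : G) (l : List (G × ℝ)) : sh g (sh h l) = sh (g * h) l := by
  simp [sh, mul_assoc]

lemma sh_one (l : List (G × ℝ)) : sh (1 : G) l = l := by
  simp [sh]

lemma wval_nil : wval H s [] = 1 := by simp [wval]

lemma wval_append (w w' : List (H ⊕ Bool)) : wval H s (w ++ w') = wval H s w * wval H s w' := by
  simp [wval]

lemma posl_append (w w' : List (H ⊕ Bool)) :
    posl H s (w ++ w') = posl H s w ++ sh (wval H s w) (posl H s w') := by
  induction w with
  | nil => simp [posl, wval_nil, sh_one]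
  | cons a w ih =>
    rcases a with k | (_ | _)
    · simp only [List.cons_append, posl, ih, sh_append, sh_sh]
      simp [wval, lval]
    · simp only [List.cons_append, posl, ih, sh_append, sh_sh]
      simp [wval, lval]
    · simp only [List.cons_append, posl, ih, sh_append, sh_sh]
      simp [wval, lval]

/-- a point without witness word is a free edge -/
lemma freeSet_subset (ψ : X → ℝ) {y : X} (hy : y ∈ freeSet H s ψ) (hf : y ∈ freePts G X) :
    y ∈ freeEdges (X := X) H (fun _ : Unit => s) (fun q => ψ q.1) () := by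
  refine ⟨hf, fun K hK hlt => ?_⟩
  set D : Set G := {g | ∃ w, wval H s w = g ∧ ∀ q ∈ posl H s w, ∃ p ∈ K, p.1 = q.1} with hD
  have h1 : (1 : G) ∈ D := ⟨[], wval_nil H s, by simp [posl]⟩
  have hc : ∀ g, ∀ c ∈ H, g ∈ D → g * c ∈ D := by
    rintro g c hc ⟨w, rfl, hw⟩
    refine ⟨w ++ [Sum.inl ⟨c, hc⟩], ?_, ?_⟩
    · rw [wval_append]; simp [wval, lval]
    · rw [posl_append]
      simp only [posl, sh, List.map_nil, List.append_nil]
      exact hw
  have hp : ∀ p ∈ K, p.1 ∈ D → p.1 * s ∈ D := by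
    rintro p hp ⟨w, hwv, hw⟩
    refine ⟨w ++ [Sum.inr true], ?_, ?_⟩
    · rw [wval_append, hwv]; simp [wval, lval]
    · rw [posl_append, hwv]
      intro q hq
      rw [List.mem_append] at hq
      rcases hq with hq | hq
      · exact hw q hq
      · simp only [posl, sh, List.map_cons, List.map_nil, List.mem_singleton] at hq
        refine ⟨p, hp, ?_⟩
        rw [hq]; simp
  have hn : ∀ p ∈ K, p.1 * s ∈ D → p.1 ∈ D := by
    rintro p hp ⟨w, hwv, hw⟩
    refine ⟨w ++ [Sum.inr false], ?_, ?_⟩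
    · rw [wval_append, hwv]; simp [wval, lval]
    · rw [posl_append, hwv]
      intro q hq
      rw [List.mem_append] at hq
      rcases hq with hq | hq
      · exact hw q hq
      · simp only [posl, sh, List.map_cons, List.map_nil, List.mem_singleton] at hq
        refine ⟨p, hp, ?_⟩
        rw [hq]; simp
  have h2 : s ∈ D := by
    have h3 := hK (D.indicator fun _ => (1 : ℝ)) ?_ ?_
    · by_contra hs
      rw [Set.indicator_of_notMem hs, Set.indicator_of_mem h1] at h3
      exact zero_ne_one h3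
    · intro g c hcH
      by_cases hg : g ∈ D
      · rw [Set.indicator_of_mem hg, Set.indicator_of_mem (hc g c hcH hg)]
      · have hg' : g * c ∉ D := fun h => hg (by
          have := hc _ c⁻¹ (H.inv_mem hcH) h
          rwa [mul_inv_cancel_right] at this)
        rw [Set.indicator_of_notMem hg, Set.indicator_of_notMem hg']
    · intro p hpK
      by_cases hg : p.1 ∈ D
      · rw [Set.indicator_of_mem hg, Set.indicator_of_mem (hp p hpK hg)]
      · have hg' : p.1 * s ∉ D := fun h => hg (hn p hpK h)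
        rw [Set.indicator_of_notMem hg, Set.indicator_of_notMem hg']
  obtain ⟨w, hwv, hw⟩ := h2
  refine hy w hwv fun q hq => ?_
  obtain ⟨p, hpK, hpq⟩ := hw q hq
  rw [← hpq]
  exact hlt p hpK

end words

/-- an injective measurable label with values in the unit interval -/
lemma exists_label (X : Type*) [MeasurableSpace X] [StandardBorelSpace X] :
    ∃ ψ : X → ℝ, Measurable ψ ∧ Function.Injective ψ ∧ (∀ y, 0 ≤ ψ y) ∧ ∀ y, ψ y < 1 := by
  obtain ⟨f, hf⟩ := exists_measurableEmbedding_real X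
  have hexp : ∀ t : ℝ, 0 < 1 + Real.exp t := fun t => by positivity
  refine ⟨fun x => (1 + Real.exp (f x))⁻¹, ?_, ?_, ?_, ?_⟩
  · exact (measurable_const.add (Real.measurable_exp.comp hf.measurable)).inv
  · intro x y hxy
    have h1 : (1 + Real.exp (f x)) = 1 + Real.exp (f y) := inv_injective hxy
    have h2 : Real.exp (f x) = Real.exp (f y) := add_left_cancel h1
    exact hf.injective (Real.exp_injective h2)
  · intro y
    exact (inv_pos.2 (hexp _)).le
  · intro y
    have h1 := Real.exp_pos (f y)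
    exact inv_lt_one_of_one_lt₀ (by linarith)

section forest

variable {G X : Type*} [Group G] [Countable G] [MeasurableSpace G] [DiscreteMeasurableSpace G]
  [MeasurableSpace X] [StandardBorelSpace X] [MulAction Gᵐᵒᵖ X] [MeasurableConstSMul Gᵐᵒᵖ X]
  (μ : Measure X) [SMulInvariantMeasure Gᵐᵒᵖ X μ] [IsProbabilityMeasure μ]

/-- the forest family given by cocycles vanishing on `H` -/
theorem forest_of_dim (hfree : ∀ᵐ x ∂μ, x ∈ freePts G X) (H : Subgroup G) (s : G) :
    ∃ A : G → Set X, IsForestFamily A ∧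
      (ENat.card H : ℝ≥0∞) * ENNReal.ofReal ((ZM μ H (fun _ : Unit => s)).dim) ^ 2
        ≤ ∑' g, μ (A g) ^ 2 := by
  obtain ⟨ψ, hψm, hψi, hψ0, hψ1⟩ := exists_label X
  set B : Set X := freeEdges (X := X) H (fun _ : Unit => s) (fun q => ψ q.1) () with hB
  have hm : ∀ g : G, Measurable fun x : X => op g • x := fun g => measurable_const_smul (op g)
  have hmp : ∀ g : G, MeasurePreserving (fun x : X => op g • x) μ μ := fun g =>
    measurePreserving_smul (op g) μ
  have hBm : MeasurableSet B := measurableSet_freeEdges hm H _ (fun _ => hψm) ()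
  have hbr : Bridges H s B := by
    refine bridges_freeEdges (s := fun _ : Unit => s) ?_ ()
    rintro ⟨x, i⟩ ⟨y, j⟩ hxy
    have h1 : x = y := hψi hxy
    rw [h1]
  obtain ⟨A, hA, hle⟩ := exists_forest_of_bridges μ H hm (fun g _ => hmp g) s B hBm (fun x hx => hx.1) hbr
  refine ⟨A, hA, le_trans ?_ hle⟩
  gcongr
  have h1 : (ZM μ H (fun _ : Unit => s)).dim ≤ μ.real (freeSet H s ψ) :=
    dim_ZM_le_free H s hψm hψ0 hψ1 (by
      filter_upwards [hfree] with y hy g hg h
      exact hy g hg (hψi h))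
  have h2 : μ (freeSet H s ψ) ≤ μ B := by
    refine measure_mono_ae ?_
    filter_upwards [hfree] with y hy hyF
    exact freeSet_subset H s ψ hyF hy
  calc ENNReal.ofReal ((ZM μ H (fun _ : Unit => s)).dim)
      ≤ ENNReal.ofReal (μ.real (freeSet H s ψ)) := ENNReal.ofReal_le_ofReal h1
    _ = μ (freeSet H s ψ) := ENNReal.ofReal_toReal (measure_ne_top _ _)
    _ ≤ μ B := h2

/-- infinitely many edges at full scale -/
theorem forest_of_dim_infinite (hfree : ∀ᵐ x ∂μ, x ∈ freePts G X) {d : ℕ} (H : Subgroup G)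
    [Infinite H] (S : Fin d → G) (hpos : 0 < (ZM μ H S).dim) :
    ∃ A : G → Set X, IsForestFamily A ∧ ∑' g, μ (A g) ^ 2 = ∞ := by
  obtain ⟨H', s, hle, hd⟩ := exists_step H S hpos le_rfl
  obtain ⟨A, hA, hsum⟩ := forest_of_dim μ hfree H' s
  refine ⟨A, hA, ?_⟩
  have hd0 : d ≠ 0 := by
    rintro rfl
    have h1 : (ZM μ H S).dim = 0 := by simp [VMod.dim]
    exact absurd hpos (not_lt.2 h1.le)
  have hpos' : 0 < (ZM μ H' (fun _ : Unit => s)).dim :=
    lt_of_lt_of_le (div_pos hpos (Nat.cast_pos.2 (Nat.pos_of_ne_zero hd0))) hd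
  have hinf : Infinite H' := Infinite.of_injective (Subgroup.inclusion hle)
    (Subgroup.inclusion_injective hle)
  have h2 : (ENat.card H' : ℝ≥0∞) = ∞ := by
    rw [ENat.card_eq_top_of_infinite]; rfl
  rw [h2, ENNReal.top_mul] at hsum
  · exact top_le_iff.1 hsum
  · exact pow_ne_zero 2 (by rw [Ne, ENNReal.ofReal_eq_zero, not_le]; exact hpos')

/-- large mass from large finite groups -/
theorem forest_of_dim_card (hfree : ∀ᵐ x ∂μ, x ∈ freePts G X) {d : ℕ} (S : Fin d → G) {δ : ℝ}
    (hδ : 0 < δ) (h : ∀ n : ℕ, ∃ H : Subgroup G, (n : ℕ∞) ≤ ENat.card H ∧ δ ≤ (ZM μ H S).dim)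
    (N : ℕ) :
    ∃ A : G → Set X, IsForestFamily A ∧ (N : ℝ≥0∞) < ∑' g, μ (A g) ^ 2 := by
  have hd0 : d ≠ 0 := by
    rintro rfl
    obtain ⟨H, _, h2⟩ := h 0
    have h1 : (ZM μ H S).dim = 0 := by simp [VMod.dim]
    exact absurd hδ (not_lt.2 (h2.trans h1.le))
  have hdd : (0 : ℝ) < δ / d := div_pos hδ (Nat.cast_pos.2 (Nat.pos_of_ne_zero hd0))
  have hq : (0 : ℝ) < (δ / d) ^ 2 := by positivity
  obtain ⟨n, hn⟩ := exists_nat_gt ((N : ℝ) / (δ / d) ^ 2)
  rw [div_lt_iff₀ hq] at hn
  obtain ⟨H, hcard, hdim⟩ := h n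
  obtain ⟨H', s, hle, hd⟩ := exists_step H S hδ hdim
  obtain ⟨A, hA, hsum⟩ := forest_of_dim μ hfree H' s
  refine ⟨A, hA, lt_of_lt_of_le ?_ hsum⟩
  have h1 : (n : ℝ≥0∞) ≤ (ENat.card H' : ℝ≥0∞) := by
    have h2 : ENat.card H ≤ ENat.card H' := ENat.card_le_card_of_injective
      (Subgroup.inclusion_injective hle)
    have h3 : ((n : ℕ∞) : ℝ≥0∞) ≤ (ENat.card H' : ℝ≥0∞) := by
      exact_mod_cast hcard.trans h2
    simpa using h3
  calc (N : ℝ≥0∞) = ENNReal.ofReal N := by simp
    _ < ENNReal.ofReal (n * (δ / d) ^ 2) := by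
        rw [ENNReal.ofReal_lt_ofReal_iff_of_nonneg (by positivity)]
        exact hn
    _ = (n : ℝ≥0∞) * ENNReal.ofReal (δ / d) ^ 2 := by
        rw [ENNReal.ofReal_mul (by positivity), ENNReal.ofReal_pow hdd.le]
        simp
    _ ≤ _ := by
        gcongr

end forest

end Forest46876
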