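import Pool.Agent.Lib.MP_46876e_al.Final1

/-!
# Forest families from the first `L²`-Betti number (MP_46876e_al)
-/

open MeasureTheory MulOpposite
open scoped InnerProductSpace ENNReal Classical

set_option linter.all false

namespace Forest46876

open Pool.Agent.Forest46876e

section dims

variable {G X : Type*} [Group G] [Countable G] [MeasurableSpace G] [DiscreteMeasurableSpace G]
  [MeasurableSpace X] [MulAction Gᵐᵒᵖ X] [MeasurableConstSMul Gᵐᵒᵖ X]
  {μ : Measure X} [SMulInvariantMeasure Gᵐᵒᵖ X μ] [IsProbabilityMeasure μ]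

lemma gen_bot_bot_range {κ : Type*} {H : Subgroup G} (T : κ → G)
    (hT : gen (⊥ : Subgroup G) T = H) {ι : Type*} (S : ι → G) {L : Subgroup G}
    (hS : gen (⊥ : Subgroup G) S = L) (hHL : H ≤ L) (j : κ) : T j ∈ gen (⊥ : Subgroup G) S := by
  rw [hS]; exact hHL (hT ▸ mem_gen _ _ j)

variable (μ) in
include μ in
/-- a group with positive Betti number is infinite -/
lemma infinite_of_betti {d : ℕ} {L : Subgroup G} (S : Fin d → L)
    (hS : Subgroup.closure (Set.range S) = ⊤) (hβ : 0 < bettiProj S) : Infinite L := by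
  by_contra hfin
  rw [not_infinite_iff_finite] at hfin
  haveI : Fintype L := Fintype.ofFinite L
  have h1 := dim_HDX_finite μ L (fun i => (S i : G)) (gen_bot_eq S hS)
  rw [dim_HDX S hS] at h1
  exact hβ.ne' h1

variable (μ) in
/-- cocycles vanishing on a subgroup generated by `T` -/
lemma betti_le_add {d : ℕ} {L : Subgroup G} (S : Fin d → L)
    (hS : Subgroup.closure (Set.range S) = ⊤) (hβ : 0 < bettiProj S) {κ : Type*} [Fintype κ]
    {H : Subgroup G} (hHL : H ≤ L) (T : κ → G) (hT : gen (⊥ : Subgroup G) T = H) :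
    bettiProj S + 1 ≤ (ZM μ H (fun i => (S i : G))).dim + (ZM μ ⊥ T).dim := by
  haveI := infinite_of_betti μ S hS hβ
  haveI : Infinite (gen (⊥ : Subgroup G) (fun i => (S i : G))) := by
    rw [gen_bot_eq S hS]; infer_instance
  have h1 := HDX_add_one_le (μ := μ) (fun i => (S i : G))
  rw [dim_HDX S hS] at h1
  have h2 := dim_ZM_le (μ := μ) ⊥ (fun i => (S i : G)) T
    (gen_bot_bot_range T hT _ (gen_bot_eq S hS) hHL)
  rw [hT] at h2
  linarith

lemma gen_bot_self (K : Subgroup G) : gen (⊥ : Subgroup G) (fun k : K => (k : G)) = K := by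
  refine le_antisymm (gen_le bot_le fun k => k.2) fun k hk => ?_
  exact mem_gen (⊥ : Subgroup G) (fun k : K => (k : G)) ⟨k, hk⟩

variable (μ) in
/-- cocycles vanishing on a finite subgroup -/
lemma betti_le_finite {d : ℕ} {L : Subgroup G} (S : Fin d → L)
    (hS : Subgroup.closure (Set.range S) = ⊤) (hβ : 0 < bettiProj S)
    {K : Subgroup G} [Fintype K] (hKL : K ≤ L) :
    bettiProj S + (Fintype.card K : ℝ)⁻¹ ≤ (ZM μ K (fun i => (S i : G))).dim := by
  have h1 := betti_le_add μ S hS hβ hKL (fun k : K => (k : G)) (gen_bot_self K)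
  have h2 := dim_ZM_finite_le μ K
  linarith

end dims

section main

variable {G X : Type*} [Group G] [Countable G] [MeasurableSpace G] [DiscreteMeasurableSpace G]
  [MeasurableSpace X] [StandardBorelSpace X] [MulAction Gᵐᵒᵖ X] [MeasurableConstSMul Gᵐᵒᵖ X]
  (μ : Measure X) [SMulInvariantMeasure Gᵐᵒᵖ X μ] [IsProbabilityMeasure μ]
  (hfree : ∀ᵐ x ∂μ, x ∈ freePts G X)
  {d : ℕ} {L : Subgroup G} (S : Fin d → L)
  (hS : Subgroup.closure (Set.range S) = ⊤) (hβ : 0 < bettiProj S)

include hfree hS hβ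

/-- Betti number at least one -/
theorem case_one (h1 : 1 ≤ bettiProj S) :
    ∃ A : G → Set X, IsForestFamily A ∧ ∑' g, μ (A g) ^ 2 = ∞ := by
  haveI hLinf := infinite_of_betti μ S hS hβ
  set S' : Fin d → G := fun i => (S i : G) with hS'
  have hgen : gen (⊥ : Subgroup G) S' = L := gen_bot_eq S hS
  -- first infinite member of the chain
  have hex : ∃ j, Infinite (chain (⊥ : Subgroup G) S' j) :=
    ⟨d, by rw [chain_last, hgen]; exact hLinf⟩
  classical
  set j := Nat.find hex with hj
  have hjinf : Infinite (chain (⊥ : Subgroup G) S' j) := Nat.find_spec hex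
  have hj0 : j ≠ 0 := by
    intro h0
    rw [h0, chain_zero] at hjinf
    exact (not_finite (⊥ : Subgroup G)).elim
  obtain ⟨i, hi⟩ := Nat.exists_eq_succ_of_ne_zero hj0
  have hid : i < d := by
    have h2 : j ≤ d := Nat.find_min' hex (by rw [chain_last, hgen]; exact hLinf)
    omega
  have hifin : Finite (chain (⊥ : Subgroup G) S' i) := by
    rw [← not_infinite_iff_finite]
    exact Nat.find_min hex (by omega)
  haveI : Fintype (chain (⊥ : Subgroup G) S' i) := Fintype.ofFinite _
  have hKL : chain (⊥ : Subgroup G) S' i ≤ L := by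
    rw [← hgen]; exact chain_le_gen _ _ _
  have h2 := betti_le_finite μ S hS hβ hKL
  have h3 : chain (⊥ : Subgroup G) S' (i + 1)
      = gen (chain (⊥ : Subgroup G) S' i) (fun _ : Unit => S' ⟨i, hid⟩) :=
    (chain_succ (⊥ : Subgroup G) S' ⟨i, hid⟩).symm
  have h4 := dim_ZM_le (μ := μ) (chain (⊥ : Subgroup G) S' i) S'
    (fun _ : Unit => S' ⟨i, hid⟩) (fun _ => mem_gen _ _ _)
  rw [← h3] at h4
  have h5 := dim_le_card (ZM μ (chain (⊥ : Subgroup G) S' i) (fun _ : Unit => S' ⟨i, hid⟩))
  simp only [Fintype.card_unit, Nat.cast_one] at h5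
  have h6 : (0 : ℝ) < (Fintype.card (chain (⊥ : Subgroup G) S' i) : ℝ)⁻¹ :=
    inv_pos.2 (Nat.cast_pos.2 Fintype.card_pos)
  haveI : Infinite (chain (⊥ : Subgroup G) S' (i + 1)) := by
    have h7 : j = i + 1 := hi
    rw [← h7]; exact hjinf
  refine forest_of_dim_infinite μ hfree (chain (⊥ : Subgroup G) S' (i + 1)) S' ?_
  linarith

/-- an infinite subgroup with smaller Betti number -/
theorem case_sub {H : Subgroup G} (hHL : H ≤ L) [Infinite H] {m : ℕ} (T : Fin m → H)
    (hT : Subgroup.closure (Set.range T) = ⊤) (hlt : bettiProj T < bettiProj S) :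
    ∃ A : G → Set X, IsForestFamily A ∧ ∑' g, μ (A g) ^ 2 = ∞ := by
  have h1 := betti_le_add μ S hS hβ hHL (fun i => (T i : G)) (gen_bot_eq T hT)
  have h2 := dim_ZM_le_HDX (μ := μ) (fun i => (T i : G))
  rw [dim_HDX T hT] at h2
  exact forest_of_dim_infinite μ hfree H (fun i => (S i : G)) (by linarith)

/-- an element of infinite order -/
theorem case_order {g : G} (hg : g ∈ L) (hord : ¬ IsOfFinOrder g) :
    ∃ A : G → Set X, IsForestFamily A ∧ ∑' g, μ (A g) ^ 2 = ∞ := by
  set H : Subgroup G := gen (⊥ : Subgroup G) (fun _ : Unit => g) with hH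
  have hgH : g ∈ H := mem_gen _ _ ()
  have hHL : H ≤ L := gen_le bot_le fun _ => hg
  haveI : Infinite H := by
    have h1 : Infinite (Subgroup.zpowers g) := Set.infinite_coe_iff.2 (infinite_zpowers.2 hord)
    exact Infinite.of_injective (Subgroup.inclusion (Subgroup.zpowers_le.2 hgH))
      (Subgroup.inclusion_injective _)
  have h1 := betti_le_add μ S hS hβ hHL (fun _ : Unit => g) rfl
  have h2 := dim_le_card (ZM μ (⊥ : Subgroup G) (fun _ : Unit => g))
  simp only [Fintype.card_unit, Nat.cast_one] at h2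
  exact forest_of_dim_infinite μ hfree H (fun i => (S i : G)) (by linarith)

/-- large finite subgroups -/
theorem case_finite (h : ∀ n : ℕ, ∃ K : Subgroup G, K ≤ L ∧ Finite K ∧ n ≤ Nat.card K) (N : ℕ) :
    ∃ A : G → Set X, IsForestFamily A ∧ (N : ℝ≥0∞) < ∑' g, μ (A g) ^ 2 := by
  refine forest_of_dim_card μ hfree (fun i => (S i : G)) hβ (fun n => ?_) N
  obtain ⟨K, hKL, hfin, hn⟩ := h n
  haveI : Fintype K := Fintype.ofFinite K
  refine ⟨K, ?_, ?_⟩
  · rw [ENat.card_eq_coe_natCard]
    exact_mod_cast hn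
  · have h1 := betti_le_finite μ S hS hβ hKL
    have h2 : (0 : ℝ) ≤ (Fintype.card K : ℝ)⁻¹ := by positivity
    linarith

end main

end Forest46876
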