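import Pool.Agent.Lib.MP_46876e_al.Mesh
import Pool.Agent.Lib.MP_46876e_al.Betti

/-!
# Harmonic Dirichlet gradients and the first `L²`-Betti number (MP_46876e_al)
-/

open MeasureTheory MulOpposite
open scoped InnerProductSpace ENNReal Classical

set_option linter.all false

namespace Forest46876

open Pool.Agent.Forest46876e

variable {G X : Type*} [Group G] [Countable G] [MeasurableSpace G] [DiscreteMeasurableSpace G]
  [MeasurableSpace X] [MulAction Gᵐᵒᵖ X] [MeasurableConstSMul Gᵐᵒᵖ X]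
  {μ : Measure X} [SMulInvariantMeasure Gᵐᵒᵖ X μ] [IsProbabilityMeasure μ]
  {ι κ : Type*} [Fintype ι] [Fintype κ]

/-! ### basis vectors -/

variable (μ) in
/-- `1 ⊗ δ_h` -/
noncomputable def eb (h : G) : H0 G μ := cU μ h (v0 μ)

lemma eb_ae (h : G) : (eb μ h : H0 G μ) =ᵐ[nu G μ] fun p => if p.2 = h then 1 else 0 := by
  filter_upwards [co_ae (tU h) (mp_tU μ h) (v0 μ),
    (mp_tU μ h).quasiMeasurePreserving.ae (v0_ae (G := G) μ)] with p h2 h3
  have h5 : (eb μ h : H0 G μ) p = if (tU h p).2 = 1 then 1 else 0 := h2.trans h3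
  have h6 : (tU h p).2 = 1 ↔ p.2 = h := by
    simp only [tU]; rw [inv_mul_eq_one]; exact eq_comm
  rw [h5]
  by_cases hp : p.2 = h
  · rw [if_pos (h6.2 hp), if_pos hp]
  · rw [if_neg (fun h' => hp (h6.1 h')), if_neg hp]

lemma eb_one : (eb μ 1 : H0 G μ) = v0 μ := by
  refine Lp.ext ?_
  filter_upwards [eb_ae (μ := μ) (1 : G), v0_ae (G := G) μ] with p h1 h2
  rw [h1, h2]

lemma cR_eb (g h : G) : cR μ g (eb μ h) = eb μ (h * g⁻¹) := by
  refine Lp.ext ?_
  filter_upwards [co_ae (tR g) (mp_tR μ g) (eb μ h), eb_ae (μ := μ) (h * g⁻¹),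
    (mp_tR μ g).quasiMeasurePreserving.ae (eb_ae (μ := μ) h)] with p h1 h2 h3
  have h4 : (cR μ g (eb μ h) : H0 G μ) p = if (tR g p).2 = h then 1 else 0 := h1.trans h3
  rw [h4, h2]
  have h5 : (tR g p).2 = h ↔ p.2 = h * g⁻¹ := by
    simp only [tR]; exact eq_mul_inv_iff_mul_eq.symm
  by_cases hp : p.2 = h * g⁻¹
  · rw [if_pos (h5.2 hp), if_pos hp]
  · rw [if_neg (fun h' => hp (h5.1 h')), if_neg hp]

lemma norm_eb (h : G) : ‖(eb μ h : H0 G μ)‖ = 1 := by
  rw [eb, cU, co_norm, norm_v0]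

lemma inner_eb_ne {g h : G} (hgh : g ≠ h) : ⟪(eb μ g : H0 G μ), eb μ h⟫_ℝ = 0 := by
  rw [L2.inner_def]
  rw [← integral_zero (X × G) ℝ (μ := nu G μ)]
  refine integral_congr_ae ?_
  filter_upwards [eb_ae (μ := μ) g, eb_ae (μ := μ) h] with p h1 h2
  rw [h1, h2]
  by_cases hp : p.2 = g
  · rw [if_neg (fun h' => hgh (hp.symm.trans h'))]; simp
  · rw [if_neg hp]; simp

lemma orthonormal_eb : Orthonormal ℝ (eb μ : G → H0 G μ) :=
  ⟨norm_eb, fun _ _ h => inner_eb_ne h⟩

/-! ### functions not depending on the base point -/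

lemma memLp_count_iff (f : G → ℝ) : MemLp f 2 (Measure.count : Measure G) ↔
    Summable fun k => f k ^ 2 := by
  rw [memLp_two_iff_integrable_sq (measurable_of_countable f).aestronglyMeasurable,
    integrable_count_iff]
  refine summable_congr fun k => ?_
  rw [Real.norm_of_nonneg (sq_nonneg _)]

lemma mp_snd : MeasurePreserving (Prod.snd : X × G → G) (nu G μ) Measure.count :=
  measurePreserving_snd

variable (μ) in
/-- embedding of `ℓ²(G)` -/
noncomputable def emb (f : G → ℝ) (hf : MemLp f 2 (Measure.count : Measure G)) : H0 G μ :=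
  (hf.comp_measurePreserving (mp_snd (μ := μ))).toLp _

lemma emb_ae (f : G → ℝ) (hf : MemLp f 2 (Measure.count : Measure G)) :
    emb μ f hf =ᵐ[nu G μ] fun p => f p.2 := MemLp.coeFn_toLp _

lemma emb_congr {f g : G → ℝ} {hf : MemLp f 2 (Measure.count : Measure G)}
    {hg : MemLp g 2 (Measure.count : Measure G)} (h : f = g) : emb μ f hf = emb μ g hg := by
  subst h; rfl

lemma memLp_shift {f : G → ℝ} (hf : MemLp f 2 (Measure.count : Measure G)) (g : G) :
    MemLp (fun k => f (k * g)) 2 (Measure.count : Measure G) :=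
  hf.comp_measurePreserving (mp_count (Equiv.mulRight g))

lemma cR_emb (g : G) (f : G → ℝ) (hf : MemLp f 2 (Measure.count : Measure G)) :
    cR μ g (emb μ f hf) = emb μ (fun k => f (k * g)) (memLp_shift hf g) := by
  refine Lp.ext ?_
  filter_upwards [co_ae (tR g) (mp_tR μ g) (emb μ f hf),
    (mp_tR μ g).quasiMeasurePreserving.ae (emb_ae f hf),
    emb_ae (μ := μ) (fun k => f (k * g)) (memLp_shift hf g)] with p h1 h2 h3
  have h4 : (cR μ g (emb μ f hf) : H0 G μ) p = f (tR g p).2 := h1.trans h2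
  rw [h4, h3]; rfl

lemma emb_add (f g : G → ℝ) (hf : MemLp f 2 (Measure.count : Measure G))
    (hg : MemLp g 2 (Measure.count : Measure G)) :
    emb μ (fun k => f k + g k) (hf.add hg) = emb μ f hf + emb μ g hg := by
  refine Lp.ext ?_
  filter_upwards [emb_ae (μ := μ) f hf, emb_ae (μ := μ) g hg,
    emb_ae (μ := μ) (fun k => f k + g k) (hf.add hg),
    Lp.coeFn_add (emb μ f hf) (emb μ g hg)] with p h1 h2 h3 h4
  rw [h3, h4, Pi.add_apply, h1, h2]

lemma inner_emb_eb (f : G → ℝ) (hf : MemLp f 2 (Measure.count : Measure G)) (h : G) :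
    ⟪emb μ f hf, eb μ h⟫_ℝ = f h := by
  rw [L2.inner_def]
  have h1 : ∫ p, ⟪(emb μ f hf : H0 G μ) p, (eb μ h : H0 G μ) p⟫_ℝ ∂(nu G μ)
      = ∫ p in Set.univ ×ˢ ({h} : Set G), f h ∂(nu G μ) := by
    rw [← integral_indicator (MeasurableSet.univ.prod (measurableSet_singleton h))]
    refine integral_congr_ae ?_
    filter_upwards [emb_ae (μ := μ) f hf, eb_ae (μ := μ) h] with p h2 h3
    rw [h2, h3]
    by_cases hp : p.2 = h
    · rw [if_pos hp, Set.indicator_of_mem (by exact ⟨trivial, hp⟩), hp]; simp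
    · rw [if_neg hp, Set.indicator_of_notMem (fun h' => hp h'.2)]; simp
  rw [h1, setIntegral_const]
  simp [Measure.real, Measure.prod_prod]

lemma norm_emb (f : G → ℝ) (hf : MemLp f 2 (Measure.count : Measure G)) :
    ‖emb μ f hf‖ ^ 2 = ∑' k, f k ^ 2 := by
  rw [← real_inner_self_eq_norm_sq, L2.inner_def]
  have h1 : ∫ p, ⟪(emb μ f hf : H0 G μ) p, (emb μ f hf : H0 G μ) p⟫_ℝ ∂(nu G μ)
      = ∫ p, (fun k => f k ^ 2) (Prod.snd p) ∂(nu G μ) := by
    refine integral_congr_ae ?_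
    filter_upwards [emb_ae (μ := μ) f hf] with p h2
    rw [h2, real_inner_self_eq_norm_sq, Real.norm_eq_abs, sq_abs]
  have h2 : ∫ p, (fun k => f k ^ 2) (Prod.snd p) ∂(nu G μ)
      = ∫ k, f k ^ 2 ∂(Measure.count : Measure G) := by
    have := (mp_snd (G := G) (μ := μ)).map_eq
    conv_rhs => rw [← this]
    rw [integral_map measurable_snd.aemeasurable (measurable_of_countable _).aestronglyMeasurable]
  rw [h1, h2, integral_countable (by
    rw [← memLp_two_iff_integrable_sq (measurable_of_countable f).aestronglyMeasurable]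
    exact hf)]
  refine tsum_congr fun k => ?_
  simp [Measure.real]

/-! ### gradient and divergence -/

variable (μ) in
/-- gradient -/
noncomputable def dOp (S : ι → G) : HI Unit (H0 G μ) →L[ℝ] HI ι (H0 G μ) :=
  ∑ i, (inc i) ∘L (cR μ (S i) - ContinuousLinearMap.id ℝ _) ∘L (cmp ())

lemma dOp_apply (S : ι → G) (θ : HI Unit (H0 G μ)) (j : ι) :
    dOp μ S θ j = cR μ (S j) (θ ()) - θ () := by
  have h1 : dOp μ S θ = ∑ j, (inc j (cR μ (S j) (θ ()) - θ ()) : HI ι (H0 G μ)) := by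
    simp [dOp, ContinuousLinearMap.sum_apply]
  have h2 : ∑ j, (inc j (cR μ (S j) (θ ()) - θ ()) : HI ι (H0 G μ))
      = WithLp.toLp 2 (fun j => cR μ (S j) (θ ()) - θ ()) :=
    sum_inc (WithLp.toLp 2 (fun j => cR μ (S j) (θ ()) - θ ()) : HI ι (H0 G μ))
  rw [h1, h2]

lemma dOp_int (S : ι → G) : (sys μ : TrSys (H0 G μ)).IsInt (dOp μ S) := by
  intro u hu f
  ext1 j
  show dOp μ S (lift u f) j = u (dOp μ S f j)
  rw [dOp_apply, dOp_apply, map_sub, ← (com_cR (μ := μ) (S j)).comm u hu]; rfl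

variable (μ) in
/-- divergence -/
noncomputable def divOp (S : ι → G) : HI ι (H0 G μ) →L[ℝ] HI Unit (H0 G μ) :=
  ContinuousLinearMap.adjoint (dOp μ S)

lemma divOp_int (S : ι → G) : (sys μ : TrSys (H0 G μ)).IsInt (divOp μ S) := (dOp_int S).adj

lemma divOp_apply (S : ι → G) (F : HI ι (H0 G μ)) :
    divOp μ S F () = ∑ i, (cR μ (S i)⁻¹ (F i) - F i) := by
  refine ext_inner_right ℝ fun f => ?_
  rw [← inner_inc_right (ι := Unit) () f (divOp μ S F), divOp,
    ContinuousLinearMap.adjoint_inner_left, PiLp.inner_apply, sum_inner]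
  refine Finset.sum_congr rfl fun i _ => ?_
  rw [dOp_apply, inc_same, inner_sub_right, inner_sub_left, cR_adj, inv_inv]

variable (μ) in
/-- harmonic gradients over `X` -/
noncomputable def HDX (S : ι → G) : VMod (sys μ : TrSys (H0 G μ)) ι :=
  (ZM μ ⊥ S).ker (divOp μ S) (divOp_int S)

lemma dim_ZM_le_HDX (S : ι → G) : (ZM μ ⊥ S).dim ≤ (HDX μ S).dim + 1 := by
  have h1 := VMod.dim_le_ker_add (ZM μ ⊥ S) (VMod.top (sys μ : TrSys (H0 G μ)) Unit)
    (divOp μ S) (divOp_int S) (fun f _ => trivial)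
  have h2 := dim_le_card (VMod.top (sys μ : TrSys (H0 G μ)) Unit)
  simp only [Fintype.card_unit, Nat.cast_one] at h2
  have h3 : (HDX μ S).dim = ((ZM μ ⊥ S).ker (divOp μ S) (divOp_int S)).dim := rfl
  linarith

/-- coboundaries are cocycles -/
lemma dOp_mem (S : ι → G) (θ : HI Unit (H0 G μ)) : dOp μ S θ ∈ (ZM μ ⊥ S).K := by
  refine ⟨fun g => cR μ g (θ ()) - θ (), fun g _ h _ => ?_, fun k hk => ?_, fun i => ?_⟩
  · show cR μ (g * h) (θ ()) - θ () = (cR μ g (θ ()) - θ ()) + cR μ g (cR μ h (θ ()) - θ ())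
    rw [map_sub, cR_cR, add_comm, sub_add_sub_cancel]
  · show cR μ k (θ ()) - θ () = 0
    rw [Subgroup.mem_bot.1 hk, cR_one, sub_self]
  · rw [dOp_apply]

/-- an `L²` function invariant under infinitely many right translations vanishes -/
lemma eq_zero_of_inv (f : H0 G μ) (L : Subgroup G) [Infinite L] (h : ∀ g ∈ L, cR μ g f = f) :
    f = 0 := by
  refine eq_zero_of_test μ f fun A hA g => ?_
  set a := ⟪f, mA μ A hA (cU μ g (v0 μ))⟫_ℝ with ha
  have h1 : ∀ l ∈ L, ⟪f, mA μ A hA (eb μ (g * l))⟫_ℝ = a := by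
    intro l hl
    have h2 : cR μ l⁻¹ (eb μ g) = eb μ (g * l) := by rw [cR_eb, inv_inv]
    rw [← h2, ← cR_mA]
    have h3 : ⟪cR μ l f, mA μ A hA (eb μ g)⟫_ℝ = ⟪f, cR μ l⁻¹ (mA μ A hA (eb μ g))⟫_ℝ :=
      cR_adj μ l f _
    rw [← h3, h l hl]
    rfl
  have hsum : Summable fun l : L => ⟪f, mA μ A hA (eb μ (g * l))⟫_ℝ ^ 2 := by
    have h3 : ∀ l : L, ⟪f, mA μ A hA (eb μ (g * l))⟫_ℝ = ⟪mA μ A hA f, eb μ (g * (l : G))⟫_ℝ :=
      fun l => (mA_adj μ A hA f _).symm
    have hon : Orthonormal ℝ fun l : L => (eb μ (g * (l : G)) : H0 G μ) :=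
      orthonormal_eb.comp _ fun a b hab => Subtype.ext (mul_left_cancel hab)
    have h4 := hon.inner_products_summable (mA μ A hA f)
    refine h4.congr fun l => ?_
    rw [h3, Real.norm_eq_abs, sq_abs, real_inner_comm]
  have h5 : (fun l : L => ⟪f, mA μ A hA (eb μ (g * l))⟫_ℝ ^ 2) = fun _ => a ^ 2 := by
    funext l; rw [h1 l l.2]
  rw [h5, summable_const_iff] at hsum
  exact pow_eq_zero_iff (two_ne_zero) |>.1 hsum

/-- for an infinite group the coboundaries have dimension one -/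
lemma HDX_add_one_le (S : ι → G) [Infinite (gen (⊥ : Subgroup G) S)] :
    (HDX μ S).dim + 1 ≤ (ZM μ ⊥ S).dim := by
  have h1 := VMod.dim_ker_add_le (ZM μ ⊥ S) (VMod.top (sys μ : TrSys (H0 G μ)) Unit)
    (divOp μ S) (divOp_int S) (by
      intro g _ hg
      have h2 := hg (dOp μ S g) (dOp_mem S g)
      rw [divOp, ContinuousLinearMap.adjoint_inner_left] at h2
      have h3 : dOp μ S g = 0 := inner_self_eq_zero.1 h2
      have h4 : ∀ i, cR μ (S i) (g ()) = g () := by
        intro i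
        have := dOp_apply S g i
        rw [h3] at this
        exact (sub_eq_zero.1 this.symm)
      have h5 : ∀ l ∈ gen (⊥ : Subgroup G) S, cR μ l (g ()) = g () := by
        have hc : IsCoc (gen (⊥ : Subgroup G) S) (fun l => cR μ l (g ()) - g ()) := by
          intro a _ b _
          show cR μ (a * b) (g ()) - g () = (cR μ a (g ()) - g ()) + cR μ a (cR μ b (g ()) - g ())
          rw [map_sub, cR_cR, add_comm, sub_add_sub_cancel]
        intro l hl
        refine sub_eq_zero.1 (hc.eq_zero (T := ((⊥ : Subgroup G) : Set G) ∪ Set.range S)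
          Subgroup.subset_closure ?_ l hl)
        rintro k (hk | ⟨i, rfl⟩)
        · show cR μ k (g ()) - g () = 0
          rw [Subgroup.mem_bot.1 hk, cR_one, sub_self]
        · show cR μ (S i) (g ()) - g () = 0
          rw [h4, sub_self]
      ext1 j
      exact eq_zero_of_inv (g ()) _ h5)
  have h2 : (VMod.top (sys μ : TrSys (H0 G μ)) Unit).dim = 1 := by
    have h2 : ‖(sys μ : TrSys (H0 G μ)).v‖ = 1 := norm_v0 μ
    rw [VMod.dim_top, h2]; simp
  rw [h2] at h1
  exact h1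

end Forest46876
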