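import Pool.Agent.Lib.MP_46876e_al.Coc

/-!
# The measure of the set of free edges (MP_46876e_al)

`dim (ZM H (s)) ≤ μ(F)` where `F` is the set of the `y` such that `y` and `y s` are not connected
by moves along `H`-classes and `s`-edges of smaller label.
-/

open MeasureTheory MulOpposite
open scoped InnerProductSpace ENNReal Classical

set_option linter.all false

namespace Forest46876

variable {G X : Type*} [Group G] [Countable G] [MeasurableSpace G] [DiscreteMeasurableSpace G]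
  [MeasurableSpace X] [MulAction Gᵐᵒᵖ X] [MeasurableConstSMul Gᵐᵒᵖ X]
  {μ : Measure X} [SMulInvariantMeasure Gᵐᵒᵖ X μ] [IsProbabilityMeasure μ]
  {ι κ : Type*} [Fintype ι] [Fintype κ]

lemma norm_inc {H : Type*} [NormedAddCommGroup H] [InnerProductSpace ℝ H] [CompleteSpace H]
    {ι : Type*} [Fintype ι] (i : ι) (f : H) : ‖(inc i f : HI ι H)‖ = ‖f‖ := by
  have h : (inc i f : HI ι H) = PiLp.single 2 i f := rfl
  rw [h]
  exact PiLp.norm_single 2 (fun _ : ι => H) i f

/-! ### componentwise operators -/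

/-- componentwise operator -/
noncomputable def liftOp (ι : Type*) [Fintype ι] (A : H0 G μ →L[ℝ] H0 G μ) :
    HI ι (H0 G μ) →L[ℝ] HI ι (H0 G μ) := ∑ i, (inc i) ∘L A ∘L (cmp i)

lemma liftOp_apply (A : H0 G μ →L[ℝ] H0 G μ) (θ : HI ι (H0 G μ)) (j : ι) :
    liftOp ι A θ j = A (θ j) := by
  have h1 : liftOp ι A θ = ∑ j, (inc j (A (θ j)) : HI ι (H0 G μ)) := by
    simp [liftOp, ContinuousLinearMap.sum_apply]
  have h2 : ∑ j, (inc j (A (θ j)) : HI ι (H0 G μ)) = WithLp.toLp 2 (fun j => A (θ j)) :=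
    sum_inc (WithLp.toLp 2 (fun j => A (θ j)) : HI ι (H0 G μ))
  rw [h1, h2]

lemma liftOp_int {A : H0 G μ →L[ℝ] H0 G μ} (hA : Com μ A) :
    (sys μ : TrSys (H0 G μ)).IsInt (liftOp ι A) := by
  intro u hu f
  ext1 j
  show liftOp ι A (lift u f) j = u (liftOp ι A f j)
  rw [liftOp_apply, liftOp_apply, ← hA.comm u hu]; rfl

lemma nE_ae (E : Set X) (hE : MeasurableSet E) (f : H0 G μ) :
    nE μ E hE f =ᵐ[nu G μ] fun p => if op p.2 • p.1 ∈ E then f p else 0 := by
  filter_upwards [rs_ae ((fun p : X × G => op p.2 • p.1) ⁻¹' E) (meas_act hE) f] with p hp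
  have hp' : (nE μ E hE f : H0 G μ) p
    = ((fun p : X × G => op p.2 • p.1) ⁻¹' E).indicator f p := hp
  rw [hp', Set.indicator_apply]; rfl

lemma nE_nE (E F : Set X) (hE : MeasurableSet E) (hF : MeasurableSet F) (f : H0 G μ) :
    nE μ E hE (nE μ F hF f) = nE μ (E ∩ F) (hE.inter hF) f := by
  rw [nE, nE, rs_rs]; exact rs_congr rfl f

lemma nE_congr {E F : Set X} {hE : MeasurableSet E} {hF : MeasurableSet F} (h : E = F)
    (f : H0 G μ) : nE μ E hE f = nE μ F hF f := by subst h; rfl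

/-- `nE E f = 0` means that `f` vanishes over `E` -/
lemma nE_eq_zero_iff (E : Set X) (hE : MeasurableSet E) (f : H0 G μ) :
    nE μ E hE f = 0 ↔ ∀ᵐ p ∂(nu G μ), op p.2 • p.1 ∈ E → f p = 0 := by
  constructor
  · intro h
    filter_upwards [nE_ae E hE f, (Lp.coeFn_zero ℝ 2 (nu G μ))] with p h1 h2 hp
    rw [h, h2, if_pos hp] at h1
    exact h1.symm
  · intro h
    refine Lp.ext ?_
    filter_upwards [nE_ae E hE f, (Lp.coeFn_zero ℝ 2 (nu G μ)), h] with p h1 h2 h3
    rw [h1, h2]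
    by_cases hp : op p.2 • p.1 ∈ E
    · rw [if_pos hp, h3 hp]; rfl
    · rw [if_neg hp]; rfl

lemma norm_nE_v0 (E : Set X) (hE : MeasurableSet E) : ‖nE μ E hE (v0 μ : H0 G μ)‖ ^ 2 = μ.real E := by
  have h1 : nE μ E hE (v0 μ : H0 G μ) = indicatorConstLp 2 (s := E ×ˢ ({1} : Set G))
      (hE.prod (measurableSet_singleton 1)) (by
        rw [Measure.prod_prod]
        exact ENNReal.mul_ne_top (measure_ne_top _ _) (by simp)) (1 : ℝ) := by
    refine Lp.ext ?_
    refine (nE_ae E hE (v0 μ)).trans ?_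
    filter_upwards [v0_ae (G := G) μ, indicatorConstLp_coeFn (μ := nu G μ) (p := 2)
      (s := E ×ˢ ({1} : Set G)) (hs := hE.prod (measurableSet_singleton 1)) (hμs := by
        rw [Measure.prod_prod]
        exact ENNReal.mul_ne_top (measure_ne_top _ _) (by simp)) (c := (1 : ℝ))] with p h1 h2
    rw [h2, h1]
    obtain ⟨x, g⟩ := p
    by_cases hg : g = 1
    · subst hg
      by_cases hx : x ∈ E
      · rw [Set.indicator_of_mem (by exact ⟨hx, rfl⟩)]; simp [hx]
      · rw [Set.indicator_of_notMem (fun h => hx h.1)]; simp [hx]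
    · rw [Set.indicator_of_notMem (fun h => hg h.2)]; simp [hg]
  rw [h1, norm_indicatorConstLp (by norm_num) (by norm_num)]
  simp only [norm_one, one_mul, ENNReal.toReal_ofNat]
  rw [← Real.rpow_natCast, ← Real.rpow_mul (by positivity)]
  simp [Measure.real, Measure.prod_prod]

/-- module of the vectors supported over `E` -/
noncomputable def RM (μ : Measure X) [SMulInvariantMeasure Gᵐᵒᵖ X μ] [IsProbabilityMeasure μ]
    (E : Set X) (hE : MeasurableSet E) : VMod (sys μ : TrSys (H0 G μ)) Unit :=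
  (VMod.top _ Unit).ker (liftOp Unit (nE μ Eᶜ hE.compl)) (liftOp_int (com_nE _ _))

lemma mem_RM {E : Set X} {hE : MeasurableSet E} {θ : HI Unit (H0 G μ)} :
    θ ∈ (RM μ E hE : VMod (sys μ : TrSys (H0 G μ)) Unit).K ↔ nE μ Eᶜ hE.compl (θ ()) = 0 := by
  constructor
  · rintro ⟨_, h⟩
    have h' : liftOp Unit (nE μ Eᶜ hE.compl) θ = 0 := h
    rw [← liftOp_apply, h']; rfl
  · intro h
    refine ⟨trivial, ?_⟩
    show liftOp Unit (nE μ Eᶜ hE.compl) θ = 0
    ext1 j
    rw [liftOp_apply]; exact h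

lemma dim_RM (E : Set X) (hE : MeasurableSet E) :
    (RM μ E hE : VMod (sys μ : TrSys (H0 G μ)) Unit).dim = μ.real E := by
  have h1 : (RM μ E hE : VMod (sys μ : TrSys (H0 G μ)) Unit).P ((sys μ : TrSys (H0 G μ)).w ())
      = inc () (nE μ E hE (v0 μ)) := by
    refine VMod.P_eq_of _ ?_ ?_
    · rw [mem_RM, inc_same, nE_nE, nE_eq_zero_iff]
      exact Filter.Eventually.of_forall fun p hp => (hp.1 hp.2).elim
    · intro g hg
      rw [mem_RM] at hg
      have h2 : (sys μ : TrSys (H0 G μ)).w () - inc () (nE μ E hE (v0 μ))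
          = (inc () (v0 μ - nE μ E hE (v0 μ)) : HI Unit (H0 G μ)) := by
        rw [map_sub]; rfl
      rw [h2, inner_inc_left]
      have h3 : v0 μ - nE μ E hE (v0 μ) = nE μ Eᶜ hE.compl (v0 μ : H0 G μ) := by
        refine Lp.ext ?_
        filter_upwards [Lp.coeFn_sub (v0 μ : H0 G μ) (nE μ E hE (v0 μ)), nE_ae E hE (v0 μ : H0 G μ),
          nE_ae Eᶜ hE.compl (v0 μ : H0 G μ)] with p h4 h5 h6
        rw [h4, Pi.sub_apply, h5, h6]
        by_cases hp : op p.2 • p.1 ∈ E
        · rw [if_pos hp, if_neg (fun h => h hp), sub_self]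
        · rw [if_neg hp, if_pos (show op p.2 • p.1 ∈ Eᶜ from hp), sub_zero]
      rw [h3, nE_adj, hg, inner_zero_right]
  rw [VMod.dim, Finset.sum_eq_single ()]
  · rw [h1, ← norm_nE_v0 (G := G) E hE]
    rw [norm_inc]
  · intro b _ hb; exact (hb rfl).elim
  · simp

/-! ### words -/

section words

variable (H : Subgroup G) (s : G)

/-- value of a letter -/
def lval : H ⊕ Bool → G
  | Sum.inl k => k
  | Sum.inr true => s
  | Sum.inr false => s⁻¹

/-- value of a word -/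
def wval (w : List (H ⊕ Bool)) : G := (w.map (lval H s)).prod

/-- shift of positions -/
def sh (g : G) (l : List (G × ℝ)) : List (G × ℝ) := l.map fun q => (g * q.1, q.2)

/-- positions of the `s`-edges with signs -/
def posl : List (H ⊕ Bool) → List (G × ℝ)
  | [] => []
  | Sum.inl k :: w => sh (k : G) (posl w)
  | Sum.inr true :: w => (1, 1) :: sh s (posl w)
  | Sum.inr false :: w => (s⁻¹, -1) :: sh s⁻¹ (posl w)

/-- linear combination of translates -/
noncomputable def sumL (l : List (G × ℝ)) (f : H0 G μ) : H0 G μ :=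
  (l.map fun q => q.2 • cR μ q.1 f).sum

lemma sumL_sh (g : G) (l : List (G × ℝ)) (f : H0 G μ) : sumL (sh g l) f = cR μ g (sumL l f) := by
  induction l with
  | nil => simp [sumL, sh]
  | cons q l ih =>
    simp only [sumL, sh, List.map_cons, List.sum_cons, map_add, map_smul] at ih ⊢
    rw [ih, cR_cR]

variable {H s}

lemma lval_mem (a : H ⊕ Bool) : lval H s a ∈ gen H (fun _ : Unit => s) := by
  rcases a with k | (_ | _)
  · exact (gen H (fun _ : Unit => s)).inv_mem (mem_gen H (fun _ : Unit => s) ()) |> fun _ =>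
      le_gen H _ k.2
  · exact (gen H (fun _ : Unit => s)).inv_mem (mem_gen H (fun _ : Unit => s) ())
  · exact mem_gen H (fun _ : Unit => s) ()

lemma wval_mem (w : List (H ⊕ Bool)) : wval H s w ∈ gen H (fun _ : Unit => s) := by
  refine Subgroup.list_prod_mem _ ?_
  intro x hx
  obtain ⟨a, _, rfl⟩ := List.mem_map.1 hx
  exact lval_mem a

lemma coc_word {θ : HI Unit (H0 G μ)} {c : G → H0 G μ}
    (hc : CocOf μ H (fun _ : Unit => s) θ c) (w : List (H ⊕ Bool)) :
    c (wval H s w) = sumL (posl H s w) (θ ()) := by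
  induction w with
  | nil => simp [wval, posl, sumL, hc.1.one]
  | cons a w ih =>
    have h1 : wval H s (a :: w) = lval H s a * wval H s w := by simp [wval]
    rw [h1, hc.1 _ (lval_mem a) _ (wval_mem w), ih]
    rcases a with k | (_ | _)
    · have h2 : c (lval H s (Sum.inl k)) = 0 := hc.2.1 _ k.2
      rw [h2, zero_add]
      simp only [posl]
      rw [sumL_sh]; rfl
    · have h2 : c (lval H s (Sum.inr false)) = - cR μ s⁻¹ (θ ()) := by
        show c s⁻¹ = _
        rw [hc.1.inv (mem_gen H (fun _ : Unit => s) ()), ← hc.2.2 ()]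
      rw [h2]
      have h3 : sumL (posl H s (Sum.inr false :: w)) (θ ())
          = (-1 : ℝ) • cR μ s⁻¹ (θ ()) + sumL (sh s⁻¹ (posl H s w)) (θ ()) := rfl
      rw [h3, sumL_sh, neg_one_smul]; rfl
    · have h2 : c (lval H s (Sum.inr true)) = θ () := hc.2.2 ()
      rw [h2]
      have h3 : sumL (posl H s (Sum.inr true :: w)) (θ ())
          = (1 : ℝ) • cR μ 1 (θ ()) + sumL (sh s (posl H s w)) (θ ()) := rfl
      rw [h3, sumL_sh, one_smul, cR_one]; rfl

end words

lemma sumL_eq_zero (l : List (G × ℝ)) (f : H0 G μ) :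
    ∀ᵐ p ∂(nu G μ), (∀ q ∈ l, f (tR q.1 p) = 0) → sumL l f p = 0 := by
  induction l with
  | nil =>
    filter_upwards [Lp.coeFn_zero ℝ 2 (nu G μ)] with p hp _
    exact hp
  | cons q l ih =>
    have h1 : sumL (q :: l) f = q.2 • cR μ q.1 f + sumL l f := rfl
    filter_upwards [ih, Lp.coeFn_add (q.2 • cR μ q.1 f) (sumL l f),
      Lp.coeFn_smul q.2 (cR μ q.1 f), co_ae (tR q.1) (mp_tR μ q.1) f] with p h2 h3 h4 h5 h6
    rw [h1, h3, Pi.add_apply, h4, Pi.smul_apply,
      h2 (fun q' hq' => h6 q' (List.mem_cons_of_mem _ hq'))]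
    have h7 : (cR μ q.1 f : H0 G μ) p = f (tR q.1 p) := h5
    rw [h7, h6 q List.mem_cons_self]; simp

/-! ### the mesh argument -/

/-- witness sets: all used `s`-edges have smaller labels -/
def Wit (ψ : X → ℝ) (l : List (G × ℝ)) : Set X := {y | ∀ q ∈ l, ψ (op q.1 • y) < ψ y}

lemma meas_Wit {ψ : X → ℝ} (hψ : Measurable ψ) (l : List (G × ℝ)) : MeasurableSet (Wit ψ l) := by
  induction l with
  | nil => simp [Wit]
  | cons q l ih =>
    have h1 : Wit ψ (q :: l) = {y | ψ (op q.1 • y) < ψ y} ∩ Wit ψ l := by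
      ext y; simp [Wit]
    rw [h1]
    exact (measurableSet_lt (hψ.comp (measurable_const_smul (op q.1))) hψ).inter ih

/-- points without witness in `W` -/
def FF (H : Subgroup G) (s : G) (ψ : X → ℝ) (W : Finset (List (H ⊕ Bool))) : Set X :=
  {y | ∀ w ∈ W, wval H s w = s → y ∉ Wit ψ (posl H s w)}

/-- points without witness -/
def freeSet (H : Subgroup G) (s : G) (ψ : X → ℝ) : Set X :=
  {y | ∀ w, wval H s w = s → y ∉ Wit ψ (posl H s w)}

lemma meas_FF {H : Subgroup G} {s : G} {ψ : X → ℝ} (hψ : Measurable ψ)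
    (W : Finset (List (H ⊕ Bool))) : MeasurableSet (FF H s ψ W) := by
  have h1 : FF H s ψ W = ⋂ w ∈ W, {y | wval H s w = s → y ∉ Wit ψ (posl H s w)} := by
    ext y; simp [FF]
  rw [h1]
  refine Finset.measurableSet_biInter _ fun w _ => ?_
  by_cases hw : wval H s w = s
  · have : {y : X | wval H s w = s → y ∉ Wit ψ (posl H s w)} = (Wit ψ (posl H s w))ᶜ := by
      ext y; simp [hw]
    rw [this]
    exact (meas_Wit hψ _).compl
  · have : {y : X | wval H s w = s → y ∉ Wit ψ (posl H s w)} = Set.univ := by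
      ext y; simp [hw]
    rw [this]; exact MeasurableSet.univ

/-- positions used by `W` -/
def posW (H : Subgroup G) (s : G) (W : Finset (List (H ⊕ Bool))) : Set G :=
  {g | g ≠ 1 ∧ ∃ w ∈ W, ∃ q ∈ posl H s w, q.1 = g}

lemma finite_posW (H : Subgroup G) (s : G) (W : Finset (List (H ⊕ Bool))) :
    (posW H s W).Finite := by
  have h1 : posW H s W ⊆ ⋃ w ∈ W, {g | ∃ q ∈ posl H s w, q.1 = g} := by
    rintro g ⟨_, w, hw, q, hq, rfl⟩
    simp only [Set.mem_iUnion]
    exact ⟨w, hw, q, hq, rfl⟩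
  refine Set.Finite.subset ?_ h1
  refine W.finite_toSet.biUnion fun w _ => ?_
  have : {g | ∃ q ∈ posl H s w, q.1 = g} = Prod.fst '' {q | q ∈ posl H s w} := rfl
  rw [this]
  exact (List.finite_toSet _).image _

/-- mesh index -/
noncomputable def ki (ψ : X → ℝ) (m : ℕ) (y : X) : ℕ := ⌊m * ψ y⌋₊

lemma meas_ki {ψ : X → ℝ} (hψ : Measurable ψ) (m : ℕ) : Measurable (ki ψ m) :=
  Nat.measurable_floor.comp (hψ.const_mul _)

/-- bad points -/
def Bad (H : Subgroup G) (s : G) (ψ : X → ℝ) (W : Finset (List (H ⊕ Bool))) (m : ℕ) : Set X :=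
  {y | ∃ g ∈ posW H s W, ki ψ m (op g • y) = ki ψ m y}

lemma meas_Bad {H : Subgroup G} {s : G} {ψ : X → ℝ} (hψ : Measurable ψ)
    (W : Finset (List (H ⊕ Bool))) (m : ℕ) : MeasurableSet (Bad H s ψ W m) := by
  have h1 : Bad H s ψ W m = ⋃ g ∈ posW H s W, {y | ki ψ m (op g • y) = ki ψ m y} := by
    ext y; simp [Bad]
  rw [h1]
  refine MeasurableSet.biUnion (finite_posW H s W).countable fun g _ => ?_
  exact measurableSet_eq_fun ((meas_ki hψ m).comp (measurable_const_smul (op g))) (meas_ki hψ m)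

section mesh

variable (μ) (H : Subgroup G) (s : G) {ψ : X → ℝ} (hψ : Measurable ψ)
  (W : Finset (List (H ⊕ Bool))) (m : ℕ)

/-- filtration -/
noncomputable def KM (i : ℕ) : VMod (sys μ : TrSys (H0 G μ)) Unit :=
  ((ZM μ H (fun _ : Unit => s)).ker (liftOp Unit (nE μ (FF H s ψ W) (meas_FF hψ W)))
    (liftOp_int (com_nE _ _))).ker
    (liftOp Unit (nE μ {y | ki ψ m y < i} (meas_ki hψ m measurableSet_Iio)))
    (liftOp_int (com_nE _ _))

lemma mem_KM {i : ℕ} {θ : HI Unit (H0 G μ)} : θ ∈ (KM μ H s hψ W m i).K ↔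
    θ ∈ (ZM μ H (fun _ : Unit => s)).K ∧ nE μ (FF H s ψ W) (meas_FF hψ W) (θ ()) = 0 ∧
    nE μ {y | ki ψ m y < i} (meas_ki hψ m measurableSet_Iio) (θ ()) = 0 := by
  constructor
  · rintro ⟨⟨h1, h2⟩, h3⟩
    have h2' : liftOp Unit (nE μ (FF H s ψ W) (meas_FF hψ W)) θ = 0 := h2
    have h3' : liftOp Unit (nE μ {y | ki ψ m y < i} (meas_ki hψ m measurableSet_Iio)) θ = 0 := h3
    refine ⟨h1, ?_, ?_⟩
    · rw [← liftOp_apply, h2']; rfl
    · rw [← liftOp_apply, h3']; rfl
  · rintro ⟨h1, h2, h3⟩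
    refine ⟨⟨h1, ?_⟩, ?_⟩
    · show liftOp Unit (nE μ (FF H s ψ W) (meas_FF hψ W)) θ = 0
      ext1 j; rw [liftOp_apply]; exact h2
    · show liftOp Unit (nE μ {y | ki ψ m y < i} (meas_ki hψ m measurableSet_Iio)) θ = 0
      ext1 j; rw [liftOp_apply]; exact h3

lemma KM_step (i : ℕ) : (KM μ H s hψ W m i).dim ≤ (KM μ H s hψ W m (i + 1)).dim +
    μ.real (Bad H s ψ W m ∩ {y | ki ψ m y = i}) := by
  have hsl : MeasurableSet {y : X | ki ψ m y = i} := meas_ki hψ m (measurableSet_singleton i)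
  have hB : MeasurableSet (Bad H s ψ W m ∩ {y | ki ψ m y = i}) := (meas_Bad hψ W m).inter hsl
  rw [← dim_RM (G := G) (μ := μ) _ hB]
  refine (VMod.dim_le_ker_add (KM μ H s hψ W m i) (RM μ _ hB)
    (liftOp Unit (nE μ {y | ki ψ m y = i} hsl)) (liftOp_int (com_nE _ _)) ?_).trans
    (add_le_add_left (VMod.dim_mono ?_) _)
  · intro θ hθ
    rw [mem_KM] at hθ
    obtain ⟨⟨c, hc⟩, hF, hlev⟩ := hθ
    rw [mem_RM, liftOp_apply, nE_nE, nE_eq_zero_iff]
    rw [nE_eq_zero_iff] at hF hlev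
    have h1 : ∀ᵐ p ∂(nu G μ), ∀ g : G, op (tR g p).2 • (tR g p).1 ∈ {y | ki ψ m y < i} →
        (θ () : H0 G μ) (tR g p) = 0 := by
      rw [ae_all_iff]
      exact fun g => (mp_tR μ g).quasiMeasurePreserving.ae hlev
    have h2 : ∀ᵐ p ∂(nu G μ), ∀ w ∈ W, wval H s w = s →
        (θ () : H0 G μ) p = sumL (posl H s w) (θ ()) p := by
      refine (ae_ball_iff W.countable_toSet).2 fun w _ => ?_
      by_cases hw : wval H s w = s
      · have : θ () = sumL (posl H s w) (θ ()) := by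
          rw [← coc_word hc w, hw]; exact (hc.2.2 ()).symm
        refine Filter.Eventually.of_forall fun p _ => ?_
        rw [← this]
      · exact Filter.Eventually.of_forall fun p h => (hw h).elim
    have h3 : ∀ᵐ p ∂(nu G μ), ∀ w ∈ W, (∀ q ∈ posl H s w, (θ () : H0 G μ) (tR q.1 p) = 0) →
        sumL (posl H s w) (θ ()) p = 0 :=
      (ae_ball_iff W.countable_toSet).2 fun w _ => sumL_eq_zero _ _
    filter_upwards [hF, h1, h2, h3] with p hF h1 h2 h3 hp
    obtain ⟨hp1, hp2⟩ := hp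
    have hki : ki ψ m (op p.2 • p.1) = i := hp2
    have hnB : op p.2 • p.1 ∉ Bad H s ψ W m := fun h => hp1 ⟨h, hp2⟩
    by_cases hFF : op p.2 • p.1 ∈ FF H s ψ W
    · exact hF hFF
    · simp only [FF, Set.mem_setOf_eq, not_forall, not_not] at hFF
      obtain ⟨w, hw, hws, hwit⟩ := hFF
      rw [h2 w hw hws]
      refine h3 w hw fun q hq => h1 q.1 ?_
      have h4 : op (tR q.1 p).2 • (tR q.1 p).1 = op q.1 • (op p.2 • p.1) := by
        rw [smul_smul, ← op_mul]; rfl
      rw [h4]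
      have h5 : ψ (op q.1 • (op p.2 • p.1)) < ψ (op p.2 • p.1) := hwit q hq
      have h6 : q.1 ≠ 1 := fun h => by rw [h, op_one, one_smul] at h5; exact lt_irrefl _ h5
      have h7 : ki ψ m (op q.1 • (op p.2 • p.1)) ≠ ki ψ m (op p.2 • p.1) := fun h =>
        hnB ⟨q.1, ⟨h6, w, hw, q, hq, rfl⟩, h⟩
      have h8 : ki ψ m (op q.1 • (op p.2 • p.1)) ≤ ki ψ m (op p.2 • p.1) := by
        refine Nat.floor_le_floor ?_
        exact mul_le_mul_of_nonneg_left h5.le (Nat.cast_nonneg m)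
      show ki ψ m (op q.1 • (op p.2 • p.1)) < i
      omega
  · rintro θ ⟨h1, h2⟩
    replace h1 : θ ∈ (KM μ H s hψ W m i).K := h1
    rw [mem_KM] at h1 ⊢
    refine ⟨h1.1, h1.2.1, ?_⟩
    have h2' : liftOp Unit (nE μ {y | ki ψ m y = i} hsl) θ = 0 := h2
    have h3 : nE μ {y | ki ψ m y = i} hsl (θ ()) = 0 := by rw [← liftOp_apply, h2']; rfl
    have h4 := h1.2.2
    rw [nE_eq_zero_iff] at h3 h4 ⊢
    filter_upwards [h3, h4] with p h3 h4 hp
    have hp' : ki ψ m (op p.2 • p.1) < i + 1 := hp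
    rcases Nat.lt_succ_iff_lt_or_eq.1 hp' with h | h
    · exact h4 h
    · exact h3 h

include hψ in
/-- the mesh inequality -/
theorem dim_ZM_le_mesh (hψ0 : ∀ y, 0 ≤ ψ y) (hψ1 : ∀ y, ψ y < 1) (hm : 0 < m) :
    (ZM μ H (fun _ : Unit => s)).dim ≤ μ.real (FF H s ψ W) + μ.real (Bad H s ψ W m) := by
  have h1 : ∀ n, (KM μ H s hψ W m 0).dim ≤ (KM μ H s hψ W m n).dim +
      ∑ i ∈ Finset.range n, μ.real (Bad H s ψ W m ∩ {y | ki ψ m y = i}) := by
    intro n
    induction n with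
    | zero => simp
    | succ n ih =>
      rw [Finset.sum_range_succ]
      have := KM_step μ H s hψ W m n
      linarith
  have h2 : (KM μ H s hψ W m m).dim = 0 := by
    have hK : (KM μ H s hψ W m m).K = ⊥ := by
      rw [Submodule.eq_bot_iff]
      intro θ hθ
      rw [mem_KM] at hθ
      have h3 := hθ.2.2
      rw [nE_eq_zero_iff] at h3
      ext1 j
      show θ () = 0
      refine Lp.ext ?_
      filter_upwards [h3, Lp.coeFn_zero ℝ 2 (nu G μ)] with p hp h0
      rw [h0]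
      refine hp ?_
      show ⌊(m : ℝ) * ψ (op p.2 • p.1)⌋₊ < m
      rw [Nat.floor_lt (mul_nonneg (Nat.cast_nonneg _) (hψ0 _))]
      have : (0 : ℝ) < m := Nat.cast_pos.2 hm
      nlinarith [hψ1 (op p.2 • p.1)]
    have h4 : ∀ f, (KM μ H s hψ W m m).P f = 0 := by
      intro f
      have := (KM μ H s hψ W m m).P_mem f
      rw [hK] at this
      exact (Submodule.mem_bot ℝ).1 this
    simp [VMod.dim, h4]
  have h3 : ∑ i ∈ Finset.range m, μ.real (Bad H s ψ W m ∩ {y | ki ψ m y = i})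
      ≤ μ.real (Bad H s ψ W m) := by
    rw [← measureReal_biUnion_finset]
    · exact measureReal_mono (Set.iUnion₂_subset fun i _ => Set.inter_subset_left)
    · intro i _ j _ hij
      refine Set.disjoint_left.2 ?_
      rintro y ⟨_, h5⟩ ⟨_, h6⟩
      exact hij (h5.symm.trans h6)
    · intro i _
      exact (meas_Bad hψ W m).inter (meas_ki hψ m (measurableSet_singleton i))
  have h4 := VMod.dim_le_ker_add (ZM μ H (fun _ : Unit => s)) (RM μ (FF H s ψ W) (meas_FF hψ W))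
    (liftOp Unit (nE μ (FF H s ψ W) (meas_FF hψ W))) (liftOp_int (com_nE _ _)) (by
      intro θ _
      rw [mem_RM, liftOp_apply, nE_nE, nE_eq_zero_iff]
      exact Filter.Eventually.of_forall fun p hp => (hp.1 hp.2).elim)
  rw [dim_RM] at h4
  have h5 : ((ZM μ H (fun _ : Unit => s)).ker (liftOp Unit (nE μ (FF H s ψ W) (meas_FF hψ W)))
      (liftOp_int (com_nE _ _))).dim ≤ (KM μ H s hψ W m 0).dim := by
    refine VMod.dim_mono ?_
    intro θ hθ
    refine ⟨hθ, ?_⟩
    show liftOp Unit (nE μ {y | ki ψ m y < 0} (meas_ki hψ m measurableSet_Iio)) θ = 0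
    ext1 j
    rw [liftOp_apply]
    show nE μ _ _ (θ j) = 0
    rw [nE_eq_zero_iff]
    exact Filter.Eventually.of_forall fun p hp => (Nat.not_lt_zero _ hp).elim
  have h6 := h1 m
  linarith

include hψ in
lemma tendsto_Bad (hψ0 : ∀ y, 0 ≤ ψ y) (hinj : ∀ᵐ y ∂μ, ∀ g : G, g ≠ 1 → ψ (op g • y) ≠ ψ y)
    {ε : ℝ} (hε : 0 < ε) : ∃ m : ℕ, 0 < m ∧ μ.real (Bad H s ψ W m) < ε := by
  set D : ℕ → Set X := fun m => {y | ∃ g ∈ posW H s W, |ψ (op g • y) - ψ y| ≤ 1 / (m + 1 : ℝ)}
    with hD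
  have hDm : ∀ m, MeasurableSet (D m) := by
    intro m
    have h1 : D m = ⋃ g ∈ posW H s W, {y | |ψ (op g • y) - ψ y| ≤ 1 / (m + 1 : ℝ)} := by
      ext y; simp [hD]
    rw [h1]
    refine MeasurableSet.biUnion (finite_posW H s W).countable fun g _ => ?_
    exact measurableSet_le (((hψ.comp (measurable_const_smul (op g))).sub hψ).abs)
      measurable_const
  have hanti : Antitone D := by
    intro m n hmn y
    rintro ⟨g, hg, h⟩
    refine ⟨g, hg, h.trans ?_⟩
    have : (m : ℝ) ≤ n := by exact_mod_cast hmn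
    exact one_div_le_one_div_of_le (by positivity) (by linarith)
  have hinter : μ (⋂ m, D m) = 0 := by
    have h1 : ∀ᵐ y ∂μ, y ∉ ⋂ m, D m := by
      filter_upwards [hinj] with y hy hy'
      have h2 : ∀ g ∈ posW H s W, ∃ m : ℕ, 1 / (m + 1 : ℝ) < |ψ (op g • y) - ψ y| := by
        intro g hg
        exact exists_nat_one_div_lt (abs_pos.2 (sub_ne_zero.2 (hy g hg.1)))
      choose! M hM using h2
      obtain ⟨N, hN⟩ : ∃ N : ℕ, ∀ g ∈ posW H s W, M g ≤ N := by
        obtain ⟨N, hN⟩ := ((finite_posW H s W).image M).bddAbove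
        exact ⟨N, fun g hg => hN ⟨g, hg, rfl⟩⟩
      have h3 := Set.mem_iInter.1 hy' N
      obtain ⟨g, hg, h4⟩ := h3
      have h5 := hM g hg
      have h6 : 1 / (N + 1 : ℝ) ≤ 1 / (M g + 1 : ℝ) := by
        have : (M g : ℝ) ≤ N := by exact_mod_cast hN g hg
        exact one_div_le_one_div_of_le (by positivity) (by linarith)
      linarith
    exact measure_eq_zero_iff_ae_notMem.2 h1
  have htend := tendsto_measure_iInter_atTop (μ := μ) (fun m => (hDm m).nullMeasurableSet) hanti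
    ⟨0, measure_ne_top _ _⟩
  rw [hinter] at htend
  have h1 : ∀ᶠ m in Filter.atTop, μ (D m) < ENNReal.ofReal ε :=
    htend.eventually_lt_const (ENNReal.ofReal_pos.2 hε)
  obtain ⟨m, hm⟩ := h1.exists
  refine ⟨m + 1, Nat.succ_pos _, ?_⟩
  have h2 : Bad H s ψ W (m + 1) ⊆ D m := by
    rintro y ⟨g, hg, h⟩
    refine ⟨g, hg, ?_⟩
    have h3 : (0 : ℝ) ≤ (m + 1 : ℕ) * ψ y := mul_nonneg (Nat.cast_nonneg _) (hψ0 _)
    have h4 : (0 : ℝ) ≤ (m + 1 : ℕ) * ψ (op g • y) := mul_nonneg (Nat.cast_nonneg _) (hψ0 _)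
    have h5 := Nat.floor_le h3
    have h6 := Nat.lt_floor_add_one ((m + 1 : ℕ) * ψ y : ℝ)
    have h7 := Nat.floor_le h4
    have h8 := Nat.lt_floor_add_one ((m + 1 : ℕ) * ψ (op g • y) : ℝ)
    have h9 : ((⌊((m + 1 : ℕ) : ℝ) * ψ (op g • y)⌋₊ : ℕ) : ℝ)
        = (⌊((m + 1 : ℕ) : ℝ) * ψ y⌋₊ : ℕ) := by exact_mod_cast h
    push_cast at *
    have hmp : (0 : ℝ) < (m : ℝ) + 1 := by positivity
    rw [le_div_iff₀ hmp, ← abs_of_pos hmp, ← abs_mul, abs_le]
    constructor
    · nlinarith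
    · nlinarith
  have h3 : μ (Bad H s ψ W (m + 1)) < ENNReal.ofReal ε := (measure_mono h2).trans_lt hm
  rw [Measure.real, ← ENNReal.toReal_ofReal hε.le]
  exact (ENNReal.toReal_lt_toReal (measure_ne_top _ _) ENNReal.ofReal_ne_top).2 h3

end mesh

/-- **Free edges**: the dimension of the module of cocycles on `⟨H, s⟩` vanishing on `H` is at most
the measure of the set of points without witness. -/
theorem dim_ZM_le_free (H : Subgroup G) (s : G) {ψ : X → ℝ} (hψ : Measurable ψ)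
    (hψ0 : ∀ y, 0 ≤ ψ y) (hψ1 : ∀ y, ψ y < 1)
    (hinj : ∀ᵐ y ∂μ, ∀ g : G, g ≠ 1 → ψ (op g • y) ≠ ψ y) :
    (ZM μ H (fun _ : Unit => s)).dim ≤ μ.real (freeSet H s ψ) := by
  have h1 : ∀ W : Finset (List (H ⊕ Bool)),
      (ZM μ H (fun _ : Unit => s)).dim ≤ μ.real (FF H s ψ W) := by
    intro W
    refine le_of_forall_pos_le_add fun ε hε => ?_
    obtain ⟨m, hm, hB⟩ := tendsto_Bad (μ := μ) H s hψ W hψ0 hinj hε
    have := dim_ZM_le_mesh μ H s hψ W m hψ0 hψ1 hm
    linarith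
  haveI : Countable (H ⊕ Bool) := inferInstance
  haveI : Nonempty (List (H ⊕ Bool)) := ⟨[]⟩
  obtain ⟨e, he⟩ := exists_surjective_nat (List (H ⊕ Bool))
  set Wn : ℕ → Finset (List (H ⊕ Bool)) := fun n => (Finset.range n).image e with hWn
  have hanti : Antitone fun n => FF H s ψ (Wn n) := by
    intro m n hmn y hy w hw
    refine hy w ?_
    obtain ⟨k, hk, rfl⟩ := Finset.mem_image.1 hw
    exact Finset.mem_image.2 ⟨k, Finset.mem_range.2 ((Finset.mem_range.1 hk).trans_le hmn), rfl⟩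
  have hinter : ⋂ n, FF H s ψ (Wn n) = freeSet H s ψ := by
    ext y
    simp only [Set.mem_iInter]
    constructor
    · intro h w hw
      obtain ⟨k, rfl⟩ := he w
      exact h (k + 1) _ (Finset.mem_image.2 ⟨k, Finset.mem_range.2 (Nat.lt_succ_self k), rfl⟩) hw
    · intro h n w _ hws
      exact h w hws
  have htend := tendsto_measure_iInter_atTop (μ := μ)
    (fun n => (meas_FF (H := H) (s := s) hψ (Wn n)).nullMeasurableSet) hanti
    ⟨0, measure_ne_top _ _⟩
  rw [hinter] at htend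
  have h2 : Filter.Tendsto (fun n => μ.real (FF H s ψ (Wn n))) Filter.atTop
      (nhds (μ.real (freeSet H s ψ))) :=
    (ENNReal.tendsto_toReal (measure_ne_top _ _)).comp htend
  exact ge_of_tendsto' h2 fun n => h1 _

end Forest46876
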