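import Pool.Agent.Lib.MP_46876e_al.HD

/-!
# `dim HDX = bettiProj` (MP_46876e_al)
-/

open MeasureTheory MulOpposite
open scoped InnerProductSpace ENNReal Classical

set_option linter.all false

namespace Forest46876

open Pool.Agent.Forest46876e

variable {G X : Type*} [Group G] [Countable G] [MeasurableSpace G] [DiscreteMeasurableSpace G]
  [MeasurableSpace X] [MulAction Gᵐᵒᵖ X] [MeasurableConstSMul Gᵐᵒᵖ X]
  {μ : Measure X} [SMulInvariantMeasure Gᵐᵒᵖ X μ] [IsProbabilityMeasure μ]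
  {ι : Type*} [Fintype ι]

lemma gen_bot_eq {L : Subgroup G} (S : ι → L) (hS : Subgroup.closure (Set.range S) = ⊤) :
    gen (⊥ : Subgroup G) (fun i => (S i : G)) = L := by
  have h1 : Subgroup.map L.subtype (Subgroup.closure (Set.range S)) = L := by
    rw [hS, ← MonoidHom.range_eq_map, Subgroup.range_subtype]
  rw [MonoidHom.map_closure] at h1
  have h2 : (L.subtype : L → G) '' Set.range S = Set.range (fun i => (S i : G)) := by
    rw [← Set.range_comp]; rfl
  rw [h2] at h1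
  refine le_antisymm (gen_le bot_le fun i => (S i).2) ?_
  conv_lhs => rw [← h1]
  exact Subgroup.closure_mono Set.subset_union_right

variable (μ) in
/-- basis vectors of `L²(X × G)^ι` -/
noncomputable def bq (L : Subgroup G) (q : L × ι) : HI ι (H0 G μ) := inc q.2 (eb μ (q.1 : G))

lemma inner_bq {L : Subgroup G} (q : L × ι) (F : HI ι (H0 G μ)) :
    ⟪bq μ L q, F⟫_ℝ = ⟪eb μ (q.1 : G), F q.2⟫_ℝ := inner_inc_left _ _ _

lemma orthonormal_bq (L : Subgroup G) : Orthonormal ℝ (bq μ L : L × ι → HI ι (H0 G μ)) := by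
  constructor
  · intro q
    rw [bq, norm_inc, norm_eb]
  · rintro ⟨g, i⟩ ⟨h, j⟩ hne
    show ⟪bq μ L (g, i), bq μ L (h, j)⟫_ℝ = 0
    rw [inner_bq]
    simp only [bq, inc_apply]
    by_cases hij : i = j
    · subst hij
      rw [if_pos rfl]
      exact inner_eb_ne fun h' => hne (by rw [Subtype.ext h'])
    · rw [if_neg hij, inner_zero_right]

lemma memlp_psi (L : Subgroup G) (F : HI ι (H0 G μ)) :
    Memℓp (fun q : L × ι => ⟪bq μ L q, F⟫_ℝ) 2 := by
  refine memℓp_gen ?_
  have := (orthonormal_bq (μ := μ) (ι := ι) L).inner_products_summable F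
  simpa using this

variable (μ) in
/-- coefficients -/
noncomputable def psi (L : Subgroup G) (F : HI ι (H0 G μ)) : lp (fun _ : L × ι => ℝ) 2 :=
  ⟨fun q => ⟪bq μ L q, F⟫_ℝ, memlp_psi L F⟩

lemma psi_apply (L : Subgroup G) (F : HI ι (H0 G μ)) (q : L × ι) :
    psi μ L F q = ⟪eb μ (q.1 : G), F q.2⟫_ℝ := inner_bq q F

lemma norm_lp_sq {α : Type*} (f : lp (fun _ : α => ℝ) 2) : ‖f‖ ^ 2 = ∑' q, f q ^ 2 := by
  rw [← real_inner_self_eq_norm_sq, lp.inner_eq_tsum]
  refine tsum_congr fun q => ?_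
  rw [real_inner_self_eq_norm_sq, Real.norm_eq_abs, sq_abs]

lemma summable_lp_sq {α : Type*} (f : lp (fun _ : α => ℝ) 2) : Summable fun q => f q ^ 2 := by
  have := lp.summable_inner (𝕜 := ℝ) f f
  refine this.congr fun q => ?_
  rw [real_inner_self_eq_norm_sq, Real.norm_eq_abs, sq_abs]

lemma norm_psi_le (L : Subgroup G) (F : HI ι (H0 G μ)) : ‖psi μ L F‖ ≤ ‖F‖ := by
  have h1 : ‖psi μ L F‖ ^ 2 ≤ ‖F‖ ^ 2 := by
    rw [norm_lp_sq]
    have := (orthonormal_bq (μ := μ) (ι := ι) L).tsum_inner_products_le F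
    refine le_trans (le_of_eq ?_) this
    refine tsum_congr fun q => ?_
    rw [Real.norm_eq_abs, sq_abs]; rfl
  exact (sq_le_sq₀ (norm_nonneg _) (norm_nonneg _)).1 h1

/-- coefficients of harmonic gradients are harmonic gradients -/
lemma psi_mem {L : Subgroup G} (S : ι → L) (hS : Subgroup.closure (Set.range S) = ⊤)
    {F : HI ι (H0 G μ)} (hF : F ∈ (HDX μ (fun i => (S i : G))).K) :
    psi μ L F ∈ harmonicGradients S := by
  obtain ⟨⟨c, hc⟩, hdiv⟩ := hF
  have hdiv' : divOp μ (fun i => (S i : G)) F = 0 := hdiv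
  have hgen := gen_bot_eq S hS
  refine ⟨⟨fun h => ⟪eb μ (1 : G), c h⟫_ℝ, fun g i => ?_⟩, fun g => ?_⟩
  · have h1 : c ((g * S i : L) : G) = c g + cR μ (g : G) (F i) := by
      rw [Subgroup.coe_mul, hc.1 g (by rw [hgen]; exact g.2) (S i) (by rw [hgen]; exact (S i).2),
        hc.2.2 i]
    rw [psi_apply]
    simp only []
    rw [h1, inner_add_right, add_sub_cancel_left]
    have h2 : ⟪cR μ (g : G) (F i), eb μ (1 : G)⟫_ℝ = ⟪F i, cR μ (g : G)⁻¹ (eb μ (1 : G))⟫_ℝ :=
      cR_adj μ _ _ _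
    rw [cR_eb, inv_inv, one_mul] at h2
    rw [real_inner_comm, ← h2, real_inner_comm]
  · have h1 : ∀ i, psi μ L F (g * (S i)⁻¹, i) = ⟪cR μ (S i : G)⁻¹ (F i), eb μ (g : G)⟫_ℝ := by
      intro i
      rw [psi_apply, cR_adj, inv_inv, cR_eb, real_inner_comm]
      rfl
    have h2 : ∀ i, psi μ L F (g, i) = ⟪F i, eb μ (g : G)⟫_ℝ := by
      intro i
      rw [psi_apply, real_inner_comm]
    simp only [h1, h2, ← inner_sub_left]
    rw [← sum_inner, ← divOp_apply, hdiv']
    exact inner_zero_left _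

/-! ### the other direction -/

/-- extension by zero -/
noncomputable def ext0 (L : Subgroup G) (θ : lp (fun _ : L × ι => ℝ) 2) (i : ι) (k : G) : ℝ :=
  if hk : k ∈ L then θ (⟨k, hk⟩, i) else 0

lemma summable_slice (L : Subgroup G) (θ : lp (fun _ : L × ι => ℝ) 2) (i : ι) :
    Summable fun h : L => θ (h, i) ^ 2 :=
  (summable_lp_sq θ).comp_injective (i := fun h : L => (h, i)) fun a b hab => by
    simpa using hab

lemma hasSum_ext0 (L : Subgroup G) (θ : lp (fun _ : L × ι => ℝ) 2) (i : ι) :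
    HasSum (fun k => ext0 L θ i k ^ 2) (∑' h : L, θ (h, i) ^ 2) := by
  have h1 := (summable_slice L θ i).hasSum
  have h2 : (fun h : L => θ (h, i) ^ 2) = (fun k : G => ext0 L θ i k ^ 2) ∘ (fun h : L => (h : G)) := by
    funext h
    simp [ext0]
  rw [h2] at h1 ⊢
  refine (Function.Injective.hasSum_iff Subtype.val_injective ?_).1 h1
  intro k hk
  have : k ∉ L := fun h => hk ⟨⟨k, h⟩, rfl⟩
  simp [ext0, this]

lemma memLp_ext0 (L : Subgroup G) (θ : lp (fun _ : L × ι => ℝ) 2) (i : ι) :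
    MemLp (ext0 L θ i) 2 (Measure.count : Measure G) :=
  (memLp_count_iff _).2 (hasSum_ext0 L θ i).summable

variable (μ) in
/-- the embedding `ℓ²(L × ι) → L²(X × G)^ι` -/
noncomputable def phi (L : Subgroup G) (θ : lp (fun _ : L × ι => ℝ) 2) : HI ι (H0 G μ) :=
  WithLp.toLp 2 fun i => emb μ (ext0 L θ i) (memLp_ext0 L θ i)

lemma norm_phi (L : Subgroup G) (θ : lp (fun _ : L × ι => ℝ) 2) : ‖phi μ L θ‖ = ‖θ‖ := by
  have h1 : ‖phi μ L θ‖ ^ 2 = ‖θ‖ ^ 2 := by
    rw [PiLp.norm_sq_eq_of_L2, norm_lp_sq]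
    have h2 : ∀ i, ‖(phi μ L θ : HI ι (H0 G μ)) i‖ ^ 2 = ∑' h : L, θ (h, i) ^ 2 := by
      intro i
      have h3 : (phi μ L θ : HI ι (H0 G μ)) i = emb μ (ext0 L θ i) (memLp_ext0 L θ i) := rfl
      rw [h3, norm_emb, (hasSum_ext0 L θ i).tsum_eq]
    simp only [h2]
    have h4 := (summable_lp_sq θ).prod_factor
    have h5 : HasSum (fun q : L × ι => θ q ^ 2) (∑' q, θ q ^ 2) := (summable_lp_sq θ).hasSum
    have h6 : HasSum (fun q : ι × L => θ (q.2, q.1) ^ 2) (∑' q, θ q ^ 2) := by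
      have := (Equiv.prodComm ι L).hasSum_iff.2 h5
      exact this
    have h7 := h6.prod_fiberwise (fun i => (summable_slice L θ i).hasSum)
    exact (h7.unique (hasSum_fintype _)).symm
  exact (sq_eq_sq₀ (norm_nonneg _) (norm_nonneg _)).1 h1

/-- extended potential -/
noncomputable def extU (L : Subgroup G) (u : L → ℝ) (k : G) : ℝ := if hk : k ∈ L then u ⟨k, hk⟩ else 0

/-- differences in `ℓ²` -/
def QD (L : Subgroup G) (u : L → ℝ) (g : G) : Prop :=
  MemLp (fun k => extU L u (k * g) - extU L u k) 2 (Measure.count : Measure G)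

lemma QD_of_closure (L : Subgroup G) (u : L → ℝ) (T : Set G) (hT : ∀ g ∈ T, QD L u g) :
    ∀ g ∈ Subgroup.closure T, QD L u g := by
  intro g hg
  induction hg using Subgroup.closure_induction with
  | mem x hx => exact hT x hx
  | one =>
    show MemLp _ 2 _
    simp only [mul_one, sub_self]
    exact MemLp.zero'
  | mul x y hx hy h1 h2 =>
    have h3 := memLp_shift h2 x
    have h4 := h3.add h1
    refine (memLp_congr_ae (Filter.Eventually.of_forall fun k => ?_)).1 h4
    simp only [Pi.add_apply, mul_assoc]; ring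
  | inv x hx h1 =>
    have h3 := (memLp_shift h1 x⁻¹).neg
    refine (memLp_congr_ae (Filter.Eventually.of_forall fun k => ?_)).1 h3
    simp only [Pi.neg_apply, mul_assoc, inv_mul_cancel, mul_one]; ring

lemma inner_emb_test (f : G → ℝ) (hf : MemLp f 2 (Measure.count : Measure G)) (A : Set X)
    (hA : MeasurableSet A) (h : G) :
    ⟪emb μ f hf, mA μ A hA (cU μ h (v0 μ))⟫_ℝ = μ.real A * f h := by
  rw [L2.inner_def]
  have h1 : ∫ p, ⟪(emb μ f hf : H0 G μ) p, (mA μ A hA (cU μ h (v0 μ)) : H0 G μ) p⟫_ℝ ∂(nu G μ)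
      = ∫ p in A ×ˢ ({h} : Set G), f h ∂(nu G μ) := by
    rw [← integral_indicator (hA.prod (measurableSet_singleton h))]
    refine integral_congr_ae ?_
    filter_upwards [emb_ae (μ := μ) f hf, mA_cU_ae μ A hA h] with p h2 h3
    rw [h2, h3]
    by_cases hp : p ∈ A ×ˢ ({h} : Set G)
    · rw [Set.indicator_of_mem hp, Set.indicator_of_mem hp]
      have : p.2 = h := hp.2
      rw [this]; simp
    · rw [Set.indicator_of_notMem hp, Set.indicator_of_notMem hp]; simp
  rw [h1, setIntegral_const]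
  simp [Measure.real, Measure.prod_prod]

/-- the embedding maps harmonic gradients to harmonic gradients -/
lemma phi_mem {L : Subgroup G} (S : ι → L) (hS : Subgroup.closure (Set.range S) = ⊤)
    {θ : lp (fun _ : L × ι => ℝ) 2} (hθ : θ ∈ harmonicGradients S) :
    phi μ L θ ∈ (HDX μ (fun i => (S i : G))).K := by
  obtain ⟨⟨u, hu⟩, hdiv⟩ := hθ
  have hgen := gen_bot_eq S hS
  -- generator differences
  have hgd : ∀ i k, extU L u (k * (S i : G)) - extU L u k = ext0 L θ i k := by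
    intro i k
    by_cases hk : k ∈ L
    · have hk' : k * (S i : G) ∈ L := L.mul_mem hk (S i).2
      simp only [extU, ext0, dif_pos hk, dif_pos hk']
      rw [hu]; rfl
    · have hk' : k * (S i : G) ∉ L := fun h => hk ((L.mul_mem_cancel_right (S i).2).1 h)
      simp only [extU, ext0, dif_neg hk, dif_neg hk', sub_self]
  have hQ : ∀ g ∈ L, QD L u g := by
    intro g hg
    rw [← hgen] at hg
    refine QD_of_closure L u _ ?_ g hg
    rintro k (hk | ⟨i, rfl⟩)
    · rw [Subgroup.mem_bot.1 hk]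
      show MemLp _ 2 _
      simp only [mul_one, sub_self]
      exact MemLp.zero'
    · show MemLp _ 2 _
      have : (fun k => extU L u (k * (S i : G)) - extU L u k) = ext0 L θ i := funext (hgd i)
      rw [this]
      exact memLp_ext0 L θ i
  obtain ⟨c, hcc⟩ : ∃ c : G → H0 G μ, ∀ g (h : QD L u g), c g = emb μ _ h :=
    ⟨fun g => if h : QD L u g then emb μ _ h else 0, fun g h => dif_pos h⟩
  refine ⟨⟨c, fun g hg h hh => ?_, fun k hk => ?_, fun i => ?_⟩, ?_⟩
  · rw [hgen] at hg hh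
    rw [hcc _ (hQ _ (L.mul_mem hg hh)), hcc _ (hQ g hg), hcc _ (hQ h hh), cR_emb,
      ← emb_add]
    refine emb_congr (funext fun k => ?_)
    rw [mul_assoc]; ring
  · have hQ1 : QD L u k := by rw [Subgroup.mem_bot.1 hk]; exact hQ 1 L.one_mem
    rw [hcc _ hQ1]
    have h0 : (fun j => extU L u (j * k) - extU L u j) = fun _ => 0 := by
      rw [Subgroup.mem_bot.1 hk]; funext j; rw [mul_one, sub_self]
    have : MemLp (fun _ : G => (0 : ℝ)) 2 (Measure.count : Measure G) := MemLp.zero'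
    rw [emb_congr (hg := this) h0]
    refine Lp.ext ?_
    filter_upwards [emb_ae (μ := μ) (fun _ : G => (0 : ℝ)) this, Lp.coeFn_zero ℝ 2 (nu G μ)]
      with p h1 h2
    rw [h1, h2]; rfl
  · rw [hcc _ (hQ _ (S i).2)]
    exact emb_congr (hg := memLp_ext0 L θ i) (funext (hgd i))
  · show divOp μ (fun i => (S i : G)) (phi μ L θ) = 0
    ext1 j
    have h1 := divOp_apply (fun i => (S i : G)) (phi μ L θ)
    show divOp μ (fun i => (S i : G)) (phi μ L θ) () = 0
    rw [h1]
    refine eq_zero_of_test μ _ fun A hA g => ?_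
    rw [sum_inner]
    have h2 : ∀ i, ⟪cR μ (S i : G)⁻¹ ((phi μ L θ : HI ι (H0 G μ)) i) - (phi μ L θ : HI ι (H0 G μ)) i,
        mA μ A hA (cU μ g (v0 μ))⟫_ℝ
        = μ.real A * (ext0 L θ i (g * (S i : G)⁻¹) - ext0 L θ i g) := by
      intro i
      have h3 : (phi μ L θ : HI ι (H0 G μ)) i = emb μ (ext0 L θ i) (memLp_ext0 L θ i) := rfl
      rw [h3, cR_emb, inner_sub_left, inner_emb_test, inner_emb_test]; ring
    simp only [h2]
    rw [← Finset.mul_sum]
    have h4 : ∑ i, (ext0 L θ i (g * (S i : G)⁻¹) - ext0 L θ i g) = 0 := by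
      by_cases hg : g ∈ L
      · rw [← hdiv ⟨g, hg⟩]
        refine Finset.sum_congr rfl fun i _ => ?_
        have hg' : g * (S i : G)⁻¹ ∈ L := L.mul_mem hg (L.inv_mem (S i).2)
        simp only [ext0, dif_pos hg, dif_pos hg']
        rfl
      · refine Finset.sum_eq_zero fun i _ => ?_
        have hg' : g * (S i : G)⁻¹ ∉ L := fun h =>
          hg ((L.mul_mem_cancel_right (L.inv_mem (S i).2)).1 h)
        simp only [ext0, dif_neg hg, dif_neg hg', sub_self]
    rw [h4, mul_zero]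

lemma ext0_one (L : Subgroup G) (θ : lp (fun _ : L × ι => ℝ) 2) (i : ι) :
    ext0 L θ i 1 = θ (1, i) := by
  simp only [ext0, dif_pos L.one_mem]; rfl

/-- **The dimension of the harmonic gradients over `X` is the first `L²`-Betti number.** -/
theorem dim_HDX {L : Subgroup G} (S : ι → L) (hS : Subgroup.closure (Set.range S) = ⊤) :
    (HDX μ (fun i => (S i : G))).dim = bettiProj S := by
  set M := HDX μ (fun i => (S i : G)) with hM
  set K := (harmonicGradients S).topologicalClosure with hK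
  refine Finset.sum_congr rfl fun i _ => ?_
  set δ : lp (fun _ : L × ι => ℝ) 2 := edgeDelta L i with hδ
  set w := (sys μ : TrSys (H0 G μ)).w i with hw
  have hδθ : ∀ θ : lp (fun _ : L × ι => ℝ) 2, ⟪δ, θ⟫_ℝ = θ (1, i) := by
    intro θ
    exact inner_edgeDelta i θ
  have hwv : ∀ F : HI ι (H0 G μ), ⟪w, F⟫_ℝ = ⟪eb μ (1 : G), F i⟫_ℝ := by
    intro F
    rw [hw, eb_one]
    exact inner_inc_left _ _ _
  have h1 : ‖K.starProjection δ‖ ≤ ‖M.P w‖ := by
    have h2 : ∀ θ ∈ K, ⟪δ, θ⟫_ℝ ≤ ‖M.P w‖ * ‖θ‖ := by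
      intro θ hθ
      have hcl : IsClosed {θ : lp (fun _ : L × ι => ℝ) 2 | ⟪δ, θ⟫_ℝ ≤ ‖M.P w‖ * ‖θ‖} :=
        isClosed_le (continuous_const.inner continuous_id) (continuous_const.mul continuous_norm)
      have hθ' : θ ∈ closure (harmonicGradients S : Set (lp (fun _ : L × ι => ℝ) 2)) := hθ
      refine closure_minimal ?_ hcl hθ'
      intro θ hθ
      have h3 := phi_mem (μ := μ) S hS hθ
      have h4 : ⟪δ, θ⟫_ℝ = ⟪w, phi μ L θ⟫_ℝ := by
        rw [hδθ, hwv, real_inner_comm]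
        have : (phi μ L θ : HI ι (H0 G μ)) i = emb μ (ext0 L θ i) (memLp_ext0 L θ i) := rfl
        rw [this, inner_emb_eb, ext0_one]
      show ⟪δ, θ⟫_ℝ ≤ ‖M.P w‖ * ‖θ‖
      have h5 : ⟪M.P w, phi μ L θ⟫_ℝ = ⟪w, phi μ L θ⟫_ℝ := by
        rw [M.inner_P, M.P_eq_self h3]
      rw [h4, ← h5, ← norm_phi (μ := μ) L θ]
      exact real_inner_le_norm _ _
    have h3 := h2 _ (K.starProjection_apply_mem δ)
    have h4 : ⟪δ, K.starProjection δ⟫_ℝ = ‖K.starProjection δ‖ ^ 2 := by
      rw [← real_inner_self_eq_norm_sq, Submodule.inner_starProjection_left_eq_right,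
        Submodule.starProjection_eq_self_iff.2 (K.starProjection_apply_mem δ)]
    rw [h4] at h3
    by_contra hcon
    push Not at hcon
    have : 0 < ‖K.starProjection δ‖ := lt_of_le_of_lt (norm_nonneg _) hcon
    nlinarith
  have h2 : ‖M.P w‖ ≤ ‖K.starProjection δ‖ := by
    have h3 : psi μ L (M.P w) ∈ K := Submodule.le_topologicalClosure _ (psi_mem S hS (M.P_mem w))
    have h4 : ‖M.P w‖ ^ 2 = ⟪K.starProjection δ, psi μ L (M.P w)⟫_ℝ := by
      rw [Submodule.inner_starProjection_left_eq_right, Submodule.starProjection_eq_self_iff.2 h3,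
        hδθ, psi_apply]
      have h5 : ⟪w, M.P w⟫_ℝ = ⟪eb μ (1 : G), (M.P w) i⟫_ℝ := hwv _
      show _ = ⟪eb μ ((1 : L) : G), (M.P w) i⟫_ℝ
      rw [Subgroup.coe_one, ← h5, ← real_inner_self_eq_norm_sq, M.inner_P,
        M.P_eq_self (M.P_mem w)]
    have h5 := real_inner_le_norm (K.starProjection δ) (psi μ L (M.P w))
    have h6 := norm_psi_le (μ := μ) L (M.P w)
    rw [← h4] at h5
    by_contra hcon
    push Not at hcon
    have : 0 < ‖M.P w‖ := lt_of_le_of_lt (norm_nonneg _) hcon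
    nlinarith [norm_nonneg (K.starProjection δ)]
  rw [le_antisymm h2 h1]

end Forest46876
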